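import Mathlib

/-!
# The matrix equation `a h a = L a L`

For positive definite `h` and `L` there is exactly one positive definite `a` with
`a * h * a = L * a * L`.
-/

open Matrix Filter Topology

namespace Pool.Agent.MPf2d8fc

variable {ι : Type*} [Fintype ι] [DecidableEq ι]

/-- A positive semidefinite real matrix has a positive semidefinite square root. -/
theorem exists_sqrt {N : Matrix ι ι ℝ} (hN : N.PosSemidef) :
    ∃ X : Matrix ι ι ℝ, X.PosSemidef ∧ X * X = N := by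
  open scoped MatrixOrder in
  exact ⟨CFC.sqrt N, (CFC.sqrt_nonneg N).posSemidef, CFC.sqrt_mul_sqrt_self N hN.nonneg⟩

/-- A positive definite real matrix has a positive definite square root. -/
theorem exists_sqrt_pd {N : Matrix ι ι ℝ} (hN : N.PosDef) :
    ∃ X : Matrix ι ι ℝ, X.PosDef ∧ X * X = N := by
  obtain ⟨X, hX, hXX⟩ := exists_sqrt hN.posSemidef
  refine ⟨X, (hX.posDef_iff_isUnit).2 ?_, hXX⟩
  have h1 : IsUnit (X * X) := hXX ▸ hN.isUnit
  exact isUnit_of_mul_isUnit_left h1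

theorem isSymm_of_herm {M : Matrix ι ι ℝ} (h : M.IsHermitian) : Mᵀ = M := by
  simpa [Matrix.IsHermitian, Matrix.conjTranspose_eq_transpose_of_trivial] using h

theorem herm_of_isSymm {M : Matrix ι ι ℝ} (h : Mᵀ = M) : M.IsHermitian := by
  simpa [Matrix.IsHermitian, Matrix.conjTranspose_eq_transpose_of_trivial] using h

theorem psd_iff {M : Matrix ι ι ℝ} :
    M.PosSemidef ↔ Mᵀ = M ∧ ∀ x : ι → ℝ, 0 ≤ x ⬝ᵥ (M *ᵥ x) := by
  rw [posSemidef_iff_dotProduct_mulVec]
  constructor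
  · rintro ⟨h1, h2⟩; exact ⟨isSymm_of_herm h1, fun x => by simpa using h2 x⟩
  · rintro ⟨h1, h2⟩; exact ⟨herm_of_isSymm h1, fun x => by simpa using h2 x⟩

theorem pd_iff {M : Matrix ι ι ℝ} :
    M.PosDef ↔ Mᵀ = M ∧ ∀ x : ι → ℝ, x ≠ 0 → 0 < x ⬝ᵥ (M *ᵥ x) := by
  rw [posDef_iff_dotProduct_mulVec]
  constructor
  · rintro ⟨h1, h2⟩; exact ⟨isSymm_of_herm h1, fun x hx => by simpa using h2 hx⟩
  · rintro ⟨h1, h2⟩; exact ⟨herm_of_isSymm h1, fun x hx => by simpa using h2 x hx⟩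

theorem dot_self_pos {x : ι → ℝ} (hx : x ≠ 0) : 0 < x ⬝ᵥ x := by
  have h := dotProduct_star_self_pos_iff (v := x)
  simpa using h.2 hx

theorem dot_self_nonneg (x : ι → ℝ) : 0 ≤ x ⬝ᵥ x :=
  Finset.sum_nonneg fun i _ => mul_self_nonneg (x i)

theorem dot_self_eq_zero {x : ι → ℝ} (hx : x ⬝ᵥ x = 0) : x = 0 := by
  by_contra h
  exact absurd hx (ne_of_gt (dot_self_pos h))

/-- `x · (A (B x)) = (Aᵀ x) · (B x)`. -/
theorem dot_mul (A B : Matrix ι ι ℝ) (x y : ι → ℝ) :
    x ⬝ᵥ ((A * B) *ᵥ y) = (Aᵀ *ᵥ x) ⬝ᵥ (B *ᵥ y) := by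
  rw [← mulVec_mulVec, dotProduct_mulVec, ← mulVec_transpose]

/-- Monotonicity: if `a h a ≤ b h b` with `h` positive definite, `a` symmetric and `b`
positive semidefinite, then `a ≤ b`. -/
theorem le_of_sandwich {h a b : Matrix ι ι ℝ} (hh : h.PosDef) (ha : aᵀ = a)
    (hb : b.PosSemidef) (hab : (b * h * b - a * h * a).PosSemidef) : (b - a).PosSemidef := by
  obtain ⟨s, hs, hss⟩ := exists_sqrt_pd hh
  have hsT : sᵀ = s := isSymm_of_herm hs.isHermitian
  have hbT : bᵀ = b := isSymm_of_herm hb.isHermitian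
  set T : Matrix ι ι ℝ := s * (b - a) * s with hT
  have hTherm : T.IsHermitian := by
    apply herm_of_isSymm
    rw [hT, transpose_mul, transpose_mul, hsT, transpose_sub, ha, hbT, ← Matrix.mul_assoc]
  have hTpsd : T.PosSemidef := by
    rw [hTherm.posSemidef_iff_eigenvalues_nonneg]
    intro i
    by_contra hneg
    have hneg : hTherm.eigenvalues i < 0 := by simpa using hneg
    set μ : ℝ := hTherm.eigenvalues i with hμ
    set y : ι → ℝ := ⇑(hTherm.eigenvectorBasis i) with hy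
    have hy0 : y ≠ 0 := by
      intro h0
      have h1 : hTherm.eigenvectorBasis i ≠ 0 := hTherm.eigenvectorBasis.orthonormal.ne_zero i
      apply h1
      ext j
      exact congrFun h0 j
    have hTy : T *ᵥ y = μ • y := hTherm.mulVec_eigenvectorBasis i
    -- x = s y
    set x : ι → ℝ := s *ᵥ y with hx
    have h1 : s *ᵥ (b *ᵥ x) - s *ᵥ (a *ᵥ x) = μ • y := by
      rw [← hTy, hT, hx, ← mulVec_sub, ← sub_mulVec]
      simp only [mulVec_mulVec, Matrix.mul_assoc]
    have h2 := (psd_iff.1 hab).2 x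
    have h3 : x ⬝ᵥ ((b * h * b) *ᵥ x) = (s *ᵥ (b *ᵥ x)) ⬝ᵥ (s *ᵥ (b *ᵥ x)) := by
      have e : b * h * b = (b * s) * (s * b) := by rw [← hss]; simp only [Matrix.mul_assoc]
      rw [e, dot_mul, transpose_mul, hbT, hsT, ← mulVec_mulVec]
    have h4 : x ⬝ᵥ ((a * h * a) *ᵥ x) = (s *ᵥ (a *ᵥ x)) ⬝ᵥ (s *ᵥ (a *ᵥ x)) := by
      have e : a * h * a = (a * s) * (s * a) := by rw [← hss]; simp only [Matrix.mul_assoc]
      rw [e, dot_mul, transpose_mul, ha, hsT, ← mulVec_mulVec]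
    rw [sub_mulVec, dotProduct_sub, h3, h4] at h2
    have h5 : s *ᵥ (a *ᵥ x) = s *ᵥ (b *ᵥ x) - μ • y := by rw [← h1]; abel
    have h6 : y ⬝ᵥ (s *ᵥ (b *ᵥ x)) = x ⬝ᵥ (b *ᵥ x) := by
      rw [dotProduct_mulVec, ← mulVec_transpose, hsT]
    have h7 := (psd_iff.1 hb).2 x
    have h8 := dot_self_pos hy0
    rw [h5, sub_dotProduct, dotProduct_sub, dotProduct_sub, smul_dotProduct, dotProduct_smul,
      smul_dotProduct, dotProduct_smul, dotProduct_comm (s *ᵥ (b *ᵥ x)) y, h6] at h2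
    simp only [smul_eq_mul] at h2
    have h9 : 0 < μ * (μ * (y ⬝ᵥ y)) := by
      have : 0 < μ * μ := mul_pos_of_neg_of_neg hneg hneg
      nlinarith
    have h10 : μ * (x ⬝ᵥ (b *ᵥ x)) ≤ 0 := mul_nonpos_of_nonpos_of_nonneg hneg.le h7
    linarith
  -- undo the conjugation
  rw [psd_iff]
  refine ⟨by rw [transpose_sub, ha, hbT], fun x => ?_⟩
  obtain ⟨y, rfl⟩ : ∃ y, s *ᵥ y = x := by
    refine ⟨s⁻¹ *ᵥ x, ?_⟩
    rw [mulVec_mulVec, Matrix.mul_nonsing_inv _ ((isUnit_iff_isUnit_det s).1 hs.isUnit), one_mulVec]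
  have h11 := (psd_iff.1 hTpsd).2 y
  rw [hT, Matrix.mul_assoc, dot_mul, hsT, ← mulVec_mulVec] at h11
  exact h11

theorem upper_bound (M : Matrix ι ι ℝ) : ∃ C : ℝ, 0 < C ∧ ∀ x : ι → ℝ, x ⬝ᵥ (M *ᵥ x) ≤ C * (x ⬝ᵥ x) := by
  refine ⟨(∑ i, ∑ j, |M i j|) + 1, ?_, fun x => ?_⟩
  · have : 0 ≤ ∑ i, ∑ j, |M i j| := Finset.sum_nonneg fun i _ => Finset.sum_nonneg fun j _ => abs_nonneg _
    linarith
  · have h1 : x ⬝ᵥ (M *ᵥ x) = ∑ i, ∑ j, M i j * (x i * x j) := by
      simp only [dotProduct, mulVec, Finset.mul_sum]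
      refine Finset.sum_congr rfl fun i _ => Finset.sum_congr rfl fun j _ => ?_
      ring
    have h2 : ∀ i j, M i j * (x i * x j) ≤ |M i j| * (x ⬝ᵥ x) := by
      intro i j
      have h3 : |x i * x j| ≤ x ⬝ᵥ x := by
        have hi : x i * x i ≤ x ⬝ᵥ x :=
          Finset.single_le_sum (f := fun k => x k * x k) (fun k _ => mul_self_nonneg (x k))
            (Finset.mem_univ i)
        have hj : x j * x j ≤ x ⬝ᵥ x :=
          Finset.single_le_sum (f := fun k => x k * x k) (fun k _ => mul_self_nonneg (x k))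
            (Finset.mem_univ j)
        rw [abs_mul]
        have h4 : |x i| * |x j| ≤ (|x i| * |x i| + |x j| * |x j|) / 2 := by
          nlinarith [mul_self_nonneg (|x i| - |x j|)]
        rw [abs_mul_abs_self, abs_mul_abs_self] at h4
        linarith
      calc M i j * (x i * x j) ≤ |M i j * (x i * x j)| := le_abs_self _
        _ = |M i j| * |x i * x j| := abs_mul _ _
        _ ≤ |M i j| * (x ⬝ᵥ x) := mul_le_mul_of_nonneg_left h3 (abs_nonneg _)
    calc x ⬝ᵥ (M *ᵥ x) = ∑ i, ∑ j, M i j * (x i * x j) := h1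
      _ ≤ ∑ i, ∑ j, |M i j| * (x ⬝ᵥ x) :=
          Finset.sum_le_sum fun i _ => Finset.sum_le_sum fun j _ => h2 i j
      _ = (∑ i, ∑ j, |M i j|) * (x ⬝ᵥ x) := by simp only [Finset.sum_mul]
      _ ≤ ((∑ i, ∑ j, |M i j|) + 1) * (x ⬝ᵥ x) := by
          have := dot_self_nonneg x
          nlinarith

theorem lower_bound {b : Matrix ι ι ℝ} (hb : b.PosDef) :
    ∃ c : ℝ, 0 < c ∧ ∀ x : ι → ℝ, c * (x ⬝ᵥ x) ≤ x ⬝ᵥ (b *ᵥ x) := by
  obtain ⟨s, hs, hss⟩ := exists_sqrt_pd hb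
  have hsT : sᵀ = s := isSymm_of_herm hs.isHermitian
  obtain ⟨C, hC, hCb⟩ := upper_bound ((s⁻¹)ᵀ * s⁻¹)
  refine ⟨C⁻¹, inv_pos.2 hC, fun x => ?_⟩
  have h1 := hCb (s *ᵥ x)
  rw [dot_mul, transpose_transpose, mulVec_mulVec,
    Matrix.nonsing_inv_mul _ ((isUnit_iff_isUnit_det s).1 hs.isUnit), one_mulVec] at h1
  have h2 : x ⬝ᵥ (b *ᵥ x) = (s *ᵥ x) ⬝ᵥ (s *ᵥ x) := by rw [← hss, dot_mul, hsT]
  rw [h2, inv_mul_le_iff₀ hC]
  exact h1

theorem psd_conj {L M : Matrix ι ι ℝ} (hL : Lᵀ = L) (hM : M.PosSemidef) : (L * M * L).PosSemidef := by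
  rw [psd_iff] at hM ⊢
  refine ⟨by rw [transpose_mul, transpose_mul, hL, hM.1, ← Matrix.mul_assoc], fun x => ?_⟩
  rw [Matrix.mul_assoc, dot_mul, hL, ← mulVec_mulVec]
  exact hM.2 _

theorem pd_conj {L M : Matrix ι ι ℝ} (hL : Lᵀ = L) (hu : IsUnit L) (hM : M.PosDef) :
    (L * M * L).PosDef := by
  rw [pd_iff] at hM ⊢
  refine ⟨by rw [transpose_mul, transpose_mul, hL, hM.1, ← Matrix.mul_assoc], fun x hx => ?_⟩
  rw [Matrix.mul_assoc, dot_mul, hL, ← mulVec_mulVec]
  apply hM.2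
  intro h0
  apply hx
  have h1 : L⁻¹ *ᵥ (L *ᵥ x) = x := by
    rw [mulVec_mulVec, Matrix.nonsing_inv_mul _ ((isUnit_iff_isUnit_det L).1 hu), one_mulVec]
  rw [← h1, h0, mulVec_zero]

/-- For positive definite `h` and `Q` there is a positive definite `Z` with `Z h Z = Q`. -/
theorem exists_sandwich {h Q : Matrix ι ι ℝ} (hh : h.PosDef) (hQ : Q.PosDef) :
    ∃ Z : Matrix ι ι ℝ, Z.PosDef ∧ Z * h * Z = Q := by
  obtain ⟨s, hs, hss⟩ := exists_sqrt_pd hh
  have hsT : sᵀ = s := isSymm_of_herm hs.isHermitian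
  have hdet := (isUnit_iff_isUnit_det s).1 hs.isUnit
  obtain ⟨X, hX, hXX⟩ := exists_sqrt_pd (pd_conj hsT hs.isUnit hQ)
  have hiT : (s⁻¹)ᵀ = s⁻¹ := by rw [transpose_nonsing_inv, hsT]
  have h1 : s⁻¹ * s = 1 := Matrix.nonsing_inv_mul _ hdet
  have h2 : s * s⁻¹ = 1 := Matrix.mul_nonsing_inv _ hdet
  have hiu : IsUnit s⁻¹ := ⟨⟨s⁻¹, s, h1, h2⟩, rfl⟩
  refine ⟨s⁻¹ * X * s⁻¹, pd_conj hiT hiu hX, ?_⟩
  calc s⁻¹ * X * s⁻¹ * h * (s⁻¹ * X * s⁻¹)
      = s⁻¹ * X * ((s⁻¹ * s) * (s * s⁻¹)) * X * s⁻¹ := by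
        rw [← hss]; simp only [Matrix.mul_assoc]
    _ = s⁻¹ * (X * X) * s⁻¹ := by
        rw [h1, h2]; simp only [Matrix.mul_assoc, Matrix.one_mul]
    _ = (s⁻¹ * s) * Q * (s * s⁻¹) := by rw [hXX]; simp only [Matrix.mul_assoc]
    _ = Q := by rw [h1, h2, Matrix.one_mul, Matrix.mul_one]

theorem psd_antisymm {a b : Matrix ι ι ℝ} (h1 : (b - a).PosSemidef) (h2 : (a - b).PosSemidef) :
    a = b := by
  have h3 : ∀ x : ι → ℝ, x ⬝ᵥ ((b - a) *ᵥ x) = 0 := by
    intro x
    have e1 := (psd_iff.1 h1).2 x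
    have e2 := (psd_iff.1 h2).2 x
    rw [sub_mulVec, dotProduct_sub] at e1 e2 ⊢
    linarith
  have h4 : ∀ x : ι → ℝ, (b - a) *ᵥ x = 0 := by
    intro x
    have := (h1.dotProduct_mulVec_zero_iff x).1 (by simpa using h3 x)
    exact this
  have h5 : b - a = 0 := by
    ext i j
    have := congrFun (h4 (Pi.single j 1)) i
    simpa using this
  exact (sub_eq_zero.1 h5).symm

theorem halve {h L a b : Matrix ι ι ℝ} (hh : h.PosDef) (hL : Lᵀ = L) (ha : a.PosDef)
    (hb : b.PosDef) (ea : a * h * a = L * a * L) (eb : b * h * b = L * b * L) {ε : ℝ}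
    (hε : 0 ≤ ε) (hS : ((1 + ε) • b - a).PosSemidef) : ((1 + ε / 2) • b - a).PosSemidef := by
  have h0 : (0 : ℝ) ≤ 1 + ε := by linarith
  have hsq : Real.sqrt (1 + ε) ≤ 1 + ε / 2 := by
    rw [Real.sqrt_le_left (by linarith)]
    nlinarith
  have haT : aᵀ = a := isSymm_of_herm ha.isHermitian
  have h1 : ((Real.sqrt (1 + ε) • b) * h * (Real.sqrt (1 + ε) • b) - a * h * a).PosSemidef := by
    have e : (Real.sqrt (1 + ε) • b) * h * (Real.sqrt (1 + ε) • b) - a * h * a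
        = L * ((1 + ε) • b - a) * L := by
      rw [Matrix.smul_mul, Matrix.smul_mul, Matrix.mul_smul, smul_smul,
        Real.mul_self_sqrt h0, eb, ea, Matrix.mul_sub, Matrix.sub_mul, Matrix.mul_smul,
        Matrix.smul_mul]
    rw [e]
    exact psd_conj hL hS
  have h2 : (Real.sqrt (1 + ε) • b).PosSemidef := hb.posSemidef.smul (Real.sqrt_nonneg _)
  have h3 := le_of_sandwich hh haT h2 h1
  have h4 : ((1 + ε / 2 - Real.sqrt (1 + ε)) • b).PosSemidef :=
    hb.posSemidef.smul (by linarith)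
  have h5 := h3.add h4
  have e2 : (Real.sqrt (1 + ε) • b - a) + (1 + ε / 2 - Real.sqrt (1 + ε)) • b
      = (1 + ε / 2) • b - a := by
    rw [sub_smul]; abel
  rwa [e2] at h5

theorem le_of_eqs {h L a b : Matrix ι ι ℝ} (hh : h.PosDef) (hL : Lᵀ = L) (ha : a.PosDef)
    (hb : b.PosDef) (ea : a * h * a = L * a * L) (eb : b * h * b = L * b * L) :
    (b - a).PosSemidef := by
  have haT : aᵀ = a := isSymm_of_herm ha.isHermitian
  have hbT : bᵀ = b := isSymm_of_herm hb.isHermitian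
  obtain ⟨C, hC, hCa⟩ := upper_bound a
  obtain ⟨c, hc, hcb⟩ := lower_bound hb
  set ε : ℝ := C / c with hε
  have hε0 : 0 ≤ ε := (div_pos hC hc).le
  have h0 : ((1 + ε) • b - a).PosSemidef := by
    rw [psd_iff]
    refine ⟨by rw [transpose_sub, transpose_smul, haT, hbT], fun x => ?_⟩
    rw [sub_mulVec, dotProduct_sub, smul_mulVec, dotProduct_smul, smul_eq_mul]
    have h1 := hCa x
    have h2 := hcb x
    have h3 := dot_self_nonneg x
    have h4 : C * (x ⬝ᵥ x) = ε * (c * (x ⬝ᵥ x)) := by rw [hε]; field_simp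
    have h5 : ε * (c * (x ⬝ᵥ x)) ≤ ε * (x ⬝ᵥ (b *ᵥ x)) := mul_le_mul_of_nonneg_left h2 hε0
    have h6 : 0 ≤ c * (x ⬝ᵥ x) := mul_nonneg hc.le h3
    nlinarith
  have h1 : ∀ k : ℕ, ((1 + ε / 2 ^ k) • b - a).PosSemidef := by
    intro k
    induction k with
    | zero => simpa using h0
    | succ k ih =>
      have h2 := halve hh hL ha hb ea eb (div_nonneg hε0 (by positivity)) ih
      have e : ε / 2 ^ k / 2 = ε / 2 ^ (k + 1) := by rw [pow_succ]; field_simp
      rwa [e] at h2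
  rw [psd_iff]
  refine ⟨by rw [transpose_sub, haT, hbT], fun x => ?_⟩
  have h2 : Tendsto (fun k : ℕ => x ⬝ᵥ (((1 + ε / 2 ^ k) • b - a) *ᵥ x)) atTop
      (𝓝 (x ⬝ᵥ ((b - a) *ᵥ x))) := by
    have h3 : Tendsto (fun k : ℕ => (1 + ε / 2 ^ k : ℝ)) atTop (𝓝 (1 + 0)) := by
      apply Tendsto.const_add
      have h4 := tendsto_pow_atTop_nhds_zero_of_lt_one (r := (1 / 2 : ℝ)) (by norm_num) (by norm_num)
      have h5 := h4.const_mul ε
      rw [mul_zero] at h5
      refine h5.congr fun k => ?_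
      rw [div_pow, one_pow]; ring
    have h6 : Tendsto (fun k : ℕ => (1 + ε / 2 ^ k : ℝ) * (x ⬝ᵥ (b *ᵥ x)) - x ⬝ᵥ (a *ᵥ x)) atTop
        (𝓝 ((1 + 0) * (x ⬝ᵥ (b *ᵥ x)) - x ⬝ᵥ (a *ᵥ x))) := (h3.mul_const _).sub_const _
    have e : x ⬝ᵥ ((b - a) *ᵥ x) = (1 + 0) * (x ⬝ᵥ (b *ᵥ x)) - x ⬝ᵥ (a *ᵥ x) := by
      rw [sub_mulVec, dotProduct_sub]; ring
    rw [e]
    refine h6.congr fun k => ?_
    rw [sub_mulVec, dotProduct_sub, smul_mulVec, dotProduct_smul, smul_eq_mul]
  exact ge_of_tendsto' h2 fun k => (psd_iff.1 (h1 k)).2 x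

/-- Uniqueness of the positive definite solution of `a h a = L a L`. -/
theorem sol_unique {h L a b : Matrix ι ι ℝ} (hh : h.PosDef) (hL : Lᵀ = L) (ha : a.PosDef)
    (hb : b.PosDef) (ea : a * h * a = L * a * L) (eb : b * h * b = L * b * L) : a = b :=
  psd_antisymm (le_of_eqs hh hL ha hb ea eb) (le_of_eqs hh hL hb ha eb ea)

/-- One step of the iteration. -/
noncomputable def step {h L : Matrix ι ι ℝ} (hh : h.PosDef) (hL : Lᵀ = L) (hu : IsUnit L)
    (a : {a : Matrix ι ι ℝ // a.PosDef}) : {a : Matrix ι ι ℝ // a.PosDef} :=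
  ⟨(exists_sandwich hh (pd_conj hL hu a.2)).choose,
    (exists_sandwich hh (pd_conj hL hu a.2)).choose_spec.1⟩

theorem step_spec {h L : Matrix ι ι ℝ} (hh : h.PosDef) (hL : Lᵀ = L) (hu : IsUnit L)
    (a : {a : Matrix ι ι ℝ // a.PosDef}) :
    (step hh hL hu a).1 * h * (step hh hL hu a).1 = L * a.1 * L :=
  (exists_sandwich hh (pd_conj hL hu a.2)).choose_spec.2

theorem step_le {h L : Matrix ι ι ℝ} (hh : h.PosDef) (hL : Lᵀ = L) (hu : IsUnit L)
    (a : {a : Matrix ι ι ℝ // a.PosDef}) {b : Matrix ι ι ℝ} (hb : b.PosDef)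
    (hab : (b * h * b - L * a.1 * L).PosSemidef) : (b - (step hh hL hu a).1).PosSemidef := by
  apply le_of_sandwich hh (isSymm_of_herm (step hh hL hu a).2.isHermitian) hb.posSemidef
  rw [step_spec]
  exact hab

theorem le_step {h L : Matrix ι ι ℝ} (hh : h.PosDef) (hL : Lᵀ = L) (hu : IsUnit L)
    (a : {a : Matrix ι ι ℝ // a.PosDef}) {b : Matrix ι ι ℝ} (hb : b.PosDef)
    (hab : (L * a.1 * L - b * h * b).PosSemidef) : ((step hh hL hu a).1 - b).PosSemidef := by
  apply le_of_sandwich hh (isSymm_of_herm hb.isHermitian) (step hh hL hu a).2.posSemidef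
  rw [step_spec]
  exact hab

/-- Existence of the positive definite solution of `a h a = L a L`. -/
theorem sol_exists {h L : Matrix ι ι ℝ} (hh : h.PosDef) (hL : Lᵀ = L) (hu : IsUnit L) :
    ∃ a : Matrix ι ι ℝ, a.PosDef ∧ a * h * a = L * a * L := by
  have hLL : (L * L).PosDef := by
    have := pd_conj hL hu (PosDef.one (n := ι) (R := ℝ))
    simpa using this
  -- constants
  obtain ⟨C1, hC1, hC1b⟩ := upper_bound (L * L)
  obtain ⟨c1, hc1, hc1b⟩ := lower_bound hh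
  obtain ⟨C2, hC2, hC2b⟩ := upper_bound h
  obtain ⟨c2, hc2, hc2b⟩ := lower_bound hLL
  have hhT : hᵀ = h := isSymm_of_herm hh.isHermitian
  have hLLT : (L * L)ᵀ = L * L := isSymm_of_herm hLL.isHermitian
  -- upper start
  set C : ℝ := C1 / c1 + c2 / C2 with hCdef
  have hCpos : 0 < C := by positivity
  have hCle : C1 ≤ C * c1 := by
    have : C1 / c1 * c1 = C1 := by field_simp
    have h2 : 0 < c2 / C2 * c1 := by positivity
    rw [hCdef, add_mul, this]; linarith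
  set c : ℝ := c2 / C2 with hcdef
  have hcpos : 0 < c := by positivity
  have hcle : c * C2 ≤ c2 := by rw [hcdef]; field_simp; exact le_rfl
  have hcC : c ≤ C := by rw [hCdef]; have : 0 < C1 / c1 := by positivity
                         linarith
  have hCI : (C • (1 : Matrix ι ι ℝ)).PosDef := PosDef.one.smul hCpos
  have hcI : (c • (1 : Matrix ι ι ℝ)).PosDef := PosDef.one.smul hcpos
  have hup : (C • h - L * L).PosSemidef := by
    rw [psd_iff]
    refine ⟨by rw [transpose_sub, transpose_smul, hhT, hLLT], fun x => ?_⟩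
    rw [sub_mulVec, dotProduct_sub, smul_mulVec, dotProduct_smul, smul_eq_mul]
    have h1 := hC1b x
    have h2 := mul_le_mul_of_nonneg_left (hc1b x) hCpos.le
    have h3 := mul_le_mul_of_nonneg_right hCle (dot_self_nonneg x)
    nlinarith
  have hlow : (L * L - c • h).PosSemidef := by
    rw [psd_iff]
    refine ⟨by rw [transpose_sub, transpose_smul, hhT, hLLT], fun x => ?_⟩
    rw [sub_mulVec, dotProduct_sub, smul_mulVec, dotProduct_smul, smul_eq_mul]
    have h1 := hc2b x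
    have h2 := mul_le_mul_of_nonneg_left (hC2b x) hcpos.le
    have h3 := mul_le_mul_of_nonneg_right hcle (dot_self_nonneg x)
    nlinarith
  -- the sequence
  let a0 : {a : Matrix ι ι ℝ // a.PosDef} := ⟨C • 1, hCI⟩
  let u : ℕ → {a : Matrix ι ι ℝ // a.PosDef} := fun k => (step hh hL hu)^[k] a0
  have hus : ∀ k, u (k + 1) = step hh hL hu (u k) := fun k => Function.iterate_succ_apply' _ _ _
  have hmono : ∀ k, ((u k).1 - (u (k + 1)).1).PosSemidef := by
    intro k
    induction k with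
    | zero =>
      rw [hus 0]
      apply step_le hh hL hu (u 0) hCI
      have e : (C • (1 : Matrix ι ι ℝ)) * h * (C • (1 : Matrix ι ι ℝ)) - L * (u 0).1 * L
          = C • (C • h - L * L) := by
        have e1 : (u 0).1 = C • (1 : Matrix ι ι ℝ) := rfl
        rw [e1]
        simp only [Matrix.smul_mul, Matrix.mul_smul, Matrix.one_mul, Matrix.mul_one, smul_sub]
      rw [e]
      exact hup.smul hCpos.le
    | succ k ih =>
      rw [hus (k + 1)]
      apply step_le hh hL hu (u (k + 1)) (u (k + 1)).2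
      have e : (u (k + 1)).1 * h * (u (k + 1)).1 - L * (u (k + 1)).1 * L
          = L * ((u k).1 - (u (k + 1)).1) * L := by
        rw [Matrix.mul_sub, Matrix.sub_mul]
        nth_rewrite 1 2 [hus k]
        rw [step_spec]
      rw [e]
      exact psd_conj hL ih
  have hbelow : ∀ k, ((u k).1 - c • (1 : Matrix ι ι ℝ)).PosSemidef := by
    intro k
    induction k with
    | zero =>
      have e : (u 0).1 - c • (1 : Matrix ι ι ℝ) = (C - c) • (1 : Matrix ι ι ℝ) := by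
        have e1 : (u 0).1 = C • (1 : Matrix ι ι ℝ) := rfl
        rw [e1, sub_smul]
      rw [e]
      exact PosSemidef.one.smul (by linarith)
    | succ k ih =>
      rw [hus k]
      apply le_step hh hL hu (u k) hcI
      have e : L * (u k).1 * L - (c • (1 : Matrix ι ι ℝ)) * h * (c • (1 : Matrix ι ι ℝ))
          = L * ((u k).1 - c • (1 : Matrix ι ι ℝ)) * L + c • (L * L - c • h) := by
        rw [Matrix.mul_sub, Matrix.sub_mul]
        simp only [Matrix.smul_mul, Matrix.mul_smul, Matrix.one_mul, Matrix.mul_one, smul_sub]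
        abel
      rw [e]
      exact (psd_conj hL ih).add (hlow.smul hcpos.le)
  -- convergence of the quadratic forms
  have hq : ∀ x : ι → ℝ, ∃ l : ℝ, Tendsto (fun k => x ⬝ᵥ ((u k).1 *ᵥ x)) atTop (𝓝 l) := by
    intro x
    have hanti : Antitone (fun k => x ⬝ᵥ ((u k).1 *ᵥ x)) := by
      apply antitone_nat_of_succ_le
      intro k
      have := (psd_iff.1 (hmono k)).2 x
      rw [sub_mulVec, dotProduct_sub] at this
      linarith
    have hbdd : BddBelow (Set.range (fun k => x ⬝ᵥ ((u k).1 *ᵥ x))) := by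
      refine ⟨0, ?_⟩
      rintro _ ⟨k, rfl⟩
      exact (psd_iff.1 (u k).2.posSemidef).2 x
    exact ⟨_, tendsto_atTop_ciInf hanti hbdd⟩
  have hent : ∀ i j, ∃ l : ℝ, Tendsto (fun k => (u k).1 i j) atTop (𝓝 l) := by
    intro i j
    obtain ⟨l1, h1⟩ := hq (Pi.single i 1 + Pi.single j 1)
    obtain ⟨l2, h2⟩ := hq (Pi.single i 1)
    obtain ⟨l3, h3⟩ := hq (Pi.single j 1)
    refine ⟨(l1 - l2 - l3) / 2, ?_⟩
    refine (((h1.sub h2).sub h3).div_const 2).congr fun k => ?_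
    have hT : (u k).1 j i = (u k).1 i j := by
      have := congrFun (congrFun (isSymm_of_herm (u k).2.isHermitian) i) j
      simpa using this
    simp [mulVec_add, dotProduct_add, add_dotProduct, hT]
    ring
  choose A hA using hent
  have hlim : Tendsto (fun k => (u k).1) atTop (𝓝 (Matrix.of A)) :=
    tendsto_pi_nhds.2 fun i => tendsto_pi_nhds.2 fun j => hA i j
  refine ⟨Matrix.of A, ?_, ?_⟩
  · rw [pd_iff]
    constructor
    · ext i j
      have h1 := hA j i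
      have h2 := hA i j
      have h3 : (fun k => (u k).1 j i) = fun k => (u k).1 i j := by
        funext k
        have := congrFun (congrFun (isSymm_of_herm (u k).2.isHermitian) i) j
        simpa using this
      rw [h3] at h1
      simpa using tendsto_nhds_unique h1 h2
    · intro x hx
      have hc : Continuous (fun M : Matrix ι ι ℝ => x ⬝ᵥ (M *ᵥ x)) := by fun_prop
      have h1 : Tendsto (fun k => x ⬝ᵥ ((u k).1 *ᵥ x)) atTop (𝓝 (x ⬝ᵥ ((Matrix.of A) *ᵥ x))) :=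
        (hc.tendsto _).comp hlim
      have h2 : ∀ k, c * (x ⬝ᵥ x) ≤ x ⬝ᵥ ((u k).1 *ᵥ x) := by
        intro k
        have := (psd_iff.1 (hbelow k)).2 x
        rw [sub_mulVec, dotProduct_sub, smul_mulVec, one_mulVec, dotProduct_smul, smul_eq_mul] at this
        linarith
      have h3 := ge_of_tendsto' h1 h2
      have h4 : 0 < c * (x ⬝ᵥ x) := mul_pos hcpos (dot_self_pos hx)
      linarith
  · have hc1 : Continuous (fun M : Matrix ι ι ℝ => M * h * M) := by fun_prop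
    have hc2 : Continuous (fun M : Matrix ι ι ℝ => L * M * L) := by fun_prop
    have h1 : Tendsto (fun k => (u (k + 1)).1 * h * (u (k + 1)).1) atTop
        (𝓝 (Matrix.of A * h * Matrix.of A)) :=
      ((hc1.tendsto _).comp hlim).comp (tendsto_add_atTop_nat 1)
    have h2 : Tendsto (fun k => L * (u k).1 * L) atTop (𝓝 (L * Matrix.of A * L)) :=
      (hc2.tendsto _).comp hlim
    have h3 : (fun k => (u (k + 1)).1 * h * (u (k + 1)).1) = fun k => L * (u k).1 * L := by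
      funext k
      rw [hus k, step_spec]
    rw [h3] at h1
    exact tendsto_nhds_unique h1 h2

/-- **The core theorem**: for positive definite `h` and symmetric invertible `L` there is
exactly one positive definite `a` with `a h a = L a L`. -/
theorem sol_existsUnique {h L : Matrix ι ι ℝ} (hh : h.PosDef) (hL : Lᵀ = L) (hu : IsUnit L) :
    ∃! a : Matrix ι ι ℝ, a.PosDef ∧ a * h * a = L * a * L := by
  obtain ⟨a, ha, ea⟩ := sol_exists hh hL hu
  exact ⟨a, ⟨ha, ea⟩, fun b hb => sol_unique hh hL hb.1 ha hb.2 ea⟩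

end Pool.Agent.MPf2d8fc
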