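import Mathlib

/-!
# Fixed points of the iterated Pearson correlation map: definitions
-/

open Matrix

namespace Pool.Agent.MPf2d8fc

/-- The mean of a vector. -/
noncomputable def mean {m : ℕ} (x : Fin m → ℝ) : ℝ := (∑ k, x k) / m

/-- The Pearson correlation of two vectors. -/
noncomputable def corr {m : ℕ} (x y : Fin m → ℝ) : ℝ :=
  (∑ k, (x k - mean x) * (y k - mean y)) /
    Real.sqrt ((∑ k, (x k - mean x) ^ 2) * (∑ k, (y k - mean y) ^ 2))

/-- The correlation map `C`: entry `(i, j)` is the correlation of the rows `i` and `j`. -/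
noncomputable def corrMap {n : ℕ} (A : Matrix (Fin n) (Fin n) ℝ) : Matrix (Fin n) (Fin n) ℝ :=
  Matrix.of fun i j => corr (A i) (A j)

/-- The set `Fix(C)`: correlation matrices (positive semidefinite, ones on the diagonal) without
a constant row which are left unchanged by `C`. -/
def FixC (n : ℕ) : Set (Matrix (Fin n) (Fin n) ℝ) :=
  {A | A.PosSemidef ∧ (∀ i, A i i = 1) ∧ (∀ i, ¬ ∃ c : ℝ, ∀ j, A i j = c) ∧ corrMap A = A}

variable {n : ℕ}

/-- The row sums `q = P 1` of a matrix. -/
def rowSum (P : Matrix (Fin n) (Fin n) ℝ) (i : Fin n) : ℝ := ∑ j, P i j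

/-- The parameters: a positive vector `d` and an orthogonal projection matrix `P` which is block
diagonal for the level sets of `d` and does not fix the vector `1`. -/
structure Param (d : Fin n → ℝ) (P : Matrix (Fin n) (Fin n) ℝ) : Prop where
  /-- `d` is positive -/
  pos : ∀ i, 0 < d i
  /-- `P` is symmetric -/
  symm : Pᵀ = P
  /-- `P` is idempotent -/
  idem : P * P = P
  /-- `P` is block diagonal for the level sets of `d` -/
  blk : ∀ i j, d i ≠ d j → P i j = 0
  /-- `P 1 ≠ 1` -/
  ne : ¬ ∀ i, rowSum P i = 1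

/-- The weight of the level `t` of `d`: the sum of `(P 1) i` over all `i` with `d i = t`. -/
noncomputable def wt (d : Fin n → ℝ) (P : Matrix (Fin n) (Fin n) ℝ) (t : ℝ) : ℝ :=
  ∑ i, if d i = t then rowSum P i else 0

/-- The coupled levels: the values `t` of `d` with nonzero weight. -/
noncomputable def lev (d : Fin n → ℝ) (P : Matrix (Fin n) (Fin n) ℝ) : Finset ℝ :=
  (Finset.univ.image d).filter fun t => wt d P t ≠ 0

/-- The core equation for a positive definite matrix `β` indexed by the coupled levels. -/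
def Core (d : Fin n → ℝ) (P : Matrix (Fin n) (Fin n) ℝ) (β : Matrix (lev d P) (lev d P) ℝ) :
    Prop :=
  β.PosDef ∧ ∀ t u : lev d P,
    ∑ r : lev d P, wt d P r * β t r * β r u
      - (∑ r : lev d P, wt d P r * β t r) * (∑ r : lev d P, wt d P r * β r u) / n
      = t * u * β t u

/-- The restriction of `P 1` to the level `t` of `d`, for all coupled levels `t`. -/
noncomputable def lvec (d : Fin n → ℝ) (P : Matrix (Fin n) (Fin n) ℝ) :
    Matrix (Fin n) (lev d P) ℝ :=
  Matrix.of fun i t => if d i = t then rowSum P i else 0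

/-- The matrix with the parameters `d`, `P`, `β`:
`D P D + E (β - diag (t ^ 2 / wt t)) Eᵀ` with `D = diag d` and `E = lvec d P`. -/
noncomputable def mat (d : Fin n → ℝ) (P : Matrix (Fin n) (Fin n) ℝ)
    (β : Matrix (lev d P) (lev d P) ℝ) : Matrix (Fin n) (Fin n) ℝ :=
  diagonal d * P * diagonal d
    + lvec d P * (β - diagonal fun t : lev d P => (t : ℝ) ^ 2 / wt d P t) * (lvec d P)ᵀ

end Pool.Agent.MPf2d8fc
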