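import Mathlib
import Pool.Agent.Lib.MP_f2d8fc_an.Defs
import Pool.Agent.Lib.MP_f2d8fc_an.Core

/-!
# The structure of the parameters
-/

open Matrix

namespace Pool.Agent.MPf2d8fc

variable {n : ℕ} {d : Fin n → ℝ} {P : Matrix (Fin n) (Fin n) ℝ}

theorem Param.comm (h : Param d P) : diagonal d * P = P * diagonal d := by
  ext i j
  rw [diagonal_mul, mul_diagonal]
  by_cases hij : d i = d j
  · rw [hij, mul_comm]
  · rw [h.blk i j hij]; simp

/-- Row sums as a matrix-vector product. -/
theorem mulVec_one_eq (P : Matrix (Fin n) (Fin n) ℝ) : P *ᵥ (fun _ => 1) = rowSum P := by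
  funext i
  simp [mulVec, dotProduct, rowSum]

/-- `P` applied to the indicator of the level `t`. -/
theorem Param.mulVec_ind (h : Param d P) (t : ℝ) :
    P *ᵥ (fun i => if d i = t then (1 : ℝ) else 0) = fun i => if d i = t then rowSum P i else 0 := by
  funext i
  simp only [mulVec, dotProduct, mul_ite, mul_one, mul_zero]
  by_cases hi : d i = t
  · rw [if_pos hi, rowSum]
    refine Finset.sum_congr rfl fun j _ => ?_
    by_cases hj : d j = t
    · rw [if_pos hj]
    · rw [if_neg hj, h.blk i j (by rw [hi]; exact fun e => hj e.symm)]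
  · rw [if_neg hi]
    refine Finset.sum_eq_zero fun j _ => ?_
    by_cases hj : d j = t
    · rw [if_pos hj, h.blk i j (by rw [hj]; exact hi)]
    · rw [if_neg hj]

theorem Param.wt_eq (h : Param d P) (t : ℝ) :
    ∑ i, (if d i = t then rowSum P i else 0) * (if d i = t then rowSum P i else 0) = wt d P t := by
  have h1 := h.mulVec_ind t
  have h2 : (P *ᵥ (fun i => if d i = t then (1 : ℝ) else 0)) ⬝ᵥ
      (P *ᵥ (fun i => if d i = t then (1 : ℝ) else 0))
      = (fun i => if d i = t then (1 : ℝ) else 0) ⬝ᵥ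
        (P *ᵥ (fun i => if d i = t then (1 : ℝ) else 0)) := by
    conv_rhs => rw [← h.idem, dot_mul, h.symm]
  rw [h1] at h2
  simp only [dotProduct] at h2
  rw [h2, wt]
  refine Finset.sum_congr rfl fun i _ => ?_
  by_cases hi : d i = t <;> simp [hi]

theorem Param.wt_nonneg (h : Param d P) (t : ℝ) : 0 ≤ wt d P t := by
  rw [← h.wt_eq t]
  exact Finset.sum_nonneg fun i _ => mul_self_nonneg _

theorem Param.rowSum_eq_zero (h : Param d P) {i : Fin n} (hi : wt d P (d i) = 0) :
    rowSum P i = 0 := by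
  rw [← h.wt_eq (d i)] at hi
  have h1 := (Finset.sum_eq_zero_iff_of_nonneg (fun j _ => mul_self_nonneg _)).1 hi i
    (Finset.mem_univ i)
  simpa using h1

theorem mem_lev {t : ℝ} : t ∈ lev d P ↔ (∃ i, d i = t) ∧ wt d P t ≠ 0 := by
  simp [lev]

theorem Param.wt_pos (h : Param d P) (t : lev d P) : 0 < wt d P t :=
  lt_of_le_of_ne (h.wt_nonneg t) (Ne.symm (mem_lev.1 t.2).2)

theorem Param.lev_pos (h : Param d P) (t : lev d P) : (0 : ℝ) < t := by
  obtain ⟨⟨i, hi⟩, _⟩ := mem_lev.1 t.2
  rw [← hi]; exact h.pos i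

/-- `Eᵀ E = S`. -/
theorem Param.EtE (h : Param d P) :
    (lvec d P)ᵀ * lvec d P = diagonal fun t : lev d P => wt d P t := by
  ext t u
  rw [mul_apply, diagonal_apply]
  by_cases htu : t = u
  · subst htu
    rw [if_pos rfl, ← h.wt_eq t]
    rfl
  · rw [if_neg htu]
    refine Finset.sum_eq_zero fun i _ => ?_
    simp only [transpose_apply, lvec, of_apply]
    by_cases hi : d i = t
    · have : d i ≠ u := by rw [hi]; exact fun e => htu (Subtype.ext e)
      rw [if_neg this, mul_zero]
    · rw [if_neg hi, zero_mul]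

/-- `P E = E`. -/
theorem Param.PE (h : Param d P) : P * lvec d P = lvec d P := by
  ext i t
  have h1 := h.mulVec_ind (t : ℝ)
  have h2 : (P * lvec d P) i t = (P *ᵥ (P *ᵥ (fun i => if d i = t then (1 : ℝ) else 0))) i := by
    rw [h1]; rfl
  rw [h2, mulVec_mulVec, h.idem, h1]
  rfl

/-- `D E = E Λ`. -/
theorem DE : diagonal d * lvec d P = lvec d P * diagonal fun t : lev d P => (t : ℝ) := by
  ext i t
  rw [diagonal_mul, mul_diagonal]
  simp only [lvec, of_apply]
  by_cases hi : d i = t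
  · rw [if_pos hi, hi, mul_comm]
  · rw [if_neg hi]; simp

/-- `E 1 = q`. -/
theorem Param.E_one (h : Param d P) : lvec d P *ᵥ (fun _ => 1) = rowSum P := by
  funext i
  simp only [mulVec, dotProduct, mul_one, lvec, of_apply]
  by_cases hi : d i ∈ lev d P
  · rw [Finset.sum_eq_single (⟨d i, hi⟩ : lev d P)]
    · simp
    · intro t _ ht
      rw [if_neg]
      intro e
      exact ht (Subtype.ext e.symm)
    · intro h1; exact absurd (Finset.mem_univ _) h1
  · have h1 : wt d P (d i) = 0 := by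
      by_contra h2
      exact hi (mem_lev.2 ⟨⟨i, rfl⟩, h2⟩)
    rw [h.rowSum_eq_zero h1]
    refine Finset.sum_eq_zero fun t _ => ?_
    simp

/-- `Eᵀ 1 = s`. -/
theorem Et_one : (lvec d P)ᵀ *ᵥ (fun _ => 1) = fun t : lev d P => wt d P t := by
  funext t
  simp [mulVec, dotProduct, lvec, wt]

/-- The sum of all weights is less than `n`. -/
theorem Param.sum_wt_lt (h : Param d P) : ∑ t : lev d P, wt d P t < n := by
  have h1 : ∑ t : lev d P, wt d P t = ∑ i, rowSum P i := by
    have e1 : ∑ t : lev d P, wt d P t = (fun _ => (1 : ℝ)) ⬝ᵥ ((lvec d P)ᵀ *ᵥ (fun _ => 1)) := by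
      rw [Et_one]; simp [dotProduct]
    have e2 : (fun _ => (1 : ℝ)) ⬝ᵥ ((lvec d P)ᵀ *ᵥ (fun _ : Fin n => (1 : ℝ)))
        = (lvec d P *ᵥ (fun _ => 1)) ⬝ᵥ (fun _ : Fin n => (1 : ℝ)) := by
      rw [dotProduct_mulVec, vecMul_transpose]
    rw [e1, e2, h.E_one]; simp [dotProduct]
  have h2 : ∑ i, rowSum P i * rowSum P i = ∑ i, rowSum P i := by
    have e1 : (P *ᵥ (fun _ => (1 : ℝ))) ⬝ᵥ (P *ᵥ (fun _ => 1))
        = (fun _ => (1 : ℝ)) ⬝ᵥ (P *ᵥ (fun _ => 1)) := by
      conv_rhs => rw [← h.idem, dot_mul, h.symm]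
    rw [mulVec_one_eq] at e1
    simpa [dotProduct] using e1
  have h3 : ∑ i, (1 - rowSum P i) ^ 2 = n - ∑ i, rowSum P i := by
    have : ∀ i, (1 - rowSum P i) ^ 2 = 1 - 2 * rowSum P i + rowSum P i * rowSum P i := fun i => by ring
    simp only [this, Finset.sum_add_distrib, Finset.sum_sub_distrib, h2, ← Finset.mul_sum]
    simp
    ring
  have h4 : 0 < ∑ i, (1 - rowSum P i) ^ 2 := by
    obtain ⟨i, hi⟩ := not_forall.1 h.ne
    refine Finset.sum_pos' (fun j _ => sq_nonneg _) ⟨i, Finset.mem_univ i, ?_⟩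
    have : 1 - rowSum P i ≠ 0 := fun e => hi (by linarith)
    positivity
  rw [h1]; linarith

/-- The matrix `h' = S - s sᵀ / n`. -/
noncomputable def hcore (d : Fin n → ℝ) (P : Matrix (Fin n) (Fin n) ℝ) :
    Matrix (lev d P) (lev d P) ℝ :=
  (diagonal fun t : lev d P => wt d P t)
    - (n : ℝ)⁻¹ • vecMulVec (fun t : lev d P => wt d P t) (fun t : lev d P => wt d P t)

theorem Param.hcore_pd (h : Param d P) : (hcore d P).PosDef := by
  have hn : (0 : ℝ) < n := by
    have := h.sum_wt_lt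
    have h2 : 0 ≤ ∑ t : lev d P, wt d P t := Finset.sum_nonneg fun t _ => (h.wt_pos t).le
    linarith
  rw [pd_iff]
  constructor
  · ext t u
    simp only [hcore, Matrix.transpose_apply, Matrix.sub_apply, Matrix.smul_apply,
      vecMulVec_apply, diagonal_apply, smul_eq_mul]
    by_cases htu : t = u
    · subst htu; rfl
    · rw [if_neg htu, if_neg (Ne.symm htu)]; ring
  · intro x hx
    have e1 : x ⬝ᵥ (hcore d P *ᵥ x)
        = ∑ t : lev d P, wt d P t * x t ^ 2 - (n : ℝ)⁻¹ * (∑ t : lev d P, wt d P t * x t) ^ 2 := by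
      have e2 : hcore d P *ᵥ x = fun t : lev d P =>
          wt d P t * x t - (n : ℝ)⁻¹ * (wt d P t * ∑ u : lev d P, wt d P u * x u) := by
        funext t
        simp only [hcore, sub_mulVec, smul_mulVec, Pi.sub_apply, Pi.smul_apply, mulVec_diagonal,
          vecMulVec_mulVec, smul_eq_mul, dotProduct]
        simp [mul_comm]
      rw [e2]
      simp only [dotProduct, mul_sub, Finset.sum_sub_distrib]
      congr 1
      · refine Finset.sum_congr rfl fun t _ => by ring
      · rw [pow_two, Finset.sum_mul, Finset.mul_sum]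
        refine Finset.sum_congr rfl fun t _ => by ring
    rw [e1]
    have cs : (∑ t : lev d P, wt d P t * x t) ^ 2
        ≤ (∑ t : lev d P, wt d P t) * ∑ t : lev d P, wt d P t * x t ^ 2 := by
      have := Finset.sum_sq_le_sum_mul_sum_of_sq_le_mul (Finset.univ : Finset (lev d P))
        (r := fun t => wt d P t * x t) (f := fun t => wt d P t) (g := fun t => wt d P t * x t ^ 2)
        (fun t _ => (h.wt_pos t).le) (fun t _ => mul_nonneg (h.wt_pos t).le (sq_nonneg _))
        (fun t _ => le_of_eq (by ring))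
      exact this
    have hp : 0 < ∑ t : lev d P, wt d P t * x t ^ 2 := by
      obtain ⟨t, ht⟩ : ∃ t, x t ≠ 0 := by
        by_contra hc
        apply hx
        funext t
        by_contra h3
        exact hc ⟨t, h3⟩
      refine Finset.sum_pos' (fun u _ => mul_nonneg (h.wt_pos u).le (sq_nonneg _))
        ⟨t, Finset.mem_univ t, ?_⟩
      have := h.wt_pos t
      positivity
    have hlt := h.sum_wt_lt
    have h5 : (n : ℝ)⁻¹ * (∑ t : lev d P, wt d P t * x t) ^ 2
        ≤ (n : ℝ)⁻¹ * ((∑ t : lev d P, wt d P t) * ∑ t : lev d P, wt d P t * x t ^ 2) :=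
      mul_le_mul_of_nonneg_left cs (inv_nonneg.2 hn.le)
    have h6 : (n : ℝ)⁻¹ * ((∑ t : lev d P, wt d P t) * ∑ t : lev d P, wt d P t * x t ^ 2)
        < (n : ℝ)⁻¹ * (n * ∑ t : lev d P, wt d P t * x t ^ 2) :=
      mul_lt_mul_of_pos_left (mul_lt_mul_of_pos_right hlt hp) (inv_pos.2 hn)
    rw [inv_mul_cancel_left₀ hn.ne'] at h6
    linarith

/-- The core equation in matrix form. -/
theorem core_iff {β : Matrix (lev d P) (lev d P) ℝ} :
    Core d P β ↔ β.PosDef ∧ β * hcore d P * β
      = (diagonal fun t : lev d P => (t : ℝ)) * β * (diagonal fun t : lev d P => (t : ℝ)) := by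
  rw [Core]
  refine and_congr_right fun _ => ?_
  rw [← Matrix.ext_iff]
  refine forall₂_congr fun t u => ?_
  have e1 : (β * hcore d P * β) t u = ∑ r : lev d P, wt d P r * β t r * β r u
      - (∑ r : lev d P, wt d P r * β t r) * (∑ r : lev d P, wt d P r * β r u) / n := by
    rw [hcore, Matrix.mul_sub, Matrix.sub_mul, Matrix.sub_apply]
    congr 1
    · rw [mul_apply]
      refine Finset.sum_congr rfl fun r _ => ?_
      rw [mul_diagonal]; ring
    · rw [Matrix.mul_smul, Matrix.smul_mul, Matrix.smul_apply, mul_vecMulVec, vecMulVec_mul,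
        vecMulVec_apply, smul_eq_mul, div_eq_inv_mul]
      congr 2
      · simp only [mulVec, dotProduct]
        exact Finset.sum_congr rfl fun r _ => mul_comm _ _
  rw [e1, mul_diagonal, diagonal_mul]
  constructor
  · intro h; rw [h]; ring
  · intro h; rw [h]; ring

theorem Param.core_existsUnique (h : Param d P) : ∃! β, Core d P β := by
  have hT : (diagonal fun t : lev d P => (t : ℝ))ᵀ = diagonal fun t : lev d P => (t : ℝ) :=
    diagonal_transpose _
  have hu : IsUnit (diagonal fun t : lev d P => (t : ℝ)) := by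
    rw [isUnit_iff_isUnit_det, det_diagonal]
    exact (Finset.prod_pos fun t _ => h.lev_pos t).ne'.isUnit
  obtain ⟨β, hβ, hun⟩ := sol_existsUnique h.hcore_pd hT hu
  exact ⟨β, core_iff.2 hβ, fun γ hγ => hun γ (core_iff.1 hγ)⟩

end Pool.Agent.MPf2d8fc
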