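import Mathlib
import Pool.Agent.Lib.MP_f2d8fc_an.Struct

/-!
# The matrix `mat d P β` solves `A H A = D A D`
-/

open Matrix

namespace Pool.Agent.MPf2d8fc

variable {n : ℕ} {d : Fin n → ℝ} {P : Matrix (Fin n) (Fin n) ℝ}

/-- The centring matrix. -/
noncomputable def Hc (n : ℕ) : Matrix (Fin n) (Fin n) ℝ :=
  1 - (n : ℝ)⁻¹ • vecMulVec (fun _ => 1) (fun _ => 1)

/-- `S⁻¹`. -/
noncomputable def Sinv (d : Fin n → ℝ) (P : Matrix (Fin n) (Fin n) ℝ) :
    Matrix (lev d P) (lev d P) ℝ := diagonal fun t : lev d P => (wt d P t)⁻¹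

/-- `Λ`. -/
noncomputable def Lam (d : Fin n → ℝ) (P : Matrix (Fin n) (Fin n) ℝ) :
    Matrix (lev d P) (lev d P) ℝ := diagonal fun t : lev d P => (t : ℝ)

/-- `W = P - E S⁻¹ Eᵀ`. -/
noncomputable def W (d : Fin n → ℝ) (P : Matrix (Fin n) (Fin n) ℝ) : Matrix (Fin n) (Fin n) ℝ :=
  P - lvec d P * Sinv d P * (lvec d P)ᵀ

theorem Param.Sinv_EtE (h : Param d P) : Sinv d P * ((lvec d P)ᵀ * lvec d P) = 1 := by
  rw [h.EtE, Sinv, diagonal_mul_diagonal, ← diagonal_one]
  congr 1
  funext t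
  exact inv_mul_cancel₀ (h.wt_pos t).ne'

theorem Param.EtE_Sinv (h : Param d P) : ((lvec d P)ᵀ * lvec d P) * Sinv d P = 1 := by
  rw [h.EtE, Sinv, diagonal_mul_diagonal, ← diagonal_one]
  congr 1
  funext t
  exact mul_inv_cancel₀ (h.wt_pos t).ne'

theorem Param.EtP (h : Param d P) : (lvec d P)ᵀ * P = (lvec d P)ᵀ := by
  have := congrArg transpose h.PE
  rwa [transpose_mul, h.symm] at this

theorem Param.WE (h : Param d P) : W d P * lvec d P = 0 := by
  rw [W, Matrix.sub_mul, h.PE, Matrix.mul_assoc, Matrix.mul_assoc, h.Sinv_EtE, Matrix.mul_one,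
    sub_self]

theorem Sinv_T : (Sinv d P)ᵀ = Sinv d P := diagonal_transpose _

theorem Param.W_T (h : Param d P) : (W d P)ᵀ = W d P := by
  rw [W, transpose_sub, h.symm, transpose_mul, transpose_mul, transpose_transpose, Sinv_T,
    Matrix.mul_assoc]

theorem Param.EtW (h : Param d P) : (lvec d P)ᵀ * W d P = 0 := by
  have := congrArg transpose h.WE
  rwa [transpose_mul, h.W_T, transpose_zero] at this

theorem Param.PW (h : Param d P) : P * W d P = W d P := by
  rw [W, Matrix.mul_sub, h.idem, ← Matrix.mul_assoc, ← Matrix.mul_assoc, h.PE]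

theorem Param.WP (h : Param d P) : W d P * P = W d P := by
  have := congrArg transpose h.PW
  rwa [transpose_mul, h.W_T, h.symm] at this

theorem Param.WW (h : Param d P) : W d P * W d P = W d P := by
  nth_rewrite 1 [W]
  rw [Matrix.sub_mul, h.PW, Matrix.mul_assoc, h.EtW, Matrix.mul_zero, sub_zero]

theorem Param.DW (h : Param d P) : diagonal d * W d P = W d P * diagonal d := by
  have e1 : (lvec d P)ᵀ * diagonal d = Lam d P * (lvec d P)ᵀ := by
    have := congrArg transpose (DE (d := d) (P := P))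
    rwa [transpose_mul, transpose_mul, diagonal_transpose, diagonal_transpose] at this
  have e2 : Lam d P * Sinv d P = Sinv d P * Lam d P := by
    rw [Lam, Sinv, diagonal_mul_diagonal, diagonal_mul_diagonal]
    congr 1; funext t; exact mul_comm _ _
  rw [W, Matrix.mul_sub, Matrix.sub_mul, h.comm]
  congr 1
  calc diagonal d * (lvec d P * Sinv d P * (lvec d P)ᵀ)
      = (diagonal d * lvec d P) * Sinv d P * (lvec d P)ᵀ := by simp only [Matrix.mul_assoc]
    _ = lvec d P * (Lam d P * Sinv d P) * (lvec d P)ᵀ := by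
        rw [DE]; simp only [Matrix.mul_assoc]; rfl
    _ = lvec d P * Sinv d P * (Lam d P * (lvec d P)ᵀ) := by
        rw [e2]; simp only [Matrix.mul_assoc]
    _ = lvec d P * Sinv d P * (lvec d P)ᵀ * diagonal d := by
        rw [← e1]; simp only [Matrix.mul_assoc]

theorem Param.W_one (h : Param d P) : W d P *ᵥ (fun _ => 1) = 0 := by
  rw [W, sub_mulVec, mulVec_one_eq, ← mulVec_mulVec, Et_one, ← mulVec_mulVec]
  have e : Sinv d P *ᵥ (fun t : lev d P => wt d P t) = fun _ => 1 := by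
    funext t
    rw [Sinv, mulVec_diagonal]
    exact inv_mul_cancel₀ (h.wt_pos t).ne'
  rw [e, h.E_one, sub_self]

theorem EtD : (lvec d P)ᵀ * diagonal d = Lam d P * (lvec d P)ᵀ := by
  have := congrArg transpose (DE (d := d) (P := P))
  rwa [transpose_mul, transpose_mul, diagonal_transpose, diagonal_transpose] at this

/-- The second form of `mat`. -/
theorem Param.mat_eq (_h : Param d P) (β : Matrix (lev d P) (lev d P) ℝ) :
    mat d P β = diagonal d * W d P * diagonal d + lvec d P * β * (lvec d P)ᵀ := by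
  have e1 : diagonal d * (lvec d P * Sinv d P * (lvec d P)ᵀ) * diagonal d
      = lvec d P * (diagonal fun t : lev d P => (t : ℝ) ^ 2 / wt d P t) * (lvec d P)ᵀ := by
    calc diagonal d * (lvec d P * Sinv d P * (lvec d P)ᵀ) * diagonal d
        = (diagonal d * lvec d P) * Sinv d P * ((lvec d P)ᵀ * diagonal d) := by
          simp only [Matrix.mul_assoc]
      _ = lvec d P * (Lam d P * Sinv d P * Lam d P) * (lvec d P)ᵀ := by
          rw [DE, EtD]; simp only [Matrix.mul_assoc]; rfl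
      _ = _ := by
          congr 2
          rw [Lam, Sinv, diagonal_mul_diagonal, diagonal_mul_diagonal]
          congr 1; funext t; ring
  have e2 : diagonal d * (P - lvec d P * Sinv d P * (lvec d P)ᵀ) * diagonal d
      = diagonal d * P * diagonal d
        - diagonal d * (lvec d P * Sinv d P * (lvec d P)ᵀ) * diagonal d := by
    rw [Matrix.mul_sub, Matrix.sub_mul]
  rw [mat, W, e2, e1, Matrix.mul_sub, Matrix.sub_mul]
  abel

theorem Hc_T : (Hc n)ᵀ = Hc n := by
  rw [Hc, transpose_sub, transpose_one, transpose_smul, transpose_vecMulVec]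

/-- `M 1 = 0` implies `M H = M`. -/
theorem mul_Hc {M : Matrix (Fin n) (Fin n) ℝ} (h : M *ᵥ (fun _ => 1) = 0) : M * Hc n = M := by
  rw [Hc, Matrix.mul_sub, Matrix.mul_one, Matrix.mul_smul, mul_vecMulVec, h]
  ext i j
  simp

theorem Et_Hc_E (h : Param d P) : (lvec d P)ᵀ * Hc n * lvec d P = hcore d P := by
  rw [Hc, Matrix.mul_sub, Matrix.sub_mul, Matrix.mul_one, h.EtE, hcore, Matrix.mul_smul,
    Matrix.smul_mul, mul_vecMulVec, vecMulVec_mul, Et_one]
  congr 3
  have := Et_one (d := d) (P := P)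
  rwa [← vecMul_transpose, transpose_transpose] at this

/-- **The equation**: `A H A = D A D` for `A = mat d P β`. -/
theorem Param.mat_eqn (h : Param d P) {β : Matrix (lev d P) (lev d P) ℝ} (hβ : Core d P β) :
    mat d P β * Hc n * mat d P β = diagonal d * mat d P β * diagonal d := by
  obtain ⟨-, hc⟩ := core_iff.1 hβ
  set D : Matrix (Fin n) (Fin n) ℝ := diagonal d with hD
  set E := lvec d P with hE
  set w := W d P with hw
  have hDW : D * w = w * D := h.DW
  have hWW : w * w = w := h.WW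
  have hWE : w * E = 0 := h.WE
  have hEW : Eᵀ * w = 0 := h.EtW
  have hDE : D * E = E * Lam d P := DE
  have hED : Eᵀ * D = Lam d P * Eᵀ := EtD
  have h1 : (D * w * D) * Hc n = D * w * D := by
    apply mul_Hc
    rw [Matrix.mul_assoc, ← hDW, ← Matrix.mul_assoc, ← mulVec_mulVec, h.W_one, mulVec_zero]
  have hT : (D * w * D)ᵀ = D * w * D := by
    rw [transpose_mul, transpose_mul, hD, diagonal_transpose, hw, h.W_T, ← Matrix.mul_assoc]
  have h2 : Hc n * (D * w * D) = D * w * D := by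
    have := congrArg transpose h1
    rwa [transpose_mul, hT, Hc_T] at this
  have e1 : (D * w * D) * (D * w * D) = D * (D * w * D) * D := by
    calc (D * w * D) * (D * w * D) = D * (w * D) * (D * w) * D := by simp only [Matrix.mul_assoc]
      _ = D * (D * w) * (w * D) * D := by rw [hDW]
      _ = D * D * (w * w) * D * D := by simp only [Matrix.mul_assoc]
      _ = D * (D * w * D) * D := by rw [hWW]; simp only [Matrix.mul_assoc]
  have e2 : (D * w * D) * (E * β * Eᵀ) = 0 := by
    calc (D * w * D) * (E * β * Eᵀ) = D * w * (D * E) * β * Eᵀ := by simp only [Matrix.mul_assoc]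
      _ = D * (w * E) * Lam d P * β * Eᵀ := by rw [hDE]; simp only [Matrix.mul_assoc]
      _ = 0 := by rw [hWE]; simp
  have e3 : (E * β * Eᵀ) * (D * w * D) = 0 := by
    calc (E * β * Eᵀ) * (D * w * D) = E * β * (Eᵀ * D) * w * D := by simp only [Matrix.mul_assoc]
      _ = E * β * Lam d P * (Eᵀ * w) * D := by rw [hED]; simp only [Matrix.mul_assoc]
      _ = 0 := by rw [hEW]; simp
  have e4 : (E * β * Eᵀ) * Hc n * (E * β * Eᵀ) = D * (E * β * Eᵀ) * D := by
    calc (E * β * Eᵀ) * Hc n * (E * β * Eᵀ) = E * (β * (Eᵀ * Hc n * E) * β) * Eᵀ := by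
          simp only [Matrix.mul_assoc]
      _ = E * (Lam d P * β * Lam d P) * Eᵀ := by rw [Et_Hc_E h, hc]; rfl
      _ = (E * Lam d P) * β * (Lam d P * Eᵀ) := by simp only [Matrix.mul_assoc]
      _ = D * (E * β * Eᵀ) * D := by rw [← hDE, ← hED]; simp only [Matrix.mul_assoc]
  rw [h.mat_eq β]
  calc (D * w * D + E * β * Eᵀ) * Hc n * (D * w * D + E * β * Eᵀ)
      = (D * w * D * Hc n) * (D * w * D) + (D * w * D * Hc n) * (E * β * Eᵀ)
        + (E * β * Eᵀ) * (Hc n * (D * w * D)) + (E * β * Eᵀ) * Hc n * (E * β * Eᵀ) := by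
        simp only [Matrix.add_mul, Matrix.mul_add, Matrix.mul_assoc]
        abel
    _ = D * (D * w * D) * D + D * (E * β * Eᵀ) * D := by
        rw [h1, h2, e1, e2, e3, e4, add_zero, add_zero]
    _ = D * (D * w * D + E * β * Eᵀ) * D := by rw [Matrix.mul_add, Matrix.add_mul]

theorem dot_mul' {m k : Type*} [Fintype m] [Fintype k] (E : Matrix m k ℝ) (x : m → ℝ) (y : k → ℝ) :
    x ⬝ᵥ (E *ᵥ y) = (Eᵀ *ᵥ x) ⬝ᵥ y := by
  rw [dotProduct_mulVec, ← mulVec_transpose]

/-- The quadratic form of `mat`. -/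
theorem Param.mat_quad (h : Param d P) (β : Matrix (lev d P) (lev d P) ℝ) (x : Fin n → ℝ) :
    x ⬝ᵥ (mat d P β *ᵥ x) = (W d P *ᵥ (diagonal d *ᵥ x)) ⬝ᵥ (W d P *ᵥ (diagonal d *ᵥ x))
      + ((lvec d P)ᵀ *ᵥ x) ⬝ᵥ (β *ᵥ ((lvec d P)ᵀ *ᵥ x)) := by
  rw [h.mat_eq β, add_mulVec, dotProduct_add]
  congr 1
  · have e : diagonal d * W d P * diagonal d = (diagonal d * W d P) * (W d P * diagonal d) := by
      conv_lhs => rw [← h.WW]
      simp only [Matrix.mul_assoc]
    rw [e, dot_mul, transpose_mul, h.W_T, diagonal_transpose, mulVec_mulVec]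
  · rw [Matrix.mul_assoc, ← mulVec_mulVec, dot_mul', ← mulVec_mulVec]

theorem Param.mat_T (h : Param d P) {β : Matrix (lev d P) (lev d P) ℝ} (hβ : βᵀ = β) :
    (mat d P β)ᵀ = mat d P β := by
  rw [h.mat_eq β, transpose_add, transpose_mul, transpose_mul, transpose_mul, transpose_mul,
    diagonal_transpose, h.W_T, transpose_transpose, hβ, ← Matrix.mul_assoc, ← Matrix.mul_assoc]

theorem Param.mat_psd (h : Param d P) {β : Matrix (lev d P) (lev d P) ℝ} (hβ : β.PosDef) :
    (mat d P β).PosSemidef := by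
  rw [psd_iff]
  refine ⟨h.mat_T (isSymm_of_herm hβ.isHermitian), fun x => ?_⟩
  rw [h.mat_quad β x]
  exact add_nonneg (dot_self_nonneg _) ((psd_iff.1 hβ.posSemidef).2 _)

theorem Param.P_mat (h : Param d P) (β : Matrix (lev d P) (lev d P) ℝ) :
    P * mat d P β = mat d P β := by
  rw [h.mat_eq β, Matrix.mul_add]
  congr 1
  · calc P * (diagonal d * W d P * diagonal d) = (P * diagonal d) * W d P * diagonal d := by
          simp only [Matrix.mul_assoc]
      _ = diagonal d * (P * W d P) * diagonal d := by rw [← h.comm]; simp only [Matrix.mul_assoc]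
      _ = _ := by rw [h.PW]
  · rw [← Matrix.mul_assoc, ← Matrix.mul_assoc, h.PE]

theorem Param.mat_ker (h : Param d P) {β : Matrix (lev d P) (lev d P) ℝ} (hβ : β.PosDef)
    {x : Fin n → ℝ} (hx : x ⬝ᵥ (mat d P β *ᵥ x) = 0) : P *ᵥ x = 0 := by
  rw [h.mat_quad β x] at hx
  have h1 := dot_self_nonneg (W d P *ᵥ (diagonal d *ᵥ x))
  have h2 := (psd_iff.1 hβ.posSemidef).2 ((lvec d P)ᵀ *ᵥ x)
  have h3 : W d P *ᵥ (diagonal d *ᵥ x) = 0 := dot_self_eq_zero (by linarith)
  have h4 : (lvec d P)ᵀ *ᵥ x = 0 := by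
    by_contra hne
    have := (pd_iff.1 hβ).2 _ hne
    linarith
  have h5 : W d P *ᵥ x = 0 := by
    rw [mulVec_mulVec, ← h.DW, ← mulVec_mulVec] at h3
    funext i
    have h6 := congrFun h3 i
    rw [mulVec_diagonal] at h6
    simpa [(h.pos i).ne'] using h6
  have h7 : P = W d P + lvec d P * Sinv d P * (lvec d P)ᵀ := by rw [W]; abel
  rw [h7, add_mulVec, h5, ← mulVec_mulVec, h4, mulVec_zero, add_zero]

end Pool.Agent.MPf2d8fc
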