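import Mathlib
import Pool.Agent.Lib.MP_f2d8fc_an.Matr

/-!
# From the correlation map to the equation `A H A = D A D`
-/

open Matrix

namespace Pool.Agent.MPf2d8fc

variable {n : ℕ}

theorem mul_Hc_apply (A : Matrix (Fin n) (Fin n) ℝ) (i k : Fin n) :
    (A * Hc n) i k = A i k - mean (A i) := by
  rw [Hc, Matrix.mul_sub, Matrix.mul_one, Matrix.mul_smul, mul_vecMulVec, mulVec_one_eq,
    Matrix.sub_apply, Matrix.smul_apply, vecMulVec_apply, mean, rowSum, smul_eq_mul, div_eq_inv_mul,
    mul_one]

theorem sum_sub_mean (hn : 0 < n) (x : Fin n → ℝ) : ∑ k, (x k - mean x) = 0 := by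
  have hn' : (n : ℝ) ≠ 0 := by exact_mod_cast hn.ne'
  rw [Finset.sum_sub_distrib, Finset.sum_const, Finset.card_univ, Fintype.card_fin, nsmul_eq_mul,
    mean]
  field_simp
  ring

theorem gram_apply (hn : 0 < n) {A : Matrix (Fin n) (Fin n) ℝ} (hA : Aᵀ = A) (i j : Fin n) :
    (A * Hc n * A) i j = ∑ k, (A i k - mean (A i)) * (A j k - mean (A j)) := by
  have hs : ∀ k, A k j = A j k := fun k => by
    have := congrFun (congrFun hA j) k
    simpa using this
  rw [mul_apply]
  have h1 := sum_sub_mean hn (A i)
  have h2 : ∑ k, (A i k - mean (A i)) * (A j k - mean (A j))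
      = ∑ k, (A i k - mean (A i)) * A j k - (∑ k, (A i k - mean (A i))) * mean (A j) := by
    rw [Finset.sum_mul, ← Finset.sum_sub_distrib]
    exact Finset.sum_congr rfl fun k _ => by ring
  rw [h2, h1, zero_mul, sub_zero]
  exact Finset.sum_congr rfl fun k _ => by rw [mul_Hc_apply, hs k]

theorem corrMap_apply (hn : 0 < n) {A : Matrix (Fin n) (Fin n) ℝ} (hA : Aᵀ = A) (i j : Fin n) :
    corrMap A i j = (A * Hc n * A) i j /
      Real.sqrt ((A * Hc n * A) i i * (A * Hc n * A) j j) := by
  rw [gram_apply hn hA, gram_apply hn hA, gram_apply hn hA]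
  simp only [corrMap, of_apply, corr, pow_two]

/-- `A` is a fixed point iff it is positive semidefinite with unit diagonal and
`A H A = D A D` for some positive diagonal matrix `D`. -/
theorem mem_FixC_iff (hn : 0 < n) (A : Matrix (Fin n) (Fin n) ℝ) :
    A ∈ FixC n ↔ A.PosSemidef ∧ (∀ i, A i i = 1) ∧
      ∃ d : Fin n → ℝ, (∀ i, 0 < d i) ∧ A * Hc n * A = diagonal d * A * diagonal d := by
  constructor
  · rintro ⟨h1, h2, h3, h4⟩
    have hT := isSymm_of_herm h1.isHermitian
    have hpos : ∀ i, 0 < (A * Hc n * A) i i := by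
      intro i
      rw [gram_apply hn hT]
      obtain ⟨k, hk⟩ : ∃ k, A i k ≠ mean (A i) := by
        by_contra hc
        exact h3 i ⟨mean (A i), fun j => by
          by_contra h5
          exact hc ⟨j, h5⟩⟩
      refine Finset.sum_pos' (fun l _ => mul_self_nonneg _) ⟨k, Finset.mem_univ k, ?_⟩
      exact mul_self_pos.2 (sub_ne_zero.2 hk)
    refine ⟨h1, h2, fun i => Real.sqrt ((A * Hc n * A) i i), fun i => Real.sqrt_pos.2 (hpos i), ?_⟩
    ext i j
    have h5 := congrFun (congrFun h4 i) j
    rw [corrMap_apply hn hT, Real.sqrt_mul (hpos i).le] at h5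
    have h6 := Real.sqrt_pos.2 (hpos i)
    have h7 := Real.sqrt_pos.2 (hpos j)
    rw [mul_diagonal, diagonal_mul, ← h5]
    field_simp
  · rintro ⟨h1, h2, d, hd, he⟩
    have hT := isSymm_of_herm h1.isHermitian
    have hG : ∀ i j, (A * Hc n * A) i j = d i * A i j * d j := by
      intro i j
      rw [he, mul_diagonal, diagonal_mul]
    refine ⟨h1, h2, ?_, ?_⟩
    · rintro i ⟨c, hc⟩
      have h3 := hG i i
      rw [gram_apply hn hT, h2 i] at h3
      have hm : mean (A i) = c := by
        have hn' : (n : ℝ) ≠ 0 := by exact_mod_cast hn.ne'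
        rw [mean, Finset.sum_congr rfl fun j _ => hc j, Finset.sum_const, Finset.card_univ,
          Fintype.card_fin, nsmul_eq_mul]
        field_simp
      have h4 : ∑ k, (A i k - mean (A i)) * (A i k - mean (A i)) = 0 :=
        Finset.sum_eq_zero fun k _ => by rw [hm, hc k]; ring
      rw [h4] at h3
      have := hd i
      have h5 : 0 < d i * 1 * d i := by positivity
      linarith
    · ext i j
      rw [corrMap_apply hn hT, hG, hG, hG, h2 i, h2 j]
      have hi := hd i
      have hj := hd j
      have e : d i * 1 * d i * (d j * 1 * d j) = (d i * d j) ^ 2 := by ring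
      rw [e, Real.sqrt_sq (by positivity)]
      field_simp

/-- Projection onto the column space and pseudo-inverse of a symmetric matrix. -/
theorem exists_pinv {A : Matrix (Fin n) (Fin n) ℝ} (hA : Aᵀ = A) :
    ∃ P X : Matrix (Fin n) (Fin n) ℝ, Pᵀ = P ∧ P * P = P ∧ P * A = A ∧ A * P = A ∧
      X * A = P ∧ A * X = P := by
  have hH : A.IsHermitian := herm_of_isSymm hA
  set U : Matrix (Fin n) (Fin n) ℝ := (hH.eigenvectorUnitary : Matrix (Fin n) (Fin n) ℝ) with hU
  set e : Fin n → ℝ := hH.eigenvalues with he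
  have hUU : star U * U = 1 := Unitary.coe_star_mul_self hH.eigenvectorUnitary
  have hAe : A = U * diagonal e * star U := by
    have := hH.spectral_theorem
    rw [Unitary.conjStarAlgAut_apply] at this
    simpa using this
  have hst : star U = Uᵀ := by
    rw [star_eq_conjTranspose, conjTranspose_eq_transpose_of_trivial]
  have key : ∀ f g : Fin n → ℝ, (U * diagonal f * star U) * (U * diagonal g * star U)
      = U * diagonal (fun i => f i * g i) * star U := by
    intro f g
    calc (U * diagonal f * star U) * (U * diagonal g * star U)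
        = U * diagonal f * (star U * U) * diagonal g * star U := by simp only [Matrix.mul_assoc]
      _ = U * (diagonal f * diagonal g) * star U := by
          rw [hUU, Matrix.mul_one]; simp only [Matrix.mul_assoc]
      _ = _ := by rw [diagonal_mul_diagonal]
  refine ⟨U * diagonal (fun i => if e i = 0 then 0 else 1) * star U,
    U * diagonal (fun i => (e i)⁻¹) * star U, ?_, ?_, ?_, ?_, ?_, ?_⟩
  · rw [hst, transpose_mul, transpose_mul, transpose_transpose, diagonal_transpose,
      Matrix.mul_assoc]
  · rw [key]; congr 3; funext i; by_cases h : e i = 0 <;> simp [h]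
  · conv_lhs => rw [hAe]
    conv_rhs => rw [hAe]
    rw [key]; congr 3; funext i; by_cases h : e i = 0 <;> simp [h]
  · conv_lhs => rw [hAe]
    conv_rhs => rw [hAe]
    rw [key]; congr 3; funext i; by_cases h : e i = 0 <;> simp [h]
  · conv_lhs => rw [hAe]
    rw [key]; congr 3; funext i; by_cases h : e i = 0 <;> simp [h]
  · conv_lhs => rw [hAe]
    rw [key]; congr 3; funext i; by_cases h : e i = 0 <;> simp [h]

end Pool.Agent.MPf2d8fc
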