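import Mathlib
import Pool.Agent.Lib.MP_f2d8fc_an.Bridge

/-!
# The classification
-/

open Matrix

namespace Pool.Agent.MPf2d8fc

variable {n : ℕ} {d : Fin n → ℝ} {P : Matrix (Fin n) (Fin n) ℝ}

/-- `ĥ = P H P + (1 - P)`. -/
noncomputable def hhat (P : Matrix (Fin n) (Fin n) ℝ) : Matrix (Fin n) (Fin n) ℝ :=
  P * Hc n * P + (1 - P)

theorem Hc_quad (hn : 0 < n) (x : Fin n → ℝ) :
    x ⬝ᵥ (Hc n *ᵥ x) = ∑ i, (x i - mean x) ^ 2 := by
  have e : Hc n *ᵥ x = fun i => x i - mean x := by
    funext i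
    simp only [Hc, sub_mulVec, one_mulVec, smul_mulVec, vecMulVec_mulVec, Pi.sub_apply,
      Pi.smul_apply, smul_eq_mul, mean, dotProduct]
    simp [div_eq_inv_mul]
  rw [e, dotProduct]
  have h1 := sum_sub_mean hn x
  have h2 : ∑ i, x i * (x i - mean x) = ∑ i, (x i - mean x) ^ 2 + mean x * ∑ i, (x i - mean x) := by
    rw [Finset.mul_sum, ← Finset.sum_add_distrib]
    exact Finset.sum_congr rfl fun i _ => by ring
  rw [h2, h1, mul_zero, add_zero]

theorem Param.npos (h : Param d P) : 0 < n := by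
  rcases Nat.eq_zero_or_pos n with h0 | h0
  · exfalso; subst h0; exact h.ne fun i => i.elim0
  · exact h0

theorem Param.Q_T (h : Param d P) : (1 - P)ᵀ = 1 - P := by
  rw [transpose_sub, transpose_one, h.symm]

theorem Param.QQ (h : Param d P) : (1 - P) * (1 - P) = 1 - P := by
  rw [Matrix.mul_sub, Matrix.mul_one, Matrix.sub_mul, Matrix.one_mul, h.idem, sub_self, sub_zero]

theorem Param.PQ (h : Param d P) : P * (1 - P) = 0 := by
  rw [Matrix.mul_sub, Matrix.mul_one, h.idem, sub_self]

theorem Param.QP (h : Param d P) : (1 - P) * P = 0 := by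
  rw [Matrix.sub_mul, Matrix.one_mul, h.idem, sub_self]

theorem Param.DQ (h : Param d P) : diagonal d * (1 - P) = (1 - P) * diagonal d := by
  rw [Matrix.mul_sub, Matrix.sub_mul, h.comm, Matrix.mul_one, Matrix.one_mul]

theorem Param.hhat_pd (h : Param d P) : (hhat P).PosDef := by
  rw [pd_iff]
  constructor
  · rw [hhat, transpose_add, transpose_mul, transpose_mul, h.symm, Hc_T, h.Q_T, Matrix.mul_assoc]
  · intro x hx
    have e1 : x ⬝ᵥ (hhat P *ᵥ x) = (P *ᵥ x) ⬝ᵥ (Hc n *ᵥ (P *ᵥ x))
        + ((1 - P) *ᵥ x) ⬝ᵥ ((1 - P) *ᵥ x) := by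
      rw [hhat, add_mulVec, dotProduct_add]
      congr 1
      · rw [Matrix.mul_assoc, dot_mul, h.symm, ← mulVec_mulVec]
      · conv_lhs => rw [← h.QQ]
        rw [dot_mul, h.Q_T]
    rw [e1, Hc_quad h.npos]
    have h1 : 0 ≤ ∑ i, ((P *ᵥ x) i - mean (P *ᵥ x)) ^ 2 := Finset.sum_nonneg fun i _ => sq_nonneg _
    have h2 := dot_self_nonneg ((1 - P) *ᵥ x)
    rcases (add_nonneg h1 h2).lt_or_eq with h3 | h3
    · exact h3
    · exfalso
      have h4 : ((1 - P) *ᵥ x) = 0 := dot_self_eq_zero (by linarith)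
      have h5 : ∑ i, ((P *ᵥ x) i - mean (P *ᵥ x)) ^ 2 = 0 := by linarith
      have h6 : ∀ i, (P *ᵥ x) i = mean (P *ᵥ x) := fun i => by
        have := (Finset.sum_eq_zero_iff_of_nonneg (fun j _ => sq_nonneg _)).1 h5 i
          (Finset.mem_univ i)
        have := pow_eq_zero_iff (two_ne_zero) |>.1 this
        linarith
      have h7 : x = P *ᵥ x := by
        rw [sub_mulVec, one_mulVec, sub_eq_zero] at h4
        exact h4
      set c := mean (P *ᵥ x) with hc
      have h8 : x = fun _ => c := by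
        rw [h7]; funext i; exact h6 i
      have h9 : c ≠ 0 := by
        intro h0
        apply hx
        rw [h8, h0]; rfl
      apply h.ne
      intro i
      have h10 := congrFun h7 i
      have h11 : (P *ᵥ x) i = c * rowSum P i := by
        rw [h8]
        simp only [mulVec, dotProduct, rowSum, Finset.mul_sum]
        exact Finset.sum_congr rfl fun j _ => mul_comm _ _
      rw [h11, h8] at h10
      have h12 : c * (rowSum P i - 1) = 0 := by simp only at h10; linarith
      rcases mul_eq_zero.1 h12 with h13 | h13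
      · exact absurd h13 h9
      · linarith

/-- Completion of a solution on the range of `P` to a positive definite solution. -/
theorem Param.completion (h : Param d P) {A : Matrix (Fin n) (Fin n) ℝ} (hA : A.PosSemidef)
    (hPA : P * A = A) (hker : ∀ x, x ⬝ᵥ (A *ᵥ x) = 0 → P *ᵥ x = 0)
    (he : A * Hc n * A = diagonal d * A * diagonal d) :
    (A + diagonal d * (1 - P) * diagonal d).PosDef ∧
      (A + diagonal d * (1 - P) * diagonal d) * hhat P * (A + diagonal d * (1 - P) * diagonal d)
        = diagonal d * (A + diagonal d * (1 - P) * diagonal d) * diagonal d := by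
  have hAT := isSymm_of_herm hA.isHermitian
  have hAP : A * P = A := by
    have := congrArg transpose hPA
    rwa [transpose_mul, hAT, h.symm] at this
  set D : Matrix (Fin n) (Fin n) ℝ := diagonal d with hD
  set Q : Matrix (Fin n) (Fin n) ℝ := 1 - P with hQ
  have hDT : Dᵀ = D := diagonal_transpose _
  have hQT : Qᵀ = Q := h.Q_T
  have hQQ : Q * Q = Q := h.QQ
  have hDQ : D * Q = Q * D := h.DQ
  have hAQ : A * Q = 0 := by rw [hQ, Matrix.mul_sub, Matrix.mul_one, hAP, sub_self]
  have hQA : Q * A = 0 := by rw [hQ, Matrix.sub_mul, Matrix.one_mul, hPA, sub_self]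
  have hPQ : P * Q = 0 := h.PQ
  have hQP : Q * P = 0 := h.QP
  constructor
  · rw [pd_iff]
    constructor
    · rw [transpose_add, hAT, transpose_mul, transpose_mul, hDT, hQT, ← Matrix.mul_assoc]
    · intro x hx
      have e1 : x ⬝ᵥ ((D * Q * D) *ᵥ x) = ((Q * D) *ᵥ x) ⬝ᵥ ((Q * D) *ᵥ x) := by
        have e : D * Q * D = (D * Q) * (Q * D) := by
          conv_lhs => rw [← hQQ]
          simp only [Matrix.mul_assoc]
        rw [e, dot_mul, transpose_mul, hDT, hQT]
      rw [add_mulVec, dotProduct_add, e1]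
      have h1 := (psd_iff.1 hA).2 x
      have h2 := dot_self_nonneg ((Q * D) *ᵥ x)
      rcases (add_nonneg h1 h2).lt_or_eq with h3 | h3
      · exact h3
      · exfalso
        have h4 := hker x (by linarith)
        have h5 : (Q * D) *ᵥ x = 0 := dot_self_eq_zero (by linarith)
        have h6 : Q *ᵥ x = 0 := by
          rw [← hDQ, ← mulVec_mulVec] at h5
          funext i
          have h6 := congrFun h5 i
          rw [hD, mulVec_diagonal] at h6
          simpa [(h.pos i).ne'] using h6
        apply hx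
        have h7 : x = P *ᵥ x + Q *ᵥ x := by rw [hQ, sub_mulVec, one_mulVec]; abel
        rw [h7, h4, h6, add_zero]
  · have e0 : D * Q * D = D * D * Q := by rw [Matrix.mul_assoc, ← hDQ, Matrix.mul_assoc]
    have e0' : D * Q * D = Q * (D * D) := by rw [hDQ, Matrix.mul_assoc]
    have e1 : (A + D * Q * D) * hhat P = A * Hc n * P + D * D * Q := by
      calc (A + D * Q * D) * hhat P
          = A * P * Hc n * P + A * Q + (D * Q * D) * P * Hc n * P + (D * Q * D) * Q := by
            rw [hhat]
            simp only [Matrix.add_mul, Matrix.mul_add, Matrix.mul_assoc]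
            abel
        _ = A * Hc n * P + D * D * Q := by
            have e2 : (D * Q * D) * P = 0 := by
              rw [e0, Matrix.mul_assoc, hQP, Matrix.mul_zero]
            have e3 : (D * Q * D) * Q = D * D * Q := by
              rw [e0, Matrix.mul_assoc, hQQ]
            rw [hAP, hAQ, e2, e3]
            simp
    calc (A + D * Q * D) * hhat P * (A + D * Q * D)
        = (A * Hc n * P + D * D * Q) * (A + D * Q * D) := by rw [e1]
      _ = A * Hc n * (P * A) + A * Hc n * (P * Q) * (D * D) + D * D * (Q * A)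
          + D * D * (Q * Q) * (D * D) := by
          rw [e0']
          simp only [Matrix.add_mul, Matrix.mul_add, Matrix.mul_assoc]
          abel
      _ = A * Hc n * A + D * D * Q * (D * D) := by
          rw [hPA, hPQ, hQA, hQQ]
          simp
      _ = D * A * D + D * (D * Q * D) * D := by
          rw [he]; simp only [Matrix.mul_assoc]
      _ = D * (A + D * Q * D) * D := by rw [Matrix.mul_add, Matrix.add_mul]

/-- Solutions with the same `d`, `P` coincide. -/
theorem Param.unique_sol (h : Param d P) {A B : Matrix (Fin n) (Fin n) ℝ} (hA : A.PosSemidef)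
    (hPA : P * A = A) (hkA : ∀ x, x ⬝ᵥ (A *ᵥ x) = 0 → P *ᵥ x = 0)
    (heA : A * Hc n * A = diagonal d * A * diagonal d) (hB : B.PosSemidef)
    (hPB : P * B = B) (hkB : ∀ x, x ⬝ᵥ (B *ᵥ x) = 0 → P *ᵥ x = 0)
    (heB : B * Hc n * B = diagonal d * B * diagonal d) : A = B := by
  obtain ⟨a1, a2⟩ := h.completion hA hPA hkA heA
  obtain ⟨b1, b2⟩ := h.completion hB hPB hkB heB
  have := sol_unique h.hhat_pd (diagonal_transpose _) a1 b1 a2 b2
  exact add_right_cancel this

/-- A solution of `A H A = D A D` which is positive semidefinite with unit diagonal has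
parameters. -/
theorem exists_param (hn : 0 < n) {A : Matrix (Fin n) (Fin n) ℝ} (hA : A.PosSemidef)
    (hdiag : ∀ i, A i i = 1) (hd : ∀ i, 0 < d i)
    (he : A * Hc n * A = diagonal d * A * diagonal d) :
    ∃ P, Param d P ∧ P * A = A ∧ (∀ x, x ⬝ᵥ (A *ᵥ x) = 0 → P *ᵥ x = 0) := by
  have hAT := isSymm_of_herm hA.isHermitian
  obtain ⟨P, X, hP, hPP, hPA, hAP, hXA, hAX⟩ := exists_pinv hAT
  set D : Matrix (Fin n) (Fin n) ℝ := diagonal d with hD
  have hDT : Dᵀ = D := diagonal_transpose _
  -- cancellation of `D` on the left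
  have hcancel : ∀ M : Matrix (Fin n) (Fin n) ℝ, D * M = 0 → M = 0 := by
    intro M hM
    ext i j
    have := congrFun (congrFun hM i) j
    rw [hD, diagonal_mul] at this
    simpa [(hd i).ne'] using this
  have hker : ∀ x, x ⬝ᵥ (A *ᵥ x) = 0 → P *ᵥ x = 0 := by
    intro x hx
    have h1 : A *ᵥ x = 0 := (hA.dotProduct_mulVec_zero_iff x).1 (by simpa using hx)
    rw [← hXA, ← mulVec_mulVec, h1, mulVec_zero]
  -- `P D = D P`
  have h1 : A * D * (1 - P) = 0 := by
    apply hcancel
    have e1 : D * (A * D * (1 - P)) = A * Hc n * (A * (1 - P)) := by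
      calc D * (A * D * (1 - P)) = (D * A * D) * (1 - P) := by simp only [Matrix.mul_assoc]
        _ = _ := by rw [← he]; simp only [Matrix.mul_assoc]
    rw [e1, Matrix.mul_sub, Matrix.mul_one, hAP, sub_self, Matrix.mul_zero]
  have h2 : P * D * (1 - P) = 0 := by
    calc P * D * (1 - P) = X * (A * D * (1 - P)) := by rw [← hXA]; simp only [Matrix.mul_assoc]
      _ = 0 := by rw [h1, Matrix.mul_zero]
  have h3 : P * D = P * D * P := by
    rw [Matrix.mul_sub, Matrix.mul_one, sub_eq_zero] at h2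
    exact h2
  have h4 : D * P = P * D * P := by
    have := congrArg transpose h3
    rwa [transpose_mul, transpose_mul, transpose_mul, hP, hDT, ← Matrix.mul_assoc] at this
  have hcomm : D * P = P * D := by rw [h3, h4]
  refine ⟨P, ⟨hd, hP, hPP, ?_, ?_⟩, hPA, hker⟩
  · intro i j hij
    have := congrFun (congrFun hcomm i) j
    rw [hD, diagonal_mul, mul_diagonal] at this
    have h5 : (d i - d j) * P i j = 0 := by linarith
    rcases mul_eq_zero.1 h5 with h6 | h6
    · exact absurd (sub_eq_zero.1 h6) hij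
    · exact h6
  · intro hone
    have h5 : P *ᵥ (fun _ => (1 : ℝ)) = fun _ => 1 := by
      rw [mulVec_one_eq]; funext i; exact hone i
    set y : Fin n → ℝ := X *ᵥ (fun _ => 1) with hy
    have h6 : A *ᵥ y = fun _ => 1 := by rw [hy, mulVec_mulVec, hAX, h5]
    have hH1 : Hc n *ᵥ (fun _ => (1 : ℝ)) = 0 := by
      funext i
      have hn' : (n : ℝ) ≠ 0 := by exact_mod_cast hn.ne'
      simp only [Hc, sub_mulVec, one_mulVec, smul_mulVec, vecMulVec_mulVec, Pi.sub_apply,
        Pi.smul_apply, smul_eq_mul, dotProduct]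
      simp [hn']
    have h7 : (D * A * D) *ᵥ y = 0 := by
      rw [← he, Matrix.mul_assoc, ← mulVec_mulVec, ← mulVec_mulVec, h6, hH1, mulVec_zero]
    have h8 : A *ᵥ (D *ᵥ y) = 0 := by
      rw [Matrix.mul_assoc, ← mulVec_mulVec, ← mulVec_mulVec] at h7
      funext i
      have := congrFun h7 i
      rw [hD, mulVec_diagonal] at this
      simpa [(hd i).ne'] using this
    have h9 : P *ᵥ (D *ᵥ y) = 0 := by rw [← hXA, ← mulVec_mulVec, h8, mulVec_zero]
    have h10 : P *ᵥ y = 0 := by
      rw [mulVec_mulVec, ← hcomm, ← mulVec_mulVec] at h9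
      funext i
      have := congrFun h9 i
      rw [hD, mulVec_diagonal] at this
      simpa [(hd i).ne'] using this
    have h11 : A *ᵥ y = 0 := by rw [← hAP, ← mulVec_mulVec, h10, mulVec_zero]
    rw [h6] at h11
    have := congrFun h11 ⟨0, hn⟩
    simp at this

/-- **Classification of the fixed points.** -/
theorem mem_FixC_iff_mat (hn : 0 < n) (A : Matrix (Fin n) (Fin n) ℝ) :
    A ∈ FixC n ↔ ∃ (d : Fin n → ℝ) (P : Matrix (Fin n) (Fin n) ℝ)
      (β : Matrix (lev d P) (lev d P) ℝ), Param d P ∧ Core d P β ∧ A = mat d P β ∧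
        ∀ i, A i i = 1 := by
  rw [mem_FixC_iff hn]
  constructor
  · rintro ⟨h1, h2, d, hd, he⟩
    obtain ⟨P, hP, hPA, hker⟩ := exists_param hn h1 h2 hd he
    obtain ⟨β, hβ, -⟩ := hP.core_existsUnique
    refine ⟨d, P, β, hP, hβ, ?_, h2⟩
    exact hP.unique_sol h1 hPA hker he (hP.mat_psd hβ.1) (hP.P_mat β)
      (fun x hx => hP.mat_ker hβ.1 hx) (hP.mat_eqn hβ)
  · rintro ⟨d, P, β, hP, hβ, rfl, h2⟩
    exact ⟨hP.mat_psd hβ.1, h2, d, hP.pos, hP.mat_eqn hβ⟩

/-- The parameters are determined by the fixed point. -/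
theorem param_unique {d d' : Fin n → ℝ} {P P' : Matrix (Fin n) (Fin n) ℝ}
    {β : Matrix (lev d P) (lev d P) ℝ} {β' : Matrix (lev d' P') (lev d' P') ℝ}
    (h : Param d P) (h' : Param d' P') (hβ : Core d P β) (hβ' : Core d' P' β')
    (he : mat d P β = mat d' P' β') (hdiag : ∀ i, mat d P β i i = 1) : d = d' ∧ P = P' := by
  have e1 := h.mat_eqn hβ
  have e2 := h'.mat_eqn hβ'
  rw [← he] at e2
  have hd : d = d' := by
    funext i
    have h1 := congrFun (congrFun (e1.symm.trans e2) i) i
    rw [mul_diagonal, mul_diagonal, diagonal_mul, diagonal_mul, hdiag i, mul_one, mul_one,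
      ← pow_two, ← pow_two] at h1
    have := h.pos i
    have := h'.pos i
    nlinarith
  refine ⟨hd, ?_⟩
  set A := mat d P β with hA
  have hpsd : A.PosSemidef := h.mat_psd hβ.1
  have hAT := isSymm_of_herm hpsd.isHermitian
  have k1 : ∀ x, A *ᵥ x = 0 → P *ᵥ x = 0 := fun x hx => h.mat_ker hβ.1 (by rw [← hA, hx]; simp)
  have k2 : ∀ x, A *ᵥ x = 0 → P' *ᵥ x = 0 := fun x hx =>
    h'.mat_ker hβ'.1 (by rw [← he, hx]; simp)
  have hPA : A * P = A := by
    have := congrArg transpose (h.P_mat β)
    rwa [transpose_mul, ← hA, hAT, h.symm] at this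
  have hPA' : A * P' = A := by
    have := congrArg transpose (h'.P_mat β')
    rwa [transpose_mul, ← he, hAT, h'.symm] at this
  have mker : ∀ M N : Matrix (Fin n) (Fin n) ℝ, (∀ x, A *ᵥ x = 0 → M *ᵥ x = 0) → A * N = 0 →
      M * N = 0 := by
    intro M N hM hN
    ext i j
    have h1 : A *ᵥ (N *ᵥ (Pi.single j 1)) = 0 := by rw [mulVec_mulVec, hN, zero_mulVec]
    have h2 := congrFun (hM _ h1) i
    rw [mulVec_mulVec] at h2
    simpa using h2
  have h3 : P * (1 - P') = 0 := by
    apply mker _ _ k1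
    rw [Matrix.mul_sub, Matrix.mul_one, hPA', sub_self]
  have h4 : P' * (1 - P) = 0 := by
    apply mker _ _ k2
    rw [Matrix.mul_sub, Matrix.mul_one, hPA, sub_self]
  have h5 : P = P * P' := by
    rw [Matrix.mul_sub, Matrix.mul_one, sub_eq_zero] at h3; exact h3
  have h6 : P' = P' * P := by
    rw [Matrix.mul_sub, Matrix.mul_one, sub_eq_zero] at h4; exact h4
  have h7 : P = P' * P := by
    have := congrArg transpose h5
    rwa [transpose_mul, h.symm, h'.symm] at this
  rw [h7, ← h6]

end Pool.Agent.MPf2d8fc
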