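import Mathlib
import Pool.Agent.Lib.MP_f2d8fc_an.Main

/-!
# Fixed points of the iterated Pearson correlation map for `n = 4`: tools
-/

open Matrix

namespace Pool.Agent.MPf2d8fc

variable {n : ℕ}

/-- The entries of `mat d P β` have the form `d i d j P i j + q i q j X (d i) (d j)`. -/
theorem mat_form (d : Fin n → ℝ) (P : Matrix (Fin n) (Fin n) ℝ)
    (β : Matrix (lev d P) (lev d P) ℝ) :
    ∃ X : ℝ → ℝ → ℝ, ∀ i j, mat d P β i j
      = d i * d j * P i j + rowSum P i * rowSum P j * X (d i) (d j) := by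
  classical
  set Y : Matrix (lev d P) (lev d P) ℝ :=
    β - diagonal fun t : lev d P => (t : ℝ) ^ 2 / wt d P t with hY
  refine ⟨fun s u => if h : s ∈ lev d P ∧ u ∈ lev d P then Y ⟨s, h.1⟩ ⟨u, h.2⟩ else 0,
    fun i j => ?_⟩
  have hE : ∀ (i : Fin n) (f : lev d P → ℝ), ∑ t : lev d P, lvec d P i t * f t
      = rowSum P i * (if h : d i ∈ lev d P then f ⟨d i, h⟩ else 0) := by
    intro i f
    by_cases hi : d i ∈ lev d P
    · rw [dif_pos hi, Finset.sum_eq_single (⟨d i, hi⟩ : lev d P)]
      · simp [lvec]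
      · intro b _ hb
        have : d i ≠ (b : ℝ) := fun h => hb (Subtype.ext h.symm)
        simp [lvec, this]
      · intro h; exact absurd (Finset.mem_univ _) h
    · rw [dif_neg hi, mul_zero]
      refine Finset.sum_eq_zero fun t _ => ?_
      have : d i ≠ (t : ℝ) := fun h => hi (h ▸ t.2)
      simp [lvec, this]
  rw [mat, Matrix.add_apply, mul_diagonal, diagonal_mul]
  congr 1
  · ring
  · rw [mul_apply]
    have h1 : ∀ u : lev d P, (lvec d P * Y) i u
        = rowSum P i * (if h : d i ∈ lev d P then Y ⟨d i, h⟩ u else 0) := fun u => by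
      rw [mul_apply]; exact hE i fun t => Y t u
    have h2 : ∑ u, (lvec d P * Y) i u * (lvec d P)ᵀ u j
        = ∑ u, lvec d P j u * (rowSum P i * (if h : d i ∈ lev d P then Y ⟨d i, h⟩ u else 0)) :=
      Finset.sum_congr rfl fun u _ => by rw [h1 u, transpose_apply, mul_comm]
    rw [h2, hE j fun u => rowSum P i * (if h : d i ∈ lev d P then Y ⟨d i, h⟩ u else 0)]
    by_cases hi : d i ∈ lev d P <;> by_cases hj : d j ∈ lev d P <;> simp [hi, hj]
    ring

/-- A solution with its parameters. -/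
structure Good (A : Matrix (Fin n) (Fin n) ℝ) (d : Fin n → ℝ) (P : Matrix (Fin n) (Fin n) ℝ) :
    Prop where
  psd : A.PosSemidef
  diag : ∀ i, A i i = 1
  par : Param d P
  eqn : A * Hc n * A = diagonal d * A * diagonal d
  PA : P * A = A
  ker : ∀ x, x ⬝ᵥ (A *ᵥ x) = 0 → P *ᵥ x = 0
  form : ∃ X : ℝ → ℝ → ℝ, ∀ i j, A i j
    = d i * d j * P i j + rowSum P i * rowSum P j * X (d i) (d j)

theorem exists_good (hn : 0 < n) {A : Matrix (Fin n) (Fin n) ℝ} {d : Fin n → ℝ}
    (hA : A.PosSemidef) (hdiag : ∀ i, A i i = 1) (hd : ∀ i, 0 < d i)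
    (he : A * Hc n * A = diagonal d * A * diagonal d) : ∃ P, Good A d P := by
  obtain ⟨P, h, hPA, hker⟩ := exists_param hn hA hdiag hd he
  obtain ⟨β, hβ, -⟩ := h.core_existsUnique
  have e : A = mat d P β := h.unique_sol hA hPA hker he (h.mat_psd hβ.1) (h.P_mat β)
    (fun x hx => h.mat_ker hβ.1 hx) (h.mat_eqn hβ)
  obtain ⟨X, hX⟩ := mat_form d P β
  exact ⟨P, hA, hdiag, h, he, hPA, hker, X, fun i j => by
    have := hX i j
    rwa [← e] at this⟩

theorem eqn_apply (A : Matrix (Fin n) (Fin n) ℝ) (i j : Fin n) :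
    (A * Hc n * A) i j = ∑ k, A i k * A k j - (∑ k, A i k) * (∑ k, A k j) / n := by
  rw [mul_apply]
  have h1 : ∑ k, (A * Hc n) i k * A k j = ∑ k, A i k * A k j - mean (A i) * ∑ k, A k j := by
    rw [Finset.mul_sum, ← Finset.sum_sub_distrib]
    exact Finset.sum_congr rfl fun k _ => by rw [mul_Hc_apply]; ring
  rw [h1, mean]
  ring

variable {A : Matrix (Fin n) (Fin n) ℝ} {d : Fin n → ℝ} {P : Matrix (Fin n) (Fin n) ℝ}

theorem Good.sym (h : Good A d P) (i j : Fin n) : A i j = A j i := by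
  have := congrFun (congrFun (isSymm_of_herm h.psd.isHermitian) j) i
  simpa using this

theorem Good.psym (h : Good A d P) (i j : Fin n) : P i j = P j i := by
  have := congrFun (congrFun h.par.symm j) i
  simpa using this

theorem Good.E (h : Good A d P) (i j : Fin n) :
    ∑ k, A i k * A k j - (∑ k, A i k) * (∑ k, A k j) / n = d i * A i j * d j := by
  rw [← eqn_apply, h.eqn, mul_diagonal, diagonal_mul]

/-- Proportional rows. -/
theorem Good.rows (h : Good A d P) {i j : Fin n} {ε : ℝ} (he : A i j = ε) (h1 : ε * ε = 1)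
    (k : Fin n) : A k i = ε * A k j := by
  set x : Fin n → ℝ := Pi.single i 1 - ε • Pi.single j 1 with hx
  have hAx : A *ᵥ x = fun k => A k i - ε * A k j := by
    funext k
    rw [hx, mulVec_sub, mulVec_smul]
    simp
  have h2 : x ⬝ᵥ (A *ᵥ x) = 0 := by
    rw [hAx, hx, sub_dotProduct, smul_dotProduct]
    simp only [single_one_dotProduct, smul_eq_mul]
    rw [h.diag, h.diag, h.sym j i, he]
    linarith
  have h3 : A *ᵥ x = 0 := (h.psd.dotProduct_mulVec_zero_iff x).1 (by simpa using h2)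
  have h4 := congrFun h3 k
  rw [hAx] at h4
  simp only [Pi.zero_apply] at h4
  linarith

theorem Good.single (h : Good A d P) {i : Fin n} (hi : ∀ k, k ≠ i → P i k = 0) :
    P i i = 1 ∧ rowSum P i = 1 := by
  have h1 := congrFun (congrFun h.PA i) i
  rw [mul_apply, Fintype.sum_eq_single i (fun k hk => by rw [hi k hk, zero_mul]), h.diag,
    mul_one] at h1
  refine ⟨h1, ?_⟩
  rw [rowSum, Fintype.sum_eq_single i fun k hk => hi k hk, h1]

theorem Good.pair (h : Good A d P) {i j : Fin n} (hij : i ≠ j)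
    (hi : ∀ k, k ≠ i → k ≠ j → P i k = 0) (hj : ∀ k, k ≠ i → k ≠ j → P j k = 0)
    (hne : rowSum P i ≠ 1 ∨ rowSum P j ≠ 1) :
    A i j = -1 ∧ rowSum P i = 0 ∧ rowSum P j = 0 := by
  have s1 : rowSum P i = P i i + P i j :=
    Fintype.sum_eq_add i j hij fun x hx => hi x hx.1 hx.2
  have s2 : rowSum P j = P j i + P j j :=
    Fintype.sum_eq_add i j hij fun x hx => hj x hx.1 hx.2
  have e1 := congrFun (congrFun h.PA i) i
  have e2 := congrFun (congrFun h.PA i) j
  have e3 := congrFun (congrFun h.PA j) i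
  have e4 := congrFun (congrFun h.PA j) j
  have e5 := congrFun (congrFun h.par.idem i) i
  rw [mul_apply, Fintype.sum_eq_add i j hij fun x hx => by rw [hi x hx.1 hx.2, zero_mul]]
    at e1 e2 e5
  rw [mul_apply, Fintype.sum_eq_add i j hij fun x hx => by rw [hj x hx.1 hx.2, zero_mul]]
    at e3 e4
  rw [h.sym j i, h.diag] at e1
  rw [h.diag] at e2 e3 e4
  rw [h.psym j i] at e3 e4 e5 s2
  have h1 : P i j * (1 - A i j ^ 2) = 0 := by
    have : A j i = A i j := h.sym j i
    linear_combination e2 - A i j * e1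
  have e3' : P i j * 1 + P j j * A i j = A i j := by
    have := h.sym j i
    rw [this] at e3
    linarith
  rcases mul_eq_zero.1 h1 with h2 | h2
  · exfalso
    rw [h2] at e1 e4 s1 s2
    rcases hne with h3 | h3
    · apply h3; rw [s1]; linarith
    · apply h3; rw [s2]; linarith
  · have h3 : (A i j - 1) * (A i j + 1) = 0 := by linear_combination -h2
    rcases mul_eq_zero.1 h3 with h4 | h4
    · exfalso
      have h5 : A i j = 1 := by linarith
      rw [h5] at e1 e4
      rcases hne with h6 | h6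
      · apply h6; rw [s1]; linarith
      · apply h6; rw [s2]; linarith
    · have h5 : A i j = -1 := by linarith
      rw [h5] at e1 e4
      have h6 : P i i = 1 + P i j := by linarith
      have h7 : P j j = 1 + P i j := by linarith
      rw [h6] at e5
      have h8 : P i j * (2 * P i j + 1) = 0 := by linear_combination e5
      rcases mul_eq_zero.1 h8 with h9 | h9
      · exfalso
        rcases hne with h10 | h10
        · apply h10; rw [s1, h6, h9]; norm_num
        · apply h10; rw [s2, h7, h9]; norm_num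
      · refine ⟨h5, ?_, ?_⟩
        · rw [s1, h6]; linarith
        · rw [s2, h7]; linarith

theorem Good.iso (h : Good A d P) {i k : Fin n} (h0 : rowSum P i = 0) (hP : P i k = 0) :
    A i k = 0 := by
  obtain ⟨X, hX⟩ := h.form
  rw [hX, h0, hP]; ring

/-- Splitting off a unit vector from a projection. -/
theorem peel {Q : Matrix (Fin n) (Fin n) ℝ} (hs : Qᵀ = Q) (hi : Q * Q = Q) (h0 : Q ≠ 0) :
    ∃ v : Fin n → ℝ, v ⬝ᵥ v = 1 ∧ Q *ᵥ v = v ∧ (Q - vecMulVec v v)ᵀ = Q - vecMulVec v v ∧
      (Q - vecMulVec v v) * (Q - vecMulVec v v) = Q - vecMulVec v v := by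
  have hsym : ∀ i j, Q i j = Q j i := fun i j => by
    have := congrFun (congrFun hs j) i
    simpa using this
  have hd : ∀ j, ∑ k, Q k j * Q k j = Q j j := fun j => by
    have := congrFun (congrFun hi j) j
    rw [mul_apply] at this
    rw [← this]
    exact Finset.sum_congr rfl fun k _ => by rw [hsym k j]
  obtain ⟨j, hj⟩ : ∃ j, Q j j ≠ 0 := by
    by_contra hc
    apply h0
    ext k j
    have h1 : Q j j = 0 := by
      by_contra h2
      exact hc ⟨j, h2⟩
    have h2 := hd j
    rw [h1] at h2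
    have h3 := (Finset.sum_eq_zero_iff_of_nonneg (fun k _ => mul_self_nonneg (Q k j))).1 h2 k
      (Finset.mem_univ k)
    simpa using mul_self_eq_zero.1 h3
  have hpos : 0 < Q j j := by
    refine lt_of_le_of_ne ?_ (Ne.symm hj)
    rw [← hd j]
    exact Finset.sum_nonneg fun k _ => mul_self_nonneg _
  have hr : Real.sqrt (Q j j) * Real.sqrt (Q j j) = Q j j := Real.mul_self_sqrt hpos.le
  have hr0 : Real.sqrt (Q j j) ≠ 0 := (Real.sqrt_pos.2 hpos).ne'
  set r := Real.sqrt (Q j j) with hrdef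
  set v : Fin n → ℝ := fun k => Q k j / r with hv
  have hvv : v ⬝ᵥ v = 1 := by
    have e : v ⬝ᵥ v = (∑ k, Q k j * Q k j) / (r * r) := by
      rw [Finset.sum_div, dotProduct]
      exact Finset.sum_congr rfl fun k _ => by rw [hv]; field_simp
    rw [e, hd j, hr, div_self hpos.ne']
  have hQv : Q *ᵥ v = v := by
    funext i
    have h1 := congrFun (congrFun hi i) j
    rw [mul_apply] at h1
    simp only [mulVec, dotProduct, hv]
    rw [← h1, Finset.sum_div]
    exact Finset.sum_congr rfl fun k _ => by ring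
  have hvQ : v ᵥ* Q = v := by rw [← mulVec_transpose, hs, hQv]
  refine ⟨v, hvv, hQv, ?_, ?_⟩
  · rw [transpose_sub, hs, transpose_vecMulVec]
  · rw [Matrix.mul_sub, Matrix.sub_mul, Matrix.sub_mul, hi, mul_vecMulVec, hQv, vecMulVec_mul, hvQ,
      vecMulVec_mul_vecMulVec, hvv, one_smul]
    abel

theorem trace_nonneg' {Q : Matrix (Fin n) (Fin n) ℝ} (hs : Qᵀ = Q) (hi : Q * Q = Q) :
    0 ≤ trace Q := by
  refine Finset.sum_nonneg fun j _ => ?_
  have := congrFun (congrFun hi j) j
  rw [diag_apply, ← this, mul_apply]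
  refine Finset.sum_nonneg fun k _ => ?_
  have h1 : Q k j = Q j k := by
    have := congrFun (congrFun hs j) k
    simpa using this
  rw [h1]
  exact mul_self_nonneg _

theorem eq_zero_of_trace {Q : Matrix (Fin n) (Fin n) ℝ} (hs : Qᵀ = Q) (hi : Q * Q = Q)
    (ht : trace Q ≤ 0) : Q = 0 := by
  by_contra h0
  obtain ⟨v, hv, -, h1, h2⟩ := peel hs hi h0
  have h3 := trace_nonneg' h1 h2
  rw [trace_sub, trace_vecMulVec, hv] at h3
  linarith

end Pool.Agent.MPf2d8fc
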