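import Mathlib

/-!
# Fixed points of the iterated Pearson correlation map for `n = 4`: polynomial systems
-/

namespace Pool.Agent.MPf2d8fc

/-- Three parallel rows with signs `(1, 1, -1)`. -/
theorem real_two {c t s : ℝ} (ht : 0 < t) (hs : 0 < s) (hne : t ≠ s)
    (e0 : 3 + c ^ 2 - (1 + c) ^ 2 / 4 = t * t) (e3 : 4 * c - (1 + c) ^ 2 / 4 = t * s * c)
    (e33 : 3 * c ^ 2 + 1 - (1 + c) ^ 2 / 4 = s * s) :
    33 * c ^ 4 - 28 * c ^ 3 + 166 * c ^ 2 - 28 * c + 1 = 0 ∧ c ^ 2 + 1 < 14 * c := by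
  have h1 : (c - 1) * ((c + 1) * (33 * c ^ 4 - 28 * c ^ 3 + 166 * c ^ 2 - 28 * c + 1)) = 0 := by
    have h2 : (4 * c - (1 + c) ^ 2 / 4) ^ 2
        = (3 + c ^ 2 - (1 + c) ^ 2 / 4) * (3 * c ^ 2 + 1 - (1 + c) ^ 2 / 4) * c ^ 2 := by
      rw [e0, e3, e33]; ring
    linear_combination (-16) * h2
  have hd : ∀ x y : ℝ, 0 < x → 0 < y → x * x = y * y → x = y := by
    intro x y hx hy hxy
    have h4 : (x - y) * (x + y) = 0 := by linear_combination hxy
    rcases mul_eq_zero.1 h4 with h7 | h7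
    · linarith
    · linarith
  rcases mul_eq_zero.1 h1 with h3 | h3
  · exfalso
    have hc : c = 1 := by linarith
    rw [hc] at e0 e33
    exact hne (hd t s ht hs (by rw [← e0, ← e33]; norm_num))
  · rcases mul_eq_zero.1 h3 with h4 | h4
    · exfalso
      have hc : c = -1 := by linarith
      rw [hc] at e0 e33
      exact hne (hd t s ht hs (by rw [← e0, ← e33]; norm_num))
    · refine ⟨h4, ?_⟩
      have hts : 0 < t * s := mul_pos ht hs
      rcases lt_trichotomy c 0 with hc | hc | hc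
      · exfalso
        have h5 : 0 < c * c := mul_pos_of_neg_of_neg hc hc
        have h6 : 0 < -c * (c * c) := mul_pos (by linarith) h5
        have h7 : 0 ≤ c ^ 4 := by positivity
        have h8 : 33 * c ^ 4 + 28 * (-c * (c * c)) + 166 * (c * c) - 28 * c + 1 = 0 := by
          linear_combination h4
        linarith
      · exfalso
        rw [hc] at h4
        norm_num at h4
      · have h5 : 0 < t * s * c := mul_pos hts hc
        rw [← e3] at h5
        nlinarith

/-- Three coupled indices of rank two, two of them being equivalent. -/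
theorem real_three {a b c g t s x y : ℝ}
    (h1 : x * (1 + a) + y * b = 0) (h2 : 2 * b * x + y = 0) (h3 : 2 * c * x + g * y = 0)
    (hx : x ≠ 0)
    (e00 : 1 + a ^ 2 + b ^ 2 + c ^ 2 - (1 + a + b + c) ^ 2 / 4 = t * t)
    (e01 : 2 * a + b ^ 2 + c ^ 2 - (1 + a + b + c) ^ 2 / 4 = t * t * a)
    (e22 : 2 * b ^ 2 + 1 + g ^ 2 - (2 * b + 1 + g) ^ 2 / 4 = t * t)
    (e23 : 2 * b * c + 2 * g - (2 * b + 1 + g) * (2 * c + g + 1) / 4 = t * s * g)
    (e33 : 2 * c ^ 2 + g ^ 2 + 1 - (2 * c + g + 1) ^ 2 / 4 = s * s)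
    (ha : a < 1) (hg : g ^ 2 < 1) :
    a = -1 / 2 ∧ b = -1 / 2 ∧ c = 0 ∧ g = 0 := by
  have ha2 : a = 2 * b ^ 2 - 1 := by
    have : x * (1 + a - 2 * b ^ 2) = 0 := by linear_combination h1 - b * h2
    rcases mul_eq_zero.1 this with h | h
    · exact absurd h hx
    · linarith
  have hc : c = b * g := by
    have : x * (c - b * g) = 0 := by linear_combination h3 / 2 - g / 2 * h2
    rcases mul_eq_zero.1 this with h | h
    · exact absurd h hx
    · linarith
  subst ha2 hc
  have hT : t * t = 2 - 2 * b ^ 2 := by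
    have : (1 - (2 * b ^ 2 - 1)) * (t * t - (2 - 2 * b ^ 2)) = 0 := by
      linear_combination e01 - e00
    rcases mul_eq_zero.1 this with h | h
    · linarith
    · linarith
  have hb : b ^ 2 < 1 := by linarith
  have e22' : 12 * b ^ 2 + 3 * g ^ 2 - 4 * b * g - 4 * b - 2 * g - 5 = 0 := by
    linear_combination 4 * e22 + 4 * hT
  by_cases hg0 : g = 0
  · subst hg0
    have hb2 : b = -1 / 2 := by linear_combination (-2) * e23
    subst hb2
    norm_num
  · exfalso
    have hU : 0 < 1 - b := by nlinarith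
    have hM : (3 * g - 2 * b - 1) ^ 2 = 16 * (1 - b) * (1 + 2 * b) := by
      linear_combination 3 * e22'
    have hV : 0 ≤ 1 + 2 * b := by
      by_contra hc
      push Not at hc
      have h5 : 16 * (1 - b) * (1 + 2 * b) < 0 := mul_neg_of_pos_of_neg (by linarith) hc
      have h6 := sq_nonneg (3 * g - 2 * b - 1)
      rw [hM] at h6
      linarith
    set T : ℝ := 2 - 2 * b ^ 2 with hTdef
    have hTpos : 0 < T := by rw [hTdef]; linarith
    set M : ℝ := 3 * g - 2 * b - 1 with hMdef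
    -- the two remaining equations
    have f1 : 4 * T * g + (1 - g ^ 2) * M = 4 * (t * s * g) := by
      rw [← e23, hTdef, hMdef]
      linear_combination (-g) * e22'
    have f2 : 4 * T * g ^ 2 + (1 - g ^ 2) * (3 - 3 * g ^ 2 + 2 * g * M) = 4 * (s * s) := by
      rw [← e33, hTdef, hMdef]
      linear_combination (-g ^ 2) * e22'
    have f3 : (1 - g ^ 2) * (16 * T ^ 2 * g ^ 2
        + (1 - g ^ 2) * (M ^ 2 + 8 * T * M * g - 12 * T * g ^ 2)) = 0 := by
      have f4 : (4 * T * g + (1 - g ^ 2) * M) ^ 2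
          = 4 * T * g ^ 2 * (4 * T * g ^ 2 + (1 - g ^ 2) * (3 - 3 * g ^ 2 + 2 * g * M)) := by
        rw [f1, f2]
        linear_combination 16 * s ^ 2 * g ^ 2 * hT
      linear_combination f4
    have f5 : 16 * T ^ 2 * g ^ 2
        + (1 - g ^ 2) * (M ^ 2 + 8 * T * M * g - 12 * T * g ^ 2) = 0 := by
      rcases mul_eq_zero.1 f3 with h | h
      · linarith
      · exact h
    have f6 : M ^ 2 + 8 * T * M * g - 12 * T * g ^ 2
        = 8 * (1 - b) ^ 2 * (1 + 2 * b) * (4 + 3 * (1 + 2 * b)) := by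
      have hg3 : g = (M + 2 * b + 1) / 3 := by rw [hMdef]; ring
      rw [hg3, hTdef]
      linear_combination (1 + (4 / 3) * (2 - 2 * b ^ 2)) * hM
    rw [f6] at f5
    have hg2 : 0 < g ^ 2 := lt_of_le_of_ne (sq_nonneg g) (Ne.symm (pow_ne_zero 2 hg0))
    have f7 : 0 < 16 * T ^ 2 * g ^ 2 :=
      mul_pos (mul_pos (by norm_num) (pow_pos hTpos 2)) hg2
    have f8 : 0 ≤ (1 - g ^ 2) * (8 * (1 - b) ^ 2 * (1 + 2 * b) * (4 + 3 * (1 + 2 * b))) := by
      apply mul_nonneg (by linarith)
      have h9 : 0 ≤ 8 * (1 - b) ^ 2 := mul_nonneg (by norm_num) (sq_nonneg _)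
      apply mul_nonneg (mul_nonneg h9 hV)
      linarith
    linarith

/-- Two orthonormal kernel vectors force an entry `±1`. -/
theorem real_sq {a b e vi vj vk wi wj wk : ℝ} (r1 : vi + a * vj + b * vk = 0)
    (r2 : a * vi + vj + e * vk = 0) (r3 : wi + a * wj + b * wk = 0)
    (r4 : a * wi + wj + e * wk = 0) (hvv : vi ^ 2 + vj ^ 2 + vk ^ 2 = 1)
    (hww : wi ^ 2 + wj ^ 2 + wk ^ 2 = 1) (hvw : vi * wi + vj * wj + vk * wk = 0) :
    a * a = 1 := by
  by_contra ha
  have ha' : 1 - a * a ≠ 0 := fun h => ha (by linarith)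
  have h1 : wk * vi - vk * wi = 0 := by
    have : (1 - a * a) * (wk * vi - vk * wi) = 0 := by
      linear_combination wk * r1 - wk * a * r2 - vk * r3 + vk * a * r4
    exact (mul_eq_zero.1 this).resolve_left ha'
  have h2 : wk * vj - vk * wj = 0 := by
    have : (1 - a * a) * (wk * vj - vk * wj) = 0 := by
      linear_combination wk * r2 - wk * a * r1 - vk * r4 + vk * a * r3
    exact (mul_eq_zero.1 this).resolve_left ha'
  have h3 : wk = 0 := by
    linear_combination (-wk) * hvv + vi * h1 + vj * h2 + vk * hvw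
  have h4 : vk = 0 := by
    linear_combination (-vk) * hww - wi * h1 - wj * h2 + wk * hvw
  rw [h4] at r1 r2 hvv
  have h5 : vi = 0 := by
    have : (1 - a * a) * vi = 0 := by linear_combination r1 - a * r2
    exact (mul_eq_zero.1 this).resolve_left ha'
  have h6 : vj = 0 := by
    have : (1 - a * a) * vj = 0 := by linear_combination r2 - a * r1
    exact (mul_eq_zero.1 this).resolve_left ha'
  rw [h5, h6] at hvv
  norm_num at hvv

/-- A quadratic polynomial with three distinct roots. -/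
theorem real_quad {T κ σ x y z : ℝ} (hT : T ≠ 0) (hx : T * (1 - x * x) + (1 - σ * x) ^ 2 * κ = 1)
    (hy : T * (1 - y * y) + (1 - σ * y) ^ 2 * κ = 1)
    (hz : T * (1 - z * z) + (1 - σ * z) ^ 2 * κ = 1) : x = y ∨ x = z ∨ y = z := by
  by_contra hc
  push Not at hc
  obtain ⟨h1, h2, h3⟩ := hc
  have e1 : (κ * σ ^ 2 - T) * (x + y) - 2 * κ * σ = 0 := by
    have : (x - y) * ((κ * σ ^ 2 - T) * (x + y) - 2 * κ * σ) = 0 := by
      linear_combination hx - hy
    exact (mul_eq_zero.1 this).resolve_left (sub_ne_zero.2 h1)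
  have e2 : (κ * σ ^ 2 - T) * (x + z) - 2 * κ * σ = 0 := by
    have : (x - z) * ((κ * σ ^ 2 - T) * (x + z) - 2 * κ * σ) = 0 := by
      linear_combination hx - hz
    exact (mul_eq_zero.1 this).resolve_left (sub_ne_zero.2 h2)
  have e3 : κ * σ ^ 2 - T = 0 := by
    have : (y - z) * (κ * σ ^ 2 - T) = 0 := by linear_combination e1 - e2
    exact (mul_eq_zero.1 this).resolve_left (sub_ne_zero.2 h3)
  rw [e3] at e1
  have e4 : κ * σ = 0 := by linarith
  apply hT
  linear_combination σ * e4 - e3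

end Pool.Agent.MPf2d8fc
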