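import Mathlib
import Pool.Agent.Lib.MP_f2d8fc_an.OrderFour
import Pool.Agent.Lib.MP_f2d8fc_an.OrderFourReal

/-!
# Fixed points of the iterated Pearson correlation map for `n = 4`: the cases
-/

open Matrix

namespace Pool.Agent.MPf2d8fc

theorem Hc_perm {n : ℕ} (σ : Equiv.Perm (Fin n)) : (Hc n).submatrix σ σ = Hc n := by
  ext i j
  simp [Hc, Matrix.one_apply, vecMulVec_apply]

theorem rowSum_perm {n : ℕ} (P : Matrix (Fin n) (Fin n) ℝ) (σ : Equiv.Perm (Fin n)) (i : Fin n) :
    rowSum (P.submatrix σ σ) i = rowSum P (σ i) := by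
  simp only [rowSum, submatrix_apply]
  exact Equiv.sum_comp σ fun j => P (σ i) j

theorem Good.perm {n : ℕ} {A : Matrix (Fin n) (Fin n) ℝ} {d : Fin n → ℝ}
    {P : Matrix (Fin n) (Fin n) ℝ} (h : Good A d P) (σ : Equiv.Perm (Fin n)) :
    Good (A.submatrix σ σ) (d ∘ σ) (P.submatrix σ σ) where
  psd := h.psd.submatrix σ
  diag i := h.diag (σ i)
  par := by
    refine ⟨fun i => h.par.pos (σ i), ?_, ?_, fun i j hij => h.par.blk _ _ hij, fun hc => ?_⟩
    · rw [transpose_submatrix, h.par.symm]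
    · rw [submatrix_mul_equiv, h.par.idem]
    · apply h.par.ne
      intro i
      have := hc (σ.symm i)
      rwa [rowSum_perm, Equiv.apply_symm_apply] at this
  eqn := by
    have e := congrArg (fun M : Matrix (Fin n) (Fin n) ℝ => M.submatrix σ σ) h.eqn
    rw [← submatrix_mul_equiv (A * Hc n) A σ σ σ, ← submatrix_mul_equiv A (Hc n) σ σ σ, Hc_perm,
      ← submatrix_mul_equiv (diagonal d * A) (diagonal d) σ σ σ,
      ← submatrix_mul_equiv (diagonal d) A σ σ σ] at e
    have e2 : (diagonal d).submatrix σ σ = diagonal (d ∘ σ) := by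
      ext i j
      simp [diagonal_apply]
    rw [e2] at e
    exact e
  PA := by rw [submatrix_mul_equiv, h.PA]
  ker x hx := by
    have e1 : (x ∘ σ.symm) ⬝ᵥ (A *ᵥ (x ∘ σ.symm)) = 0 := by
      rw [submatrix_mulVec_equiv] at hx
      rw [← hx, dotProduct, dotProduct, ← Equiv.sum_comp σ]
      simp
    have e2 := h.ker _ e1
    rw [submatrix_mulVec_equiv, e2]
    rfl
  form := by
    obtain ⟨X, hX⟩ := h.form
    refine ⟨X, fun i j => ?_⟩
    rw [rowSum_perm, rowSum_perm]
    exact hX (σ i) (σ j)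

variable {A : Matrix (Fin 4) (Fin 4) ℝ} {d : Fin 4 → ℝ} {P : Matrix (Fin 4) (Fin 4) ℝ}

theorem Good.E4 (h : Good A d P) (i j : Fin 4) :
    A i 0 * A j 0 + A i 1 * A j 1 + A i 2 * A j 2 + A i 3 * A j 3
      - (A i 0 + A i 1 + A i 2 + A i 3) * (A j 0 + A j 1 + A j 2 + A j 3) / 4
      = d i * d j * A i j := by
  have e := h.E i j
  rw [Fin.sum_univ_four, Fin.sum_univ_four, Fin.sum_univ_four, h.sym 0 j, h.sym 1 j, h.sym 2 j,
    h.sym 3 j] at e
  push_cast at e
  linarith

theorem Good.ne4 (h : Good A d P) :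
    rowSum P 0 ≠ 1 ∨ rowSum P 1 ≠ 1 ∨ rowSum P 2 ≠ 1 ∨ rowSum P 3 ≠ 1 := by
  by_contra hc
  push Not at hc
  apply h.par.ne
  intro i
  fin_cases i
  · exact hc.1
  · exact hc.2.1
  · exact hc.2.2.1
  · exact hc.2.2.2

theorem Good.case5 (h : Good A d P) (h1 : ∀ i j, i ≠ j → d i ≠ d j) : False := by
  apply h.par.ne
  intro i
  exact (h.single (i := i) fun k hk => h.par.blk _ _ (h1 i k (Ne.symm hk))).2

theorem Good.case4 (h : Good A d P) (h01 : d 0 = d 1) (h02 : d 0 ≠ d 2) (h03 : d 0 ≠ d 3)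
    (h23 : d 2 ≠ d 3) : False := by
  have p02 : P 0 2 = 0 := h.par.blk _ _ h02
  have p03 : P 0 3 = 0 := h.par.blk _ _ h03
  have p12 : P 1 2 = 0 := h.par.blk _ _ (h01 ▸ h02)
  have p13 : P 1 3 = 0 := h.par.blk _ _ (h01 ▸ h03)
  have p23 : P 2 3 = 0 := h.par.blk _ _ h23
  have q2 : rowSum P 2 = 1 := (h.single (i := 2) fun k hk => by
    fin_cases k
    · exact (h.psym 2 0).trans p02
    · exact (h.psym 2 1).trans p12
    · exact absurd rfl hk
    · exact p23).2
  have q3 : rowSum P 3 = 1 := (h.single (i := 3) fun k hk => by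
    fin_cases k
    · exact (h.psym 3 0).trans p03
    · exact (h.psym 3 1).trans p13
    · exact (h.psym 3 2).trans p23
    · exact absurd rfl hk).2
  have hne : rowSum P 0 ≠ 1 ∨ rowSum P 1 ≠ 1 := by
    rcases h.ne4 with h1 | h1 | h1 | h1
    · exact Or.inl h1
    · exact Or.inr h1
    · exact absurd q2 h1
    · exact absurd q3 h1
  obtain ⟨a1, q0, q1⟩ := h.pair (i := 0) (j := 1) (by decide)
    (fun k hk hk' => by
      fin_cases k
      · exact absurd rfl hk
      · exact absurd rfl hk'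
      · exact p02
      · exact p03)
    (fun k hk hk' => by
      fin_cases k
      · exact absurd rfl hk
      · exact absurd rfl hk'
      · exact p12
      · exact p13) hne
  have a02 := h.iso q0 p02
  have a03 := h.iso q0 p03
  have a12 := h.iso q1 p12
  have a13 := h.iso q1 p13
  have e2 := h.E4 2 2
  have e3 := h.E4 3 3
  rw [h.sym 2 0, h.sym 2 1, a02, a12, h.diag] at e2
  rw [h.sym 3 0, h.sym 3 1, h.sym 3 2, a03, a13, h.diag] at e3
  apply h23
  have h4 : (d 2 - d 3) * (d 2 + d 3) = 0 := by linear_combination e3 - e2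
  have h5 := h.par.pos 2
  have h6 := h.par.pos 3
  rcases mul_eq_zero.1 h4 with h7 | h7
  · linarith
  · linarith

/-- Two levels of size two, the first one being coupled by a pair of opposite rows. -/
theorem Good.case3a (h : Good A d P) (h02 : d 0 ≠ d 2) (h01 : d 0 = d 1) (h23 : d 2 = d 3)
    (hne : rowSum P 0 ≠ 1 ∨ rowSum P 1 ≠ 1) :
    A 0 1 = -1 ∧ A 0 2 = 0 ∧ A 0 3 = 0 ∧ A 1 2 = 0 ∧ A 1 3 = 0 ∧ (A 2 3 = 1 ∨ A 2 3 = 1 / 3) := by
  have p02 : P 0 2 = 0 := h.par.blk _ _ h02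
  have p03 : P 0 3 = 0 := h.par.blk _ _ (h23 ▸ h02)
  have p12 : P 1 2 = 0 := h.par.blk _ _ (h01 ▸ h02)
  have p13 : P 1 3 = 0 := h.par.blk _ _ (h01 ▸ h23 ▸ h02)
  obtain ⟨a1, q0, q1⟩ := h.pair (i := 0) (j := 1) (by decide)
    (fun k hk hk' => by
      fin_cases k
      · exact absurd rfl hk
      · exact absurd rfl hk'
      · exact p02
      · exact p03)
    (fun k hk hk' => by
      fin_cases k
      · exact absurd rfl hk
      · exact absurd rfl hk'
      · exact p12
      · exact p13) hne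
  have a02 := h.iso q0 p02
  have a03 := h.iso q0 p03
  have a12 := h.iso q1 p12
  have a13 := h.iso q1 p13
  refine ⟨a1, a02, a03, a12, a13, ?_⟩
  have e0 := h.E4 0 0
  have e2 := h.E4 2 2
  have e3 := h.E4 2 3
  rw [h.diag, a02, a03, a1] at e0
  rw [h.sym 2 0, h.sym 2 1, a02, a12, h.diag] at e2
  rw [h.sym 2 0, h.sym 2 1, a02, a12, h.sym 3 0, h.sym 3 1, h.sym 3 2, a03, a13, h.diag,
    h.diag, ← h23] at e3
  set g := A 2 3 with hg
  have h4 : (3 * g - 1) * ((g - 1) * (g + 1)) = 0 := by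
    linear_combination 4 * g * e2 - 4 * e3
  rcases mul_eq_zero.1 h4 with h5 | h5
  · right; linarith
  · rcases mul_eq_zero.1 h5 with h6 | h6
    · left; linarith
    · exfalso
      have h7 : g = -1 := by linarith
      rw [h7] at e2
      apply h02
      have h4 : (d 0 - d 2) * (d 0 + d 2) = 0 := by linear_combination e2 - e0
      have h5 := h.par.pos 0
      have h6 := h.par.pos 2
      rcases mul_eq_zero.1 h4 with h7 | h7
      · linarith
      · linarith

end Pool.Agent.MPf2d8fc
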