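import Mathlib
import Pool.Agent.Lib.MP_f2d8fc_an.OrderFourCases

/-!
# Fixed points of the iterated Pearson correlation map for `n = 4`: one level
-/

open Matrix

namespace Pool.Agent.MPf2d8fc

variable {A : Matrix (Fin 4) (Fin 4) ℝ} {d : Fin 4 → ℝ} {P : Matrix (Fin 4) (Fin 4) ℝ}

/-- The parameter of the circle family. -/
theorem real_fam {a b T : ℝ} (hab : a ^ 2 + b ^ 2 = 1 / 2) (hT : T ≠ 0)
    (e : 1 + (1 - T + T * (2 * a) ^ 2 / 2) ^ 2 + (1 - T + T * (a - b) ^ 2 / 2) ^ 2
      + (1 - T + T * (a + b) ^ 2 / 2) ^ 2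
      - (1 + (1 - T + T * (2 * a) ^ 2 / 2) + (1 - T + T * (a - b) ^ 2 / 2)
        + (1 - T + T * (a + b) ^ 2 / 2)) ^ 2 / 4 = T) :
    T * (9 - 16 * a ^ 2 * b ^ 2) = 16 := by
  have hb : b ^ 2 = 1 / 2 - a ^ 2 := by linarith
  have e1 : T * (T * (9 - 16 * a ^ 2 * b ^ 2) - 16) = 0 := by
    have h1 : (a - b) ^ 2 = 1 / 2 - 2 * a * b := by linear_combination hab
    have h2 : (a + b) ^ 2 = 1 / 2 + 2 * a * b := by linear_combination hab
    rw [h1, h2] at e
    linear_combination 16 * e - 48 * a ^ 2 * T ^ 2 * hab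
  rcases mul_eq_zero.1 e1 with h | h
  · exact absurd h hT
  · linarith

theorem mean_sub_const {n : ℕ} (hn : 0 < n) (x : Fin n → ℝ) (c : ℝ) :
    mean (fun k => x k - c) = mean x - c := by
  have hn' : (n : ℝ) ≠ 0 := by exact_mod_cast hn.ne'
  rw [mean, mean, Finset.sum_sub_distrib, Finset.sum_const, Finset.card_univ, Fintype.card_fin,
    nsmul_eq_mul]
  field_simp

/-- The double centring of a symmetric matrix. -/
theorem centre_apply {n : ℕ} {A : Matrix (Fin n) (Fin n) ℝ} (hA : Aᵀ = A) :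
    ∃ c : ℝ, ∀ i j, (Hc n * A * Hc n) i j = A i j - mean (A i) - mean (A j) + c := by
  refine ⟨(∑ j, mean (A j)) / n, fun i j => ?_⟩
  have h1 : Hc n * A = (A * Hc n)ᵀ := by rw [transpose_mul, Hc_T, hA]
  have h2 : ∀ i j, (Hc n * A) i j = A i j - mean (A j) := fun i j => by
    rw [h1, transpose_apply, mul_Hc_apply]
    have := congrFun (congrFun hA i) j
    rw [transpose_apply] at this
    rw [this]
  rw [mul_Hc_apply, h2]
  have h3 : mean ((Hc n * A) i) = mean (A i) - (∑ j, mean (A j)) / n := by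
    have e : (Hc n * A) i = fun j => A i j - mean (A j) := funext fun j => h2 i j
    rw [e, mean, mean, Finset.sum_sub_distrib, sub_div]
  rw [h3]
  ring

theorem Hc_Hc {n : ℕ} (hn : 0 < n) : Hc n * Hc n = Hc n := by
  apply mul_Hc
  rw [mulVec_one_eq]
  funext i
  have hn' : (n : ℝ) ≠ 0 := by exact_mod_cast hn.ne'
  simp [rowSum, Hc, Matrix.one_apply, vecMulVec_apply, hn']

theorem Hc_one {n : ℕ} (hn : 0 < n) : Hc n *ᵥ (fun _ => (1 : ℝ)) = 0 := by
  rw [mulVec_one_eq]
  funext i
  have hn' : (n : ℝ) ≠ 0 := by exact_mod_cast hn.ne'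
  simp [rowSum, Hc, Matrix.one_apply, vecMulVec_apply, hn']

theorem Hc4 (i j : Fin 4) : Hc 4 i j = (if i = j then 1 else 0) - 1 / 4 := by
  simp [Hc, Matrix.one_apply, vecMulVec_apply]

theorem trace_Hc4 : trace (Hc 4) = 3 := by
  simp only [trace, diag_apply, Hc4, Fin.sum_univ_four]
  norm_num

/-- The conclusion in the case of one level and rank two. -/
def OneCon (A : Matrix (Fin 4) (Fin 4) ℝ) : Prop :=
  ∃ x y T : ℝ, x ^ 2 + y ^ 2 = 1 ∧ T * (x ^ 2 + 8) = 16 ∧ A 0 1 = 1 - T * (1 - x) / 2 ∧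
    A 2 3 = 1 - T * (1 + x) / 2 ∧ A 0 2 = 1 - T * (3 + y) / 4 ∧ A 1 3 = 1 - T * (3 + y) / 4 ∧
    A 0 3 = 1 - T * (3 - y) / 4 ∧ A 1 2 = 1 - T * (3 - y) / 4

theorem Good.case1f (h : Good A d P) {f : Fin 4 → ℝ} (hff : f ⬝ᵥ f = 1)
    (h1 : f 1 = -f 0) (h3 : f 3 = -f 2)
    (hA : ∀ i j, i ≠ j → A i j = 1 - d 0 * d 0 + d 0 * d 0 * (f i - f j) ^ 2 / 2) :
    OneCon A := by
  have hTp : 0 < d 0 * d 0 := mul_pos (h.par.pos 0) (h.par.pos 0)
  set T := d 0 * d 0 with hT
  have a01 := hA 0 1 (by decide)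
  have a02 := hA 0 2 (by decide)
  have a03 := hA 0 3 (by decide)
  have a12 := hA 1 2 (by decide)
  have a13 := hA 1 3 (by decide)
  have a23 := hA 2 3 (by decide)
  rw [h1] at a01 a12 a13
  rw [h3] at a03 a13 a23
  have hab : f 0 ^ 2 + f 2 ^ 2 = 1 / 2 := by
    rw [dotProduct, Fin.sum_univ_four, h1, h3] at hff
    linarith
  have e0 := h.E4 0 0
  rw [h.diag, a01, a02, a03, ← hT] at e0
  have hfam := real_fam (a := f 0) (b := f 2) (T := T) hab hTp.ne' (by linear_combination e0)
  have hb : f 2 ^ 2 = 1 / 2 - f 0 ^ 2 := by linarith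
  refine ⟨4 * f 0 ^ 2 - 1, 4 * f 0 * f 2, T, ?_, ?_, ?_, ?_, ?_, ?_, ?_, ?_⟩
  · linear_combination 16 * f 0 ^ 2 * hab
  · linear_combination hfam + 16 * T * f 0 ^ 2 * hab
  · rw [a01]; ring
  · rw [a23]; linear_combination 2 * T * hab
  · rw [a02]; linear_combination T / 2 * hab
  · rw [a13]; linear_combination T / 2 * hab
  · rw [a03]; linear_combination T / 2 * hab
  · rw [a12]; linear_combination T / 2 * hab

theorem Good.case1 (h : Good A d P) (h01 : d 0 = d 1) (h02 : d 0 = d 2) (h03 : d 0 = d 3) :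
    (∃ y : Fin 4 → ℝ, ∃ T : ℝ, ∀ i j, A i j = T * (y i * y j)) ∨
    (∀ i j, i ≠ j → A i j = -1 / 3) ∨
    ∃ σ : Equiv.Perm (Fin 4), OneCon (A.submatrix σ σ) := by
  have hAT := isSymm_of_herm h.psd.isHermitian
  have hTp : 0 < d 0 * d 0 := mul_pos (h.par.pos 0) (h.par.pos 0)
  set T := d 0 * d 0 with hT
  have hTn : T ≠ 0 := hTp.ne'
  have hD : diagonal d = d 0 • (1 : Matrix (Fin 4) (Fin 4) ℝ) := by
    ext i j
    rw [diagonal_apply, Matrix.smul_apply, Matrix.one_apply]
    fin_cases i <;> fin_cases j <;> simp [← h01, ← h02, ← h03]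
  have hE : A * Hc 4 * A = T • A := by
    rw [h.eqn, hD, hT]
    simp [smul_smul]
  set H := Hc 4 with hH
  have hHH : H * H = H := Hc_Hc (by norm_num)
  have hHT : Hᵀ = H := Hc_T
  set G := H * A * H with hG
  have hGT : Gᵀ = G := by
    rw [hG, transpose_mul, transpose_mul, hHT, hAT, Matrix.mul_assoc]
  have hHG : H * G = G := by rw [hG, ← Matrix.mul_assoc, ← Matrix.mul_assoc, hHH]
  have hGH : G * H = G := by rw [hG, Matrix.mul_assoc, hHH]
  have hGG : G * G = T • G := by
    calc G * G = H * A * (H * H) * A * H := by rw [hG]; simp only [Matrix.mul_assoc]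
      _ = H * (A * H * A) * H := by rw [hHH]; simp only [Matrix.mul_assoc]
      _ = T • G := by rw [hE, hG]; simp
  set R : Matrix (Fin 4) (Fin 4) ℝ := T⁻¹ • G with hR
  have hGR : G = T • R := by rw [hR, smul_smul, mul_inv_cancel₀ hTn, one_smul]
  have hRT : Rᵀ = R := by rw [hR, transpose_smul, hGT]
  have hRR : R * R = R := by
    rw [hR, Matrix.smul_mul, Matrix.mul_smul, hGG, smul_smul, smul_smul, mul_assoc,
      inv_mul_cancel₀ hTn, mul_one]
  have hHR : H * R = R := by rw [hR, Matrix.mul_smul, hHG]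
  have hRH : R * H = R := by rw [hR, Matrix.smul_mul, hGH]
  set Q := H - R with hQ
  have hQT : Qᵀ = Q := by rw [hQ, transpose_sub, hHT, hRT]
  have hQQ : Q * Q = Q := by
    rw [hQ, Matrix.mul_sub, Matrix.sub_mul, Matrix.sub_mul, hHH, hRH, hHR, hRR]
    abel
  -- the entries of `A`
  have hent : ∀ i j, A i j = 1 + T * R i j - (T * R i i + T * R j j) / 2 := by
    obtain ⟨c, hc⟩ := centre_apply (n := 4) hAT
    intro i j
    have e : ∀ i j, T * R i j = A i j - mean (A i) - mean (A j) + c := fun i j => by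
      rw [← hc i j, ← hH, ← hG, hGR, Matrix.smul_apply, smul_eq_mul]
    rw [e, e, e, h.diag, h.diag]
    ring
  by_cases hQ0 : Q = 0
  · -- rank three
    right; left
    have hP : R = H := (sub_eq_zero.1 hQ0).symm
    have e1 : ∀ i j, i ≠ j → A i j = 1 - T := fun i j hij => by
      rw [hent, hP, hH, Hc4, Hc4, Hc4, if_neg hij, if_pos rfl, if_pos rfl]
      ring
    have e0 := h.E4 0 0
    rw [h.diag, e1 0 1 (by decide), e1 0 2 (by decide), e1 0 3 (by decide), ← hT] at e0
    have e2 : T * (3 * T - 4) = 0 := by linear_combination 4 * e0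
    have e3 : 3 * T - 4 = 0 := (mul_eq_zero.1 e2).resolve_left hTn
    intro i j hij
    rw [e1 i j hij]
    linarith
  · obtain ⟨f, hf, hQf, hs1, hi1⟩ := peel hQT hQQ hQ0
    by_cases hQ1 : Q - vecMulVec f f = 0
    · -- rank two
      right; right
      have hP : R = H - vecMulVec f f := by
        rw [← sub_eq_zero.1 hQ1, hQ, sub_sub_cancel]
      have hsum : f 0 + f 1 + f 2 + f 3 = 0 := by
        have e1 : (fun _ => (1 : ℝ)) ⬝ᵥ f = 0 := by
          have e2 : (fun _ => (1 : ℝ)) ᵥ* Q = 0 := by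
            rw [← mulVec_transpose, hQT, hQ, sub_mulVec, ← hRH, ← mulVec_mulVec, hH,
              Hc_one (by norm_num), mulVec_zero, sub_zero]
          rw [← hQf, dotProduct_mulVec, e2, zero_dotProduct]
        rw [← e1, dotProduct, Fin.sum_univ_four]
        ring
      have hff : f 0 ^ 2 + f 1 ^ 2 + f 2 ^ 2 + f 3 ^ 2 = 1 := by
        rw [← hf, dotProduct, Fin.sum_univ_four]; ring
      have e1 : ∀ i j, i ≠ j → A i j = 1 - T + T * (f i - f j) ^ 2 / 2 := fun i j hij => by
        rw [hent, hP, Matrix.sub_apply, Matrix.sub_apply, Matrix.sub_apply, vecMulVec_apply,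
          vecMulVec_apply, vecMulVec_apply, hH, Hc4, Hc4, Hc4, if_neg hij, if_pos rfl, if_pos rfl]
        ring
      -- `A f = 0`
      have hRf : R *ᵥ f = 0 := by
        have e2 : H *ᵥ f = f := by
          have e3 : H *ᵥ (Q *ᵥ f) = Q *ᵥ f := by
            rw [mulVec_mulVec, hQ, Matrix.mul_sub, hHH, hHR]
          rwa [hQf] at e3
        rw [hP, sub_mulVec, e2, vecMulVec_mulVec, hf]
        simp
      have hAf : A *ᵥ f = 0 := by
        have e2 : H *ᵥ f = f := by
          have e3 : H *ᵥ (Q *ᵥ f) = Q *ᵥ f := by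
            rw [mulVec_mulVec, hQ, Matrix.mul_sub, hHH, hHR]
          rwa [hQf] at e3
        have e3 : H *ᵥ (A *ᵥ f) = 0 := by
          have e4 : G *ᵥ f = 0 := by rw [hGR, smul_mulVec, hRf, smul_zero]
          rw [hG, ← mulVec_mulVec, e2, ← mulVec_mulVec] at e4
          exact e4
        have e4 : (A * H * A) *ᵥ f = 0 := by
          rw [← mulVec_mulVec, ← mulVec_mulVec, e3, mulVec_zero]
        rw [hE, smul_mulVec] at e4
        exact (smul_eq_zero.1 e4).resolve_left hTn
      have hcub : f 0 ^ 3 + f 1 ^ 3 + f 2 ^ 3 + f 3 ^ 3 = 0 := by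
        have e2 := congrFun hAf 0
        simp only [mulVec, dotProduct, Fin.sum_univ_four, Pi.zero_apply] at e2
        rw [h.diag, e1 0 1 (by decide), e1 0 2 (by decide), e1 0 3 (by decide)] at e2
        have e3 : T * (f 0 ^ 3 + f 1 ^ 3 + f 2 ^ 3 + f 3 ^ 3) = 0 := by
          linear_combination 2 * e2 + (-(2 - 2 * T) - T * f 0 ^ 2) * hsum + 2 * T * f 0 * hff
        exact (mul_eq_zero.1 e3).resolve_left hTn
      have hfac : (f 0 + f 1) * ((f 0 + f 2) * (f 0 + f 3)) = 0 := by
        have e2 : f 3 = -(f 0 + f 1 + f 2) := by linarith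
        rw [e2] at hcub ⊢
        linear_combination hcub / 3
      rcases mul_eq_zero.1 hfac with h5 | h5
      · refine ⟨1, ?_⟩
        exact h.case1f hf (by linarith) (by linarith) e1
      · rcases mul_eq_zero.1 h5 with h6 | h6
        · refine ⟨Equiv.swap 1 2, ?_⟩
          refine (h.perm (Equiv.swap 1 2)).case1f (f := f ∘ Equiv.swap 1 2) ?_ ?_ ?_ ?_
          · rw [← hf, dotProduct, dotProduct]
            exact Equiv.sum_comp (Equiv.swap 1 2) fun i => f i * f i
          · change f 2 = -f 0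
            linarith
          · change f 3 = -f 1
            linarith
          · intro i j hij
            exact e1 _ _ fun hc => hij ((Equiv.swap 1 2).injective hc)
        · refine ⟨Equiv.swap 1 3, ?_⟩
          refine (h.perm (Equiv.swap 1 3)).case1f (f := f ∘ Equiv.swap 1 3) ?_ ?_ ?_ ?_
          · rw [← hf, dotProduct, dotProduct]
            exact Equiv.sum_comp (Equiv.swap 1 3) fun i => f i * f i
          · change f 3 = -f 0
            linarith
          · change f 1 = -f 2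
            linarith
          · intro i j hij
            exact e1 _ _ fun hc => hij ((Equiv.swap 1 3).injective hc)
    · -- rank one
      left
      obtain ⟨w, hw, -, hs2, hi2⟩ := peel hs1 hi1 hQ1
      have hR0 : R ≠ 0 := by
        intro h0
        have e1 : ∀ i j, A i j = 1 := fun i j => by
          rw [hent, h0]; simp
        have e0 := h.E4 0 0
        rw [e1, e1, e1, e1, ← hT] at e0
        linarith
      obtain ⟨g, hg, -, hs3, hi3⟩ := peel hRT hRR hR0
      have ht2 := trace_nonneg' hs2 hi2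
      have h0 : R - vecMulVec g g = 0 := by
        apply eq_zero_of_trace hs3 hi3
        rw [trace_sub, trace_sub, hQ, trace_sub, hH, trace_Hc4, trace_vecMulVec, trace_vecMulVec,
          hf, hw] at ht2
        rw [trace_sub, trace_vecMulVec, hg]
        linarith
      have hP : R = vecMulVec g g := sub_eq_zero.1 h0
      refine ⟨A *ᵥ g, T⁻¹, fun i j => ?_⟩
      have e1 : A * G * A = (T * T) • A := by
        calc A * G * A = (A * H * A) * H * A := by rw [hG]; simp only [Matrix.mul_assoc]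
          _ = (T * T) • A := by
            rw [hE, Matrix.smul_mul, Matrix.smul_mul, hE, smul_smul]
      have e2 : A * G * A = T • vecMulVec (A *ᵥ g) (A *ᵥ g) := by
        rw [hGR, hP, Matrix.mul_smul, Matrix.smul_mul, mul_vecMulVec, vecMulVec_mul]
        congr 2
        rw [← mulVec_transpose, hAT]
      have e3 : T * T * A i j = T * ((A *ᵥ g) i * (A *ᵥ g) j) := by
        have := congrFun (congrFun (e1.symm.trans e2) i) j
        simpa [vecMulVec_apply] using this
      have e4 : T * (T * A i j - (A *ᵥ g) i * (A *ᵥ g) j) = 0 := by linear_combination e3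
      have e5 := (mul_eq_zero.1 e4).resolve_left hTn
      field_simp
      linarith

end Pool.Agent.MPf2d8fc
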