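import Mathlib
import Pool.Agent.Lib.MP_f2d8fc_an.OrderFourCases

/-!
# Fixed points of the iterated Pearson correlation map for `n = 4`: a level of size three
-/

open Matrix

namespace Pool.Agent.MPf2d8fc

variable {A : Matrix (Fin 4) (Fin 4) ℝ} {d : Fin 4 → ℝ} {P : Matrix (Fin 4) (Fin 4) ℝ}

theorem Good.sq_le (h : Good A d P) (i j : Fin 4) : A i j * A i j ≤ 1 := by
  set ε := A i j with he
  set x : Fin 4 → ℝ := Pi.single i 1 - ε • Pi.single j 1 with hx
  have hAx : A *ᵥ x = fun k => A k i - ε * A k j := by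
    funext k
    rw [hx, mulVec_sub, mulVec_smul]
    simp
  have h2 : x ⬝ᵥ (A *ᵥ x) = 1 - ε * ε := by
    rw [hAx, hx, sub_dotProduct, smul_dotProduct]
    simp only [single_one_dotProduct, smul_eq_mul]
    rw [h.diag, h.diag, h.sym j i, ← he]
    ring
  have h3 := (psd_iff.1 h.psd).2 x
  rw [h2] at h3
  linarith

theorem Good.AP (h : Good A d P) : A * P = A := by
  have := congrArg transpose h.PA
  rwa [transpose_mul, isSymm_of_herm h.psd.isHermitian, h.par.symm] at this

theorem Good.ker_vec (h : Good A d P) {v : Fin 4 → ℝ} (hv : (1 - P) *ᵥ v = v) : A *ᵥ v = 0 := by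
  rw [← hv, mulVec_mulVec, Matrix.mul_sub, Matrix.mul_one, h.AP, sub_self, zero_mulVec]

theorem eq_of_sq {x y : ℝ} (hx : 0 < x) (hy : 0 < y) (h : x * x = y * y) : x = y := by
  have h4 : (x - y) * (x + y) = 0 := by linear_combination h
  rcases mul_eq_zero.1 h4 with h7 | h7
  · linarith
  · linarith

theorem Good.case2b (h : Good A d P) (h02 : d 0 = d 2)
    (h03 : d 0 ≠ d 3) (p03 : P 0 3 = 0) (p13 : P 1 3 = 0) (p23 : P 2 3 = 0)
    (p02 : P 0 2 = 0) (p12 : P 1 2 = 0) : False := by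
  have q2 : rowSum P 2 = 1 := (h.single (i := 2) fun k hk => by
    fin_cases k
    · exact (h.psym 2 0).trans p02
    · exact (h.psym 2 1).trans p12
    · exact absurd rfl hk
    · exact p23).2
  have q3 : rowSum P 3 = 1 := (h.single (i := 3) fun k hk => by
    fin_cases k
    · exact (h.psym 3 0).trans p03
    · exact (h.psym 3 1).trans p13
    · exact (h.psym 3 2).trans p23
    · exact absurd rfl hk).2
  have hne : rowSum P 0 ≠ 1 ∨ rowSum P 1 ≠ 1 := by
    rcases h.ne4 with h1 | h1 | h1 | h1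
    · exact Or.inl h1
    · exact Or.inr h1
    · exact absurd q2 h1
    · exact absurd q3 h1
  obtain ⟨a1, q0, q1⟩ := h.pair (i := 0) (j := 1) (by decide)
    (fun k hk hk' => by
      fin_cases k
      · exact absurd rfl hk
      · exact absurd rfl hk'
      · exact p02
      · exact p03)
    (fun k hk hk' => by
      fin_cases k
      · exact absurd rfl hk
      · exact absurd rfl hk'
      · exact p12
      · exact p13) hne
  have a02 := h.iso q0 p02
  have a03 := h.iso q0 p03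
  have a12 := h.iso q1 p12
  have a13 := h.iso q1 p13
  have e2 := h.E4 2 2
  have e3 := h.E4 3 3
  rw [h.sym 2 0, h.sym 2 1, a02, a12, h.diag, ← h02] at e2
  rw [h.sym 3 0, h.sym 3 1, h.sym 3 2, a03, a13, h.diag] at e3
  exact h03 (eq_of_sq (h.par.pos 0) (h.par.pos 3) (by linear_combination e3 - e2))

/-- Three parallel rows. -/
theorem Good.case2c (h : Good A d P) (h03 : d 0 ≠ d 3)
    (a01 : A 0 1 = 1) (a02 : A 0 2 = -1) :
    A 1 2 = -1 ∧ A 1 3 = A 0 3 ∧ A 2 3 = -A 0 3 ∧
      33 * A 0 3 ^ 4 - 28 * A 0 3 ^ 3 + 166 * A 0 3 ^ 2 - 28 * A 0 3 + 1 = 0 ∧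
      A 0 3 ^ 2 + 1 < 14 * A 0 3 := by
  have a12 : A 1 2 = -1 := by
    have := h.rows a01 (by norm_num) 2
    rw [h.sym 2 0, h.sym 2 1, a02] at this
    linarith
  have a13 : A 1 3 = A 0 3 := by
    have := h.rows a01 (by norm_num) 3
    rw [h.sym 3 0, h.sym 3 1] at this
    linarith
  have a23 : A 2 3 = -A 0 3 := by
    have := h.rows a02 (by norm_num) 3
    rw [h.sym 3 0, h.sym 3 2] at this
    linarith
  refine ⟨a12, a13, a23, ?_⟩
  have e0 := h.E4 0 0
  have e3 := h.E4 0 3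
  have e33 := h.E4 3 3
  rw [h.diag, a01, a02] at e0
  rw [h.diag, h.diag, a01, a02, h.sym 3 0, h.sym 3 1, h.sym 3 2, a13, a23] at e3
  rw [h.diag, h.sym 3 0, h.sym 3 1, h.sym 3 2, a13, a23] at e33
  exact real_two (h.par.pos 0) (h.par.pos 3) h03 (by linear_combination e0)
    (by linear_combination e3) (by linear_combination e33)

theorem Good.case2d (h : Good A d P) (h01 : d 0 = d 1) (h02 : d 0 = d 2) {v : Fin 4 → ℝ}
    (hP : P = 1 - vecMulVec v v) (h3 : v 3 = 0) (h0 : v 0 ≠ 0)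
    (h2 : v 2 ≠ 0) (hv : v ⬝ᵥ v = 1) (he : v 0 = v 1) :
    A 0 1 = -1 / 2 ∧ A 0 2 = -1 / 2 ∧ A 1 2 = -1 / 2 ∧ A 0 3 = 0 ∧ A 1 3 = 0 ∧ A 2 3 = 0 := by
  have hPe : ∀ i j, P i j = (if i = j then 1 else 0) - v i * v j := fun i j => by
    rw [hP, Matrix.sub_apply, Matrix.one_apply, vecMulVec_apply]
  have hQv : (1 - P) *ᵥ v = v := by
    rw [hP, sub_sub_cancel, vecMulVec_mulVec, hv]
    simp
  have hAv := h.ker_vec hQv
  have hrow : ∀ i, A i 0 * v 0 + A i 1 * v 1 + A i 2 * v 2 + A i 3 * v 3 = 0 := fun i => by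
    have := congrFun hAv i
    simpa [mulVec, dotProduct, Fin.sum_univ_four] using this
  have hx : ∀ x : Fin 4 → ℝ, P *ᵥ x = 0 → x = (v ⬝ᵥ x) • v := fun x hx => by
    rw [hP, sub_mulVec, one_mulVec, vecMulVec_mulVec, sub_eq_zero] at hx
    conv_lhs => rw [hx]
    funext i
    simp [mul_comm]
  -- no two rows are proportional
  have hnp : ∀ i j k : Fin 4, i ≠ j → (v k ≠ 0 ∧ k ≠ i ∧ k ≠ j ∨ v j = 0) → A i j * A i j ≠ 1 := by
    intro i j k hij hk h1
    set ε := A i j with he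
    set x : Fin 4 → ℝ := Pi.single i 1 - ε • Pi.single j 1 with hxd
    have hAx : A *ᵥ x = fun k => A k i - ε * A k j := by
      funext k
      rw [hxd, mulVec_sub, mulVec_smul]
      simp
    have h2 : x ⬝ᵥ (A *ᵥ x) = 1 - ε * ε := by
      rw [hAx, hxd, sub_dotProduct, smul_dotProduct]
      simp only [single_one_dotProduct, smul_eq_mul]
      rw [h.diag, h.diag, h.sym j i, ← he]
      ring
    have h3 := hx x (h.ker x (by rw [h2, h1]; ring))
    rcases hk with ⟨hk1, hk2, hk3⟩ | hk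
    · have h4 := congrFun h3 k
      have h5 : x k = 0 := by
        rw [hxd]; simp [hk2, hk3]
      rw [h5, Pi.smul_apply, smul_eq_mul] at h4
      have h6 : v ⬝ᵥ x = 0 := by
        rcases mul_eq_zero.1 h4.symm with h7 | h7
        · exact h7
        · exact absurd h7 hk1
      have h7 := congrFun h3 i
      rw [h6, zero_smul, hxd] at h7
      simp [hij] at h7
    · have h4 := congrFun h3 j
      rw [Pi.smul_apply, hk, smul_zero, hxd] at h4
      have h5 : ε = 0 := by
        simpa [Ne.symm hij] using h4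
      rw [h5] at h1
      norm_num at h1
  obtain ⟨X, hX⟩ := h.form
  have hq : ∀ i, rowSum P i = 1 - (∑ j, v j) * v i := fun i => by
    simp only [rowSum, hPe, Finset.sum_sub_distrib]
    rw [Finset.sum_mul]
    simp [mul_comm]
  have a12 : A 1 2 = A 0 2 := by
    rw [hX, hX, hPe, hPe, hq, hq, hq, ← he, h01]
    simp
  have a13 : A 1 3 = A 0 3 := by
    rw [hX, hX, hPe, hPe, hq, hq, hq, ← he, h01]
    simp
  have r0 := hrow 0
  have r2 := hrow 2
  have r3 := hrow 3
  rw [h.diag, h3, ← he] at r0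
  rw [h.diag, h3, ← he, h.sym 2 0, h.sym 2 1, a12] at r2
  rw [h3, ← he, h.sym 3 0, h.sym 3 1, h.sym 3 2, a13] at r3
  have e00 := h.E4 0 0
  have e01 := h.E4 0 1
  have e22 := h.E4 2 2
  have e23 := h.E4 2 3
  have e33 := h.E4 3 3
  rw [h.diag] at e00
  rw [h.diag, h.diag, h.sym 1 0, a12, a13, ← h01] at e01
  rw [h.diag, h.sym 2 0, h.sym 2 1, a12, ← h02] at e22
  rw [h.diag, h.diag, h.sym 2 0, h.sym 2 1, a12, h.sym 3 0, h.sym 3 1, h.sym 3 2, a13, ← h02] at e23
  rw [h.diag, h.sym 3 0, h.sym 3 1, h.sym 3 2, a13] at e33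
  have ha : A 0 1 < 1 := by
    have h4 := h.sq_le 0 1
    have h5 := hnp 0 1 2 (by decide) (Or.inl ⟨h2, by decide, by decide⟩)
    by_contra hc
    push Not at hc
    apply h5
    nlinarith
  have hg : A 2 3 ^ 2 < 1 := by
    have h4 := h.sq_le 2 3
    have h5 := hnp 2 3 0 (by decide) (Or.inr h3)
    rw [pow_two]
    exact lt_of_le_of_ne h4 h5
  obtain ⟨z1, z2, z3, z4⟩ := real_three (a := A 0 1) (b := A 0 2) (c := A 0 3) (g := A 2 3)
    (t := d 0) (s := d 3) (x := v 0) (y := v 2)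
    (by linear_combination r0) (by linear_combination r2) (by linear_combination r3)
    h0 (by linear_combination e00) (by linear_combination e01) (by linear_combination e22)
    (by linear_combination e23) (by linear_combination e33) ha hg
  exact ⟨z1, z2, a12.trans z2, z3, a13.trans z3, z4⟩

/-- The conclusion for a level of size three. -/
def TwoCon (A : Matrix (Fin 4) (Fin 4) ℝ) : Prop :=
  A 0 1 = 1 ∧ A 0 2 = -1 ∧ A 1 2 = -1 ∧ A 1 3 = A 0 3 ∧ A 2 3 = -A 0 3 ∧
    33 * A 0 3 ^ 4 - 28 * A 0 3 ^ 3 + 166 * A 0 3 ^ 2 - 28 * A 0 3 + 1 = 0 ∧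
    A 0 3 ^ 2 + 1 < 14 * A 0 3

theorem Good.case2 (h : Good A d P) (h01 : d 0 = d 1) (h02 : d 0 = d 2) (h03 : d 0 ≠ d 3) :
    (A 0 1 = -1 / 2 ∧ A 0 2 = -1 / 2 ∧ A 1 2 = -1 / 2 ∧ A 0 3 = 0 ∧ A 1 3 = 0 ∧ A 2 3 = 0) ∨
    ∃ σ : Equiv.Perm (Fin 4), TwoCon (A.submatrix σ σ) := by
  have p03 : P 0 3 = 0 := h.par.blk _ _ h03
  have p13 : P 1 3 = 0 := h.par.blk _ _ (h01 ▸ h03)
  have p23 : P 2 3 = 0 := h.par.blk _ _ (h02 ▸ h03)
  have p33 : P 3 3 = 1 := (h.single (i := 3) fun k hk => by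
    fin_cases k
    · exact (h.psym 3 0).trans p03
    · exact (h.psym 3 1).trans p13
    · exact (h.psym 3 2).trans p23
    · exact absurd rfl hk).1
  set Q : Matrix (Fin 4) (Fin 4) ℝ := 1 - P with hQ
  have hQT : Qᵀ = Q := h.par.Q_T
  have hQQ : Q * Q = Q := h.par.QQ
  have hQ0 : Q ≠ 0 := by
    intro h0
    apply h.par.ne
    intro i
    have h1 : P = 1 := (sub_eq_zero.1 h0).symm
    rw [h1, rowSum]
    simp [Matrix.one_apply]
  have hQ3 : ∀ k, Q 3 k = 0 := by
    intro k
    rw [hQ, Matrix.sub_apply, Matrix.one_apply]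
    fin_cases k
    · simpa using (h.psym 3 0).trans p03
    · simpa using (h.psym 3 1).trans p13
    · simpa using (h.psym 3 2).trans p23
    · simp [p33]
  have hv3 : ∀ v : Fin 4 → ℝ, Q *ᵥ v = v → v 3 = 0 := by
    intro v hv
    have := congrFun hv 3
    rw [← this, mulVec, dotProduct]
    exact Finset.sum_eq_zero fun k _ => by rw [hQ3, zero_mul]
  obtain ⟨v, hv, hQv, hs1, hi1⟩ := peel hQT hQQ hQ0
  have v3 := hv3 v hQv
  have hvv : v 0 ^ 2 + v 1 ^ 2 + v 2 ^ 2 = 1 := by
    rw [← hv, dotProduct, Fin.sum_univ_four, v3]; ring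
  by_cases hQ1 : Q - vecMulVec v v = 0
  · -- rank one
    left
    have hP : P = 1 - vecMulVec v v := by
      rw [← sub_eq_zero.1 hQ1, hQ, sub_sub_cancel]
    have hPe : ∀ i j, P i j = (if i = j then 1 else 0) - v i * v j := fun i j => by
      rw [hP, Matrix.sub_apply, Matrix.one_apply, vecMulVec_apply]
    have hPs : ∀ σ : Equiv.Perm (Fin 4),
        P.submatrix σ σ = 1 - vecMulVec (v ∘ σ) (v ∘ σ) := by
      intro σ
      ext i j
      rw [submatrix_apply, hPe, Matrix.sub_apply, Matrix.one_apply, vecMulVec_apply]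
      simp
    have hvs : ∀ σ : Equiv.Perm (Fin 4), (v ∘ σ) ⬝ᵥ (v ∘ σ) = 1 := by
      intro σ
      rw [← hv, dotProduct, dotProduct]
      exact Equiv.sum_comp σ fun i => v i * v i
    have n2 : v 2 ≠ 0 := by
      intro h2
      exact h.case2b h02 h03 p03 p13 p23 (by rw [hPe, h2]; simp) (by rw [hPe, h2]; simp)
    have n1 : v 1 ≠ 0 := by
      intro h1
      refine (h.perm (Equiv.swap 1 2)).case2b ?_ ?_ ?_ ?_ ?_ ?_ ?_
      · exact h01
      · exact h03
      · exact p03
      · exact p23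
      · exact p13
      · change P 0 1 = 0
        rw [hPe, h1]; simp
      · change P 2 1 = 0
        rw [hPe, h1]; simp
    have n0 : v 0 ≠ 0 := by
      intro h0
      refine (h.perm (Equiv.swap 0 2)).case2b ?_ ?_ ?_ ?_ ?_ ?_ ?_
      · exact h02.symm
      · exact (h02 ▸ h03 : d 2 ≠ d 3)
      · exact p23
      · exact p13
      · exact p03
      · change P 2 0 = 0
        rw [hPe, h0]; simp
      · change P 1 0 = 0
        rw [hPe, h0]; simp
    obtain ⟨X, hX⟩ := h.form
    have hq : ∀ i, rowSum P i = 1 - (∑ j, v j) * v i := fun i => by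
      simp only [rowSum, hPe, Finset.sum_sub_distrib]
      rw [Finset.sum_mul]
      simp [mul_comm]
    have hd : ∀ i : Fin 4, d i = d 0 →
        (d 0 * d 0) * (1 - v i * v i) + (1 - (∑ j, v j) * v i) ^ 2 * X (d 0) (d 0) = 1 := by
      intro i hi
      have := hX i i
      rw [h.diag, hPe, hq, if_pos rfl, hi] at this
      linear_combination -this
    rcases real_quad (mul_pos (h.par.pos 0) (h.par.pos 0)).ne' (hd 0 rfl) (hd 1 h01.symm)
      (hd 2 h02.symm) with h5 | h5 | h5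
    · exact h.case2d h01 h02 hP v3 n0 n2 hv h5
    · obtain ⟨z1, z2, z3, z4, z5, z6⟩ := (h.perm (Equiv.swap 1 2)).case2d (v := v ∘ Equiv.swap 1 2)
        h02 h01 (hPs _) v3 n0 n1 (hvs _) h5
      refine ⟨z2, z1, ?_, z4, z6, z5⟩
      rw [h.sym 1 2]; exact z3
    · obtain ⟨z1, z2, z3, z4, z5, z6⟩ := (h.perm (Equiv.swap 0 2)).case2d (v := v ∘ Equiv.swap 0 2)
        (h02.symm.trans h01) h02.symm (hPs _) v3 n2 n0 (hvs _) h5.symm
      refine ⟨?_, ?_, ?_, z6, z5, z4⟩
      · rw [h.sym 0 1]; exact z3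
      · rw [h.sym 0 2]; exact z2
      · rw [h.sym 1 2]; exact z1
  · -- rank at least two
    right
    obtain ⟨w, hw, hQw, -, -⟩ := peel hs1 hi1 hQ1
    have hvw : v ⬝ᵥ w = 0 := by
      have e1 : v ᵥ* (Q - vecMulVec v v) = 0 := by
        rw [vecMul_sub, ← mulVec_transpose, hQT, hQv, vecMul_vecMulVec, hv, one_smul, sub_self]
      rw [← hQw, dotProduct_mulVec, e1, zero_dotProduct]
    have hQw' : Q *ᵥ w = w := by
      have := hQw
      rw [sub_mulVec, vecMulVec_mulVec, hvw] at this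
      simpa using this
    have w3 := hv3 w hQw'
    have hww : w 0 ^ 2 + w 1 ^ 2 + w 2 ^ 2 = 1 := by
      rw [← hw, dotProduct, Fin.sum_univ_four, w3]; ring
    have hvw' : v 0 * w 0 + v 1 * w 1 + v 2 * w 2 = 0 := by
      rw [← hvw, dotProduct, Fin.sum_univ_four, v3]; ring
    have hrow : ∀ u : Fin 4 → ℝ, Q *ᵥ u = u → ∀ i,
        A i 0 * u 0 + A i 1 * u 1 + A i 2 * u 2 = 0 := fun u hu i => by
      have h1 := congrFun (h.ker_vec hu) i
      have h2 := hv3 u hu
      simp only [mulVec, dotProduct, Fin.sum_univ_four, Pi.zero_apply] at h1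
      rw [h2] at h1
      linarith
    have rv0 := hrow v hQv 0
    have rv1 := hrow v hQv 1
    have rv2 := hrow v hQv 2
    have rw0 := hrow w hQw' 0
    have rw1 := hrow w hQw' 1
    have rw2 := hrow w hQw' 2
    rw [h.diag] at rv0 rv1 rv2 rw0 rw1 rw2
    rw [h.sym 1 0] at rv1 rw1
    rw [h.sym 2 0, h.sym 2 1] at rv2 rw2
    have s01 : A 0 1 * A 0 1 = 1 := real_sq (b := A 0 2) (e := A 1 2) (vi := v 0) (vj := v 1)
      (vk := v 2) (wi := w 0) (wj := w 1) (wk := w 2) (by linear_combination rv0)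
      (by linear_combination rv1) (by linear_combination rw0) (by linear_combination rw1)
      hvv hww hvw'
    have s02 : A 0 2 * A 0 2 = 1 := real_sq (b := A 0 1) (e := A 1 2) (vi := v 0) (vj := v 2)
      (vk := v 1) (wi := w 0) (wj := w 2) (wk := w 1) (by linear_combination rv0)
      (by linear_combination rv2) (by linear_combination rw0) (by linear_combination rw2)
      (by linear_combination hvv) (by linear_combination hww) (by linear_combination hvw')
    have hpm : ∀ x : ℝ, x * x = 1 → x = 1 ∨ x = -1 := fun x hx => by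
      have : (x - 1) * (x + 1) = 0 := by linear_combination hx
      rcases mul_eq_zero.1 this with h1 | h1
      · left; linarith
      · right; linarith
    rcases hpm _ s01 with a01 | a01 <;> rcases hpm _ s02 with a02 | a02
    · exfalso
      have a12 : A 1 2 = 1 := by
        have := h.rows a01 (by norm_num) 2
        rw [h.sym 2 0, h.sym 2 1, a02] at this
        linarith
      have a13 : A 1 3 = A 0 3 := by
        have := h.rows a01 (by norm_num) 3
        rw [h.sym 3 0, h.sym 3 1] at this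
        linarith
      have a23 : A 2 3 = A 0 3 := by
        have := h.rows a02 (by norm_num) 3
        rw [h.sym 3 0, h.sym 3 2] at this
        linarith
      have e0 := h.E4 0 0
      have e3 := h.E4 3 3
      rw [h.diag, a01, a02] at e0
      rw [h.diag, h.sym 3 0, h.sym 3 1, h.sym 3 2, a13, a23] at e3
      exact h03 (eq_of_sq (h.par.pos 0) (h.par.pos 3) (by linear_combination e3 - e0))
    · refine ⟨1, ?_⟩
      obtain ⟨z1, z2, z3, z4, z5⟩ := h.case2c h03 a01 a02
      exact ⟨a01, a02, z1, z2, z3, z4, z5⟩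
    · refine ⟨Equiv.swap 1 2, ?_⟩
      have h' := h.perm (Equiv.swap 1 2)
      obtain ⟨z1, z2, z3, z4, z5⟩ := h'.case2c h03 a02 a01
      exact ⟨a02, a01, z1, z2, z3, z4, z5⟩
    · refine ⟨Equiv.swap 0 2, ?_⟩
      have h' := h.perm (Equiv.swap 0 2)
      have a21 : A 2 1 = 1 := by
        have := h.rows a01 (by norm_num) 2
        rw [h.sym 2 0, a02] at this
        linarith
      have a20 : A 2 0 = -1 := by rw [h.sym 2 0, a02]
      obtain ⟨z1, z2, z3, z4, z5⟩ := h'.case2c (h02 ▸ h03 : d 2 ≠ d 3) a21 a20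
      exact ⟨a21, a20, z1, z2, z3, z4, z5⟩

end Pool.Agent.MPf2d8fc
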