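import Mathlib
import Pool.Agent.Lib.MP_f2d8fc_an.OrderFourOne
import Pool.Agent.Lib.MP_f2d8fc_an.OrderFourTwo

/-!
# Fixed points of the iterated Pearson correlation map for `n = 4`: the list
-/

open Matrix

namespace Pool.Agent.MPf2d8fc

/-- The matrices `v vᵀ` with `v` a nonconstant vector of signs. -/
def SignRankOne (A : Matrix (Fin 4) (Fin 4) ℝ) : Prop :=
  ∃ v : Fin 4 → ℝ, (∀ i, v i = 1 ∨ v i = -1) ∧ (∃ i j, v i ≠ v j) ∧ A = vecMulVec v v

/-- The list: a one-parameter family, indexed by the points `(x, y)` of the unit circle, and five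
further matrices. -/
def Listed (M : Matrix (Fin 4) (Fin 4) ℝ) : Prop :=
  (∃ x y : ℝ, x ^ 2 + y ^ 2 = 1 ∧
    M = !![1, x * (x + 8) / (x ^ 2 + 8), -(1 + y) / (3 - y), -(1 - y) / (3 + y);
          x * (x + 8) / (x ^ 2 + 8), 1, -(1 - y) / (3 + y), -(1 + y) / (3 - y);
          -(1 + y) / (3 - y), -(1 - y) / (3 + y), 1, x * (x - 8) / (x ^ 2 + 8);
          -(1 - y) / (3 + y), -(1 + y) / (3 - y), x * (x - 8) / (x ^ 2 + 8), 1]) ∨
  (∃ c : ℝ, 33 * c ^ 4 - 28 * c ^ 3 + 166 * c ^ 2 - 28 * c + 1 = 0 ∧ c ^ 2 + 1 < 14 * c ∧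
    M = !![1, 1, -1, c; 1, 1, -1, c; -1, -1, 1, -c; c, c, -c, 1]) ∨
  M = !![1, -1, 0, 0; -1, 1, 0, 0; 0, 0, 1, 1; 0, 0, 1, 1] ∨
  M = !![1, -1, 0, 0; -1, 1, 0, 0; 0, 0, 1, 1 / 3; 0, 0, 1 / 3, 1] ∨
  M = !![1, -1 / 2, -1 / 2, 0; -1 / 2, 1, -1 / 2, 0; -1 / 2, -1 / 2, 1, 0; 0, 0, 0, 1] ∨
  M = !![1, -1 / 3, -1 / 3, -1 / 3; -1 / 3, 1, -1 / 3, -1 / 3; -1 / 3, -1 / 3, 1, -1 / 3;
        -1 / 3, -1 / 3, -1 / 3, 1]

/-- The conclusion of the classification. -/
def Con (A : Matrix (Fin 4) (Fin 4) ℝ) : Prop :=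
  SignRankOne A ∨ ∃ σ : Equiv.Perm (Fin 4), Listed (A.submatrix σ σ)

theorem con_perm {A : Matrix (Fin 4) (Fin 4) ℝ} (σ : Equiv.Perm (Fin 4))
    (h : Con (A.submatrix σ σ)) : Con A := by
  rcases h with ⟨v, hv, ⟨i, j, hij⟩, hA⟩ | ⟨τ, hτ⟩
  · left
    refine ⟨fun k => v (σ.symm k), fun k => hv _, ⟨σ i, σ j, by simpa using hij⟩, ?_⟩
    ext k l
    have := congrFun (congrFun hA (σ.symm k)) (σ.symm l)
    rw [submatrix_apply, Equiv.apply_symm_apply, Equiv.apply_symm_apply] at this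
    rw [this, vecMulVec_apply, vecMulVec_apply]
  · right
    exact ⟨σ * τ, hτ⟩

variable {A : Matrix (Fin 4) (Fin 4) ℝ} {d : Fin 4 → ℝ} {P : Matrix (Fin 4) (Fin 4) ℝ}

theorem Good.eq_entries (h : Good A d P) {a b c e f g : ℝ} (h1 : A 0 1 = a) (h2 : A 0 2 = b)
    (h3 : A 0 3 = c) (h4 : A 1 2 = e) (h5 : A 1 3 = f) (h6 : A 2 3 = g) :
    A = !![1, a, b, c; a, 1, e, f; b, e, 1, g; c, f, g, 1] := by
  ext i j
  fin_cases i <;> fin_cases j
  · exact h.diag 0
  · exact h1
  · exact h2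
  · exact h3
  · exact (h.sym 1 0).trans h1
  · exact h.diag 1
  · exact h4
  · exact h5
  · exact (h.sym 2 0).trans h2
  · exact (h.sym 2 1).trans h4
  · exact h.diag 2
  · exact h6
  · exact (h.sym 3 0).trans h3
  · exact (h.sym 3 1).trans h5
  · exact (h.sym 3 2).trans h6
  · exact h.diag 3

theorem Good.con1 (h : Good A d P) (h01 : d 0 = d 1) (h02 : d 0 = d 2) (h03 : d 0 = d 3) :
    Con A := by
  rcases h.case1 h01 h02 h03 with ⟨y, T, hy⟩ | h1 | ⟨σ, x, y, T, hxy, hT, b1, b2, b3, b4, b5, b6⟩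
  · left
    have hv : ∀ i, A 0 i * A 0 i = 1 := fun i => by
      have h0 := hy 0 0
      have hi := hy i i
      rw [h.diag] at h0 hi
      rw [hy 0 i]
      calc T * (y 0 * y i) * (T * (y 0 * y i)) = (T * (y 0 * y 0)) * (T * (y i * y i)) := by ring
        _ = 1 := by rw [← h0, ← hi]; norm_num
    refine ⟨A 0, fun i => ?_, ?_, ?_⟩
    · have : (A 0 i - 1) * (A 0 i + 1) = 0 := by linear_combination hv i
      rcases mul_eq_zero.1 this with h1 | h1
      · left; linarith
      · right; linarith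
    · by_contra hc
      push Not at hc
      have e0 := h.E4 0 0
      rw [hc 1 0, hc 2 0, hc 3 0, h.diag] at e0
      have := mul_pos (h.par.pos 0) (h.par.pos 0)
      linarith
    · ext i j
      have h0 := hy 0 0
      rw [h.diag] at h0
      rw [vecMulVec_apply, hy i j, hy 0 i, hy 0 j]
      linear_combination T * y i * y j * h0
  · right
    refine ⟨1, Or.inr (Or.inr (Or.inr (Or.inr (Or.inr ?_))))⟩
    exact h.eq_entries (h1 0 1 (by decide)) (h1 0 2 (by decide)) (h1 0 3 (by decide))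
      (h1 1 2 (by decide)) (h1 1 3 (by decide)) (h1 2 3 (by decide))
  · right
    refine ⟨σ, Or.inl ⟨x, y, hxy, ?_⟩⟩
    have hx : 0 < x ^ 2 + 8 := by positivity
    have hy2 : y ^ 2 ≤ 1 := by nlinarith [sq_nonneg x]
    have hy3 : 0 < 3 - y := by nlinarith
    have hy4 : 0 < 3 + y := by nlinarith
    have hTe : T = 16 / (x ^ 2 + 8) := by field_simp; linarith
    have hx2 : x ^ 2 + 8 = (3 - y) * (3 + y) := by linear_combination hxy
    refine (h.perm σ).eq_entries (b1.trans ?_) (b3.trans ?_) (b5.trans ?_) (b6.trans ?_)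
      (b4.trans ?_) (b2.trans ?_)
    · rw [hTe]; field_simp; ring
    · rw [hTe, hx2]; field_simp; ring
    · rw [hTe, hx2]; field_simp; ring
    · rw [hTe, hx2]; field_simp; ring
    · rw [hTe, hx2]; field_simp; ring
    · rw [hTe]; field_simp; ring

theorem Good.con2 (h : Good A d P) (h01 : d 0 = d 1) (h02 : d 0 = d 2) (h03 : d 0 ≠ d 3) :
    Con A := by
  right
  rcases h.case2 h01 h02 h03 with ⟨z1, z2, z3, z4, z5, z6⟩ | ⟨σ, z1, z2, z3, z4, z5, z6, z7⟩
  · exact ⟨1, Or.inr (Or.inr (Or.inr (Or.inr (Or.inl (h.eq_entries z1 z2 z4 z3 z5 z6)))))⟩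
  · exact ⟨σ, Or.inr (Or.inl ⟨_, z6, z7, (h.perm σ).eq_entries z1 z2 rfl z3 z4 z5⟩)⟩

theorem Good.con3 (h : Good A d P) (h01 : d 0 = d 1) (h23 : d 2 = d 3) (h02 : d 0 ≠ d 2) :
    Con A := by
  have key : ∀ {B : Matrix (Fin 4) (Fin 4) ℝ} {d : Fin 4 → ℝ} {P : Matrix (Fin 4) (Fin 4) ℝ},
      Good B d P → d 0 = d 1 → d 2 = d 3 → d 0 ≠ d 2 → (rowSum P 0 ≠ 1 ∨ rowSum P 1 ≠ 1) →
        Con B := by
    intro B d P h h01 h23 h02 hne
    obtain ⟨z1, z2, z3, z4, z5, z6⟩ := h.case3a h02 h01 h23 hne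
    right
    rcases z6 with z6 | z6
    · exact ⟨1, Or.inr (Or.inr (Or.inl (h.eq_entries z1 z2 z3 z4 z5 z6)))⟩
    · exact ⟨1, Or.inr (Or.inr (Or.inr (Or.inl (h.eq_entries z1 z2 z3 z4 z5 z6))))⟩
  by_cases hne : rowSum P 0 ≠ 1 ∨ rowSum P 1 ≠ 1
  · exact key h h01 h23 h02 hne
  · apply con_perm (Equiv.swap 0 2 * Equiv.swap 1 3)
    refine key (h.perm (Equiv.swap 0 2 * Equiv.swap 1 3)) h23 h01 h02.symm ?_
    rw [rowSum_perm, rowSum_perm]
    rcases h.ne4 with h1 | h1 | h1 | h1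
    · exact absurd (Or.inl h1) hne
    · exact absurd (Or.inr h1) hne
    · exact Or.inl h1
    · exact Or.inr h1

theorem Good.con (h : Good A d P) : Con A := by
  by_cases h01 : d 0 = d 1
  · by_cases h02 : d 0 = d 2
    · by_cases h03 : d 0 = d 3
      · exact h.con1 h01 h02 h03
      · exact h.con2 h01 h02 h03
    · by_cases h03 : d 0 = d 3
      · exact con_perm (Equiv.swap 2 3) ((h.perm (Equiv.swap 2 3)).con2 h01 h03 h02)
      · by_cases h23 : d 2 = d 3
        · exact h.con3 h01 h23 h02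
        · exact (h.case4 h01 h02 h03 h23).elim
  · by_cases h02 : d 0 = d 2
    · by_cases h03 : d 0 = d 3
      · exact con_perm (Equiv.swap 1 3) ((h.perm (Equiv.swap 1 3)).con2 h03 h02 h01)
      · by_cases h13 : d 1 = d 3
        · exact con_perm (Equiv.swap 1 2) ((h.perm (Equiv.swap 1 2)).con3 h02 h13 h01)
        · exact ((h.perm (Equiv.swap 1 2)).case4 h02 h01 h03 h13).elim
    · by_cases h03 : d 0 = d 3
      · by_cases h12 : d 1 = d 2
        · exact con_perm (Equiv.swap 1 3) ((h.perm (Equiv.swap 1 3)).con3 h03 h12.symm h02)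
        · exact ((h.perm (Equiv.swap 1 3)).case4 h03 h02 h01 (Ne.symm h12)).elim
      · by_cases h12 : d 1 = d 2
        · by_cases h13 : d 1 = d 3
          · exact con_perm (Equiv.swap 0 3) ((h.perm (Equiv.swap 0 3)).con2 h13.symm
              (h13.symm.trans h12) (Ne.symm h03))
          · exact ((h.perm (Equiv.swap 0 2)).case4 h12.symm (Ne.symm h02)
              (fun hc => h13 (h12.trans hc)) h03).elim
        · by_cases h13 : d 1 = d 3
          · exact ((h.perm (Equiv.swap 0 3)).case4 h13.symm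
              (fun hc => h12 (h13.trans hc)) (Ne.symm h03) (Ne.symm h02)).elim
          · by_cases h23 : d 2 = d 3
            · exact (((h.perm (Equiv.swap 0 2)).perm (Equiv.swap 1 3)).case4 h23 (Ne.symm h02)
                (Ne.symm h12) h01).elim
            · exfalso
              refine h.case5 ?_
              intro i j hij
              fin_cases i <;> fin_cases j
              · exact absurd rfl hij
              · exact h01
              · exact h02
              · exact h03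
              · exact Ne.symm h01
              · exact absurd rfl hij
              · exact h12
              · exact h13
              · exact Ne.symm h02
              · exact Ne.symm h12
              · exact absurd rfl hij
              · exact h23
              · exact Ne.symm h03
              · exact Ne.symm h13
              · exact Ne.symm h23
              · exact absurd rfl hij

end Pool.Agent.MPf2d8fc
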