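import Mathlib
import Pool.Agent.Lib.MP_f2d8fc_an.OrderFourMain

/-!
# Fixed points of the iterated Pearson correlation map for `n = 4`: the listed matrices
-/

open Matrix

namespace Pool.Agent.MPf2d8fc

theorem FixC_perm {B : Matrix (Fin 4) (Fin 4) ℝ} (σ : Equiv.Perm (Fin 4)) (h : B ∈ FixC 4) :
    B.submatrix σ σ ∈ FixC 4 := by
  obtain ⟨h1, h2, d, hd, he⟩ := (mem_FixC_iff (by norm_num) B).1 h
  obtain ⟨P, hP⟩ := exists_good (by norm_num) h1 h2 hd he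
  have h3 := hP.perm σ
  exact (mem_FixC_iff (by norm_num) _).2 ⟨h3.psd, h3.diag, _, h3.par.pos, h3.eqn⟩

theorem FixC_of_perm {B : Matrix (Fin 4) (Fin 4) ℝ} (σ : Equiv.Perm (Fin 4))
    (h : B.submatrix σ σ ∈ FixC 4) : B ∈ FixC 4 := by
  have h1 := FixC_perm σ.symm h
  have e : (B.submatrix σ σ).submatrix σ.symm σ.symm = B := by
    ext i j
    simp
  rwa [e] at h1

/-- A symmetric matrix with unit diagonal satisfying the equation is a fixed point. -/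
theorem mem_of_eqs {M : Matrix (Fin 4) (Fin 4) ℝ} (hs : ∀ i j, M i j = M j i)
    (h1 : ∀ i, M i i = 1) (d : Fin 4 → ℝ) (hd : ∀ i, 0 < d i)
    (he : ∀ i j, i ≤ j → M i 0 * M j 0 + M i 1 * M j 1 + M i 2 * M j 2 + M i 3 * M j 3
      - (M i 0 + M i 1 + M i 2 + M i 3) * (M j 0 + M j 1 + M j 2 + M j 3) / 4
      = d i * d j * M i j) : M ∈ FixC 4 := by
  have hE : M * Hc 4 * M = diagonal d * M * diagonal d := by
    ext i j
    rw [eqn_apply, mul_diagonal, diagonal_mul, Fin.sum_univ_four, Fin.sum_univ_four,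
      Fin.sum_univ_four, hs 0 j, hs 1 j, hs 2 j, hs 3 j]
    push_cast
    rcases le_total i j with hij | hij
    · have := he i j hij
      linarith
    · have := he j i hij
      rw [hs j i] at this
      linarith
  have hT : Mᵀ = M := by
    ext i j
    rw [transpose_apply, hs]
  rw [mem_FixC_iff (by norm_num)]
  refine ⟨?_, h1, d, hd, hE⟩
  rw [psd_iff]
  refine ⟨hT, fun x => ?_⟩
  set y : Fin 4 → ℝ := fun i => x i / d i with hy
  have hxy : x = diagonal d *ᵥ y := by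
    funext i
    rw [mulVec_diagonal, hy]
    have := (hd i).ne'
    field_simp
  have e1 : x ⬝ᵥ (M *ᵥ x) = (M *ᵥ y) ⬝ᵥ (Hc 4 *ᵥ (M *ᵥ y)) := by
    calc x ⬝ᵥ (M *ᵥ x) = y ⬝ᵥ ((diagonal d * M * diagonal d) *ᵥ y) := by
          rw [Matrix.mul_assoc, dot_mul, diagonal_transpose, ← mulVec_mulVec, ← hxy]
      _ = y ⬝ᵥ ((M * (Hc 4 * M)) *ᵥ y) := by rw [← hE, Matrix.mul_assoc]
      _ = _ := by rw [dot_mul, hT, ← mulVec_mulVec]
  rw [e1, Hc_quad (by norm_num)]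
  exact Finset.sum_nonneg fun i _ => sq_nonneg _

theorem mem_entries {a b c e f g t0 t1 t2 t3 : ℝ} (h0 : 0 < t0) (h1 : 0 < t1) (h2 : 0 < t2)
    (h3 : 0 < t3)
    (e00 : 1 * 1 + a * a + b * b + c * c - (1 + a + b + c) * (1 + a + b + c) / 4 = t0 * t0 * 1)
    (e01 : 1 * a + a * 1 + b * e + c * f - (1 + a + b + c) * (a + 1 + e + f) / 4 = t0 * t1 * a)
    (e02 : 1 * b + a * e + b * 1 + c * g - (1 + a + b + c) * (b + e + 1 + g) / 4 = t0 * t2 * b)
    (e03 : 1 * c + a * f + b * g + c * 1 - (1 + a + b + c) * (c + f + g + 1) / 4 = t0 * t3 * c)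
    (e11 : a * a + 1 * 1 + e * e + f * f - (a + 1 + e + f) * (a + 1 + e + f) / 4 = t1 * t1 * 1)
    (e12 : a * b + 1 * e + e * 1 + f * g - (a + 1 + e + f) * (b + e + 1 + g) / 4 = t1 * t2 * e)
    (e13 : a * c + 1 * f + e * g + f * 1 - (a + 1 + e + f) * (c + f + g + 1) / 4 = t1 * t3 * f)
    (e22 : b * b + e * e + 1 * 1 + g * g - (b + e + 1 + g) * (b + e + 1 + g) / 4 = t2 * t2 * 1)
    (e23 : b * c + e * f + 1 * g + g * 1 - (b + e + 1 + g) * (c + f + g + 1) / 4 = t2 * t3 * g)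
    (e33 : c * c + f * f + g * g + 1 * 1 - (c + f + g + 1) * (c + f + g + 1) / 4 = t3 * t3 * 1) :
    !![1, a, b, c; a, 1, e, f; b, e, 1, g; c, f, g, 1] ∈ FixC 4 := by
  refine mem_of_eqs ?_ ?_ ![t0, t1, t2, t3] ?_ ?_
  · intro i j
    fin_cases i <;> fin_cases j <;> rfl
  · intro i
    fin_cases i <;> rfl
  · intro i
    fin_cases i
    · exact h0
    · exact h1
    · exact h2
    · exact h3
  · intro i j hij
    fin_cases i <;> fin_cases j
    · exact e00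
    · exact e01
    · exact e02
    · exact e03
    · exact absurd hij (by decide)
    · exact e11
    · exact e12
    · exact e13
    · exact absurd hij (by decide)
    · exact absurd hij (by decide)
    · exact e22
    · exact e23
    · exact absurd hij (by decide)
    · exact absurd hij (by decide)
    · exact absurd hij (by decide)
    · exact e33

theorem exists_root {T : ℝ} (hT : 0 < T) : ∃ t : ℝ, 0 < t ∧ t * t = T :=
  ⟨Real.sqrt T, Real.sqrt_pos.2 hT, Real.mul_self_sqrt hT.le⟩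

theorem fam_mem {x y : ℝ} (hxy : x ^ 2 + y ^ 2 = 1) :
    !![1, x * (x + 8) / (x ^ 2 + 8), -(1 + y) / (3 - y), -(1 - y) / (3 + y);
          x * (x + 8) / (x ^ 2 + 8), 1, -(1 - y) / (3 + y), -(1 + y) / (3 - y);
          -(1 + y) / (3 - y), -(1 - y) / (3 + y), 1, x * (x - 8) / (x ^ 2 + 8);
          -(1 - y) / (3 + y), -(1 + y) / (3 - y), x * (x - 8) / (x ^ 2 + 8), 1] ∈ FixC 4 := by
  have hx : 0 < x ^ 2 + 8 := by positivity
  have hy2 : y ^ 2 ≤ 1 := by nlinarith [sq_nonneg x]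
  have hy3 : 0 < 3 - y := by nlinarith
  have hy4 : 0 < 3 + y := by nlinarith
  have hx2 : x ^ 2 + 8 = (3 - y) * (3 + y) := by linear_combination hxy
  set T : ℝ := 16 / (x ^ 2 + 8) with hTd
  have hTp : 0 < T := by positivity
  have hT : T * (x ^ 2 + 8) = 16 := by rw [hTd]; field_simp
  have b1 : x * (x + 8) / (x ^ 2 + 8) = 1 - T * (1 - x) / 2 := by rw [hTd]; field_simp; ring
  have b2 : x * (x - 8) / (x ^ 2 + 8) = 1 - T * (1 + x) / 2 := by rw [hTd]; field_simp; ring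
  have b3 : -(1 + y) / (3 - y) = 1 - T * (3 + y) / 4 := by
    rw [hTd, hx2]; field_simp; ring
  have b4 : -(1 - y) / (3 + y) = 1 - T * (3 - y) / 4 := by
    rw [hTd, hx2]; field_simp; ring
  obtain ⟨r, hr, hrr⟩ := exists_root hTp
  rw [b1, b2, b3, b4]
  refine mem_entries hr hr hr hr ?_ ?_ ?_ ?_ ?_ ?_ ?_ ?_ ?_ ?_ <;> rw [hrr]
  · linear_combination (T / 16) * hT + 1 / 8 * T ^ 2 * hxy
  · linear_combination (T / 16) * hT - 1 / 8 * T ^ 2 * hxy
  · linear_combination (T / 16) * hT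
  · linear_combination (T / 16) * hT
  · linear_combination (T / 16) * hT + 1 / 8 * T ^ 2 * hxy
  · linear_combination (T / 16) * hT
  · linear_combination (T / 16) * hT
  · linear_combination (T / 16) * hT + 1 / 8 * T ^ 2 * hxy
  · linear_combination (T / 16) * hT - 1 / 8 * T ^ 2 * hxy
  · linear_combination (T / 16) * hT + 1 / 8 * T ^ 2 * hxy

theorem quartic_mem {c : ℝ} (hc : 33 * c ^ 4 - 28 * c ^ 3 + 166 * c ^ 2 - 28 * c + 1 = 0)
    (hc2 : c ^ 2 + 1 < 14 * c) :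
    !![1, 1, -1, c; 1, 1, -1, c; -1, -1, 1, -c; c, c, -c, 1] ∈ FixC 4 := by
  have hc0 : 0 < c := by nlinarith [sq_nonneg c]
  obtain ⟨t, ht, htt⟩ := exists_root (T := (11 - 2 * c + 3 * c ^ 2) / 4)
    (by nlinarith [sq_nonneg (c - 1)])
  obtain ⟨s, hs, hss⟩ := exists_root (T := (11 * c ^ 2 - 2 * c + 3) / 4)
    (by nlinarith [sq_nonneg (c - 1), sq_nonneg c])
  have hts : t * s * c = (14 * c - 1 - c ^ 2) / 4 := by
    apply eq_of_sq (mul_pos (mul_pos ht hs) hc0) (by linarith)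
    calc t * s * c * (t * s * c) = (t * t) * (s * s) * c ^ 2 := by ring
      _ = _ := by
        rw [htt, hss]
        linear_combination (1 / 16) * (c ^ 2 - 1) * hc
  refine mem_entries ht ht ht hs ?_ ?_ ?_ ?_ ?_ ?_ ?_ ?_ ?_ ?_
  · rw [htt]; ring
  · rw [htt]; ring
  · rw [htt]; ring
  · rw [hts]; ring
  · rw [htt]; ring
  · rw [htt]; ring
  · rw [hts]; ring
  · rw [htt]; ring
  · linear_combination hts
  · rw [hss]; ring

theorem pair_mem {g s : ℝ} (hs : 0 < s) (h1 : 1 + g ^ 2 - (1 + g) ^ 2 / 4 = s * s)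
    (h2 : 2 * g - (1 + g) ^ 2 / 4 = s * s * g) :
    !![1, -1, 0, 0; -1, 1, 0, 0; 0, 0, 1, g; 0, 0, g, 1] ∈ FixC 4 := by
  obtain ⟨t, ht, htt⟩ := exists_root (T := (2 : ℝ)) (by norm_num)
  refine mem_entries ht ht hs hs ?_ ?_ ?_ ?_ ?_ ?_ ?_ ?_ ?_ ?_
  · rw [htt]; ring
  · rw [htt]; ring
  · ring
  · ring
  · rw [htt]; ring
  · ring
  · ring
  · linear_combination h1
  · linear_combination h2
  · linear_combination h1

theorem triple_mem :
    !![1, -1 / 2, -1 / 2, 0; -1 / 2, 1, -1 / 2, 0; -1 / 2, -1 / 2, 1, 0; 0, 0, 0, (1 : ℝ)]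
      ∈ FixC 4 := by
  obtain ⟨t, ht, htt⟩ := exists_root (T := (3 / 2 : ℝ)) (by norm_num)
  obtain ⟨s, hs, hss⟩ := exists_root (T := (3 / 4 : ℝ)) (by norm_num)
  refine mem_entries ht ht ht hs ?_ ?_ ?_ ?_ ?_ ?_ ?_ ?_ ?_ ?_
  · rw [htt]; norm_num
  · rw [htt]; norm_num
  · rw [htt]; norm_num
  · norm_num
  · rw [htt]; norm_num
  · rw [htt]; norm_num
  · norm_num
  · rw [htt]; norm_num
  · norm_num
  · rw [hss]; norm_num

theorem simplex_mem :
    !![1, -1 / 3, -1 / 3, -1 / 3; -1 / 3, 1, -1 / 3, -1 / 3; -1 / 3, -1 / 3, 1, -1 / 3;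
        -1 / 3, -1 / 3, -1 / 3, (1 : ℝ)] ∈ FixC 4 := by
  obtain ⟨t, ht, htt⟩ := exists_root (T := (4 / 3 : ℝ)) (by norm_num)
  refine mem_entries ht ht ht ht ?_ ?_ ?_ ?_ ?_ ?_ ?_ ?_ ?_ ?_ <;> rw [htt] <;> norm_num

theorem listed_mem {M : Matrix (Fin 4) (Fin 4) ℝ} (h : Listed M) : M ∈ FixC 4 := by
  rcases h with ⟨x, y, hxy, rfl⟩ | ⟨c, hc, hc2, rfl⟩ | rfl | rfl | rfl | rfl
  · exact fam_mem hxy
  · exact quartic_mem hc hc2
  · exact pair_mem (s := 1) one_pos (by norm_num) (by norm_num)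
  · obtain ⟨s, hs, hss⟩ := exists_root (T := (2 / 3 : ℝ)) (by norm_num)
    exact pair_mem hs (by rw [hss]; norm_num) (by rw [hss]; norm_num)
  · exact triple_mem
  · exact simplex_mem

theorem sign_mem {A : Matrix (Fin 4) (Fin 4) ℝ} (h : SignRankOne A) : A ∈ FixC 4 := by
  obtain ⟨v, hv, ⟨i, j, hij⟩, rfl⟩ := h
  have hsq : ∀ k, v k * v k = 1 := fun k => by
    rcases hv k with h1 | h1 <;> rw [h1] <;> norm_num
  have hT : 0 < 4 - (v 0 + v 1 + v 2 + v 3) ^ 2 / 4 := by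
    have hnc : ¬ (v 1 = v 0 ∧ v 2 = v 0 ∧ v 3 = v 0) := by
      rintro ⟨h1, h2, h3⟩
      apply hij
      have : ∀ k, v k = v 0 := by
        intro k
        fin_cases k
        · rfl
        · exact h1
        · exact h2
        · exact h3
      rw [this i, this j]
    rcases hv 0 with h0 | h0 <;> rcases hv 1 with h1 | h1 <;> rcases hv 2 with h2 | h2 <;>
      rcases hv 3 with h3 | h3 <;> rw [h0, h1, h2, h3] at hnc ⊢ <;>
      first | exact absurd ⟨rfl, rfl, rfl⟩ hnc | norm_num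
  obtain ⟨t, ht, htt⟩ := exists_root hT
  refine mem_of_eqs (fun k l => ?_) (fun k => ?_) (fun _ => t) (fun _ => ht) (fun k l _ => ?_)
  · rw [vecMulVec_apply, vecMulVec_apply, mul_comm]
  · rw [vecMulVec_apply, hsq]
  · simp only [vecMulVec_apply]
    rw [htt]
    linear_combination v k * v l * (hsq 0 + hsq 1 + hsq 2 + hsq 3)

theorem quartic_unique : ∃! c : ℝ,
    33 * c ^ 4 - 28 * c ^ 3 + 166 * c ^ 2 - 28 * c + 1 = 0 ∧ c ^ 2 + 1 < 14 * c := by
  have hex : ∃ c ∈ Set.Icc (1 / 10 : ℝ) (1 / 5),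
      (fun c : ℝ => 33 * c ^ 4 - 28 * c ^ 3 + 166 * c ^ 2 - 28 * c + 1) c = 0 := by
    have hcont : ContinuousOn (fun c : ℝ => 33 * c ^ 4 - 28 * c ^ 3 + 166 * c ^ 2 - 28 * c + 1)
        (Set.Icc (1 / 10 : ℝ) (1 / 5)) := by fun_prop
    have := intermediate_value_Icc (by norm_num) hcont
    exact this ⟨by norm_num, by norm_num⟩
  obtain ⟨c, ⟨hc1, hc2⟩, hc⟩ := hex
  have hlow : ∀ x : ℝ, 33 * x ^ 4 - 28 * x ^ 3 + 166 * x ^ 2 - 28 * x + 1 = 0 →
      x ^ 2 + 1 < 14 * x → 1 / 10 < x := by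
    intro x h1 h2
    by_contra h3
    push Not at h3
    have h4 : 1 / 14 < x := by nlinarith [sq_nonneg x]
    have h5 : x ^ 2 ≤ 6 / 35 * x - 1 / 140 := by nlinarith
    nlinarith [sq_nonneg x, mul_pos (show 0 < x by linarith) (show 0 < x by linarith)]
  refine ⟨c, ⟨hc, by nlinarith⟩, ?_⟩
  rintro x ⟨h1, h2⟩
  have hx := hlow x h1 h2
  have hc' := hlow c hc (by nlinarith)
  by_contra hne
  have h3 : (x - c) * (33 * (x ^ 3 + x ^ 2 * c + x * c ^ 2 + c ^ 3)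
      - 28 * (x ^ 2 + x * c + c ^ 2) + 166 * (x + c) - 28) = 0 := by
    have hc0 : 33 * c ^ 4 - 28 * c ^ 3 + 166 * c ^ 2 - 28 * c + 1 = 0 := hc
    linear_combination h1 - hc0
  have h4 := (mul_eq_zero.1 h3).resolve_left (sub_ne_zero.2 hne)
  have h5 : ∀ z : ℝ, 1 / 10 < z → 0 < 33 * z ^ 3 - 42 * z ^ 2 + 166 * z - 14 := by
    intro z hz
    have h6 : 0 < z * (33 * (z - 7 / 11) ^ 2) + z * (166 - 33 * (7 / 11) ^ 2) - 14 := by
      have h7 : 0 ≤ z * (33 * (z - 7 / 11) ^ 2) := by positivity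
      nlinarith
    nlinarith
  have h6 := h5 x hx
  have h7 := h5 c hc'
  have h8 : 0 < x ^ 2 * c := by positivity
  have h9 : 0 < x * c ^ 2 := by positivity
  nlinarith [sq_nonneg (x - c)]

end Pool.Agent.MPf2d8fc
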