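import Mathlib
import Pool.Agent.Lib.MP_f2d8fc_an.Main

/-!
# The cases with no or one coupled level
-/

open Matrix

namespace Pool.Agent.MPf2d8fc

variable {n : ℕ} {d : Fin n → ℝ} {P : Matrix (Fin n) (Fin n) ℝ}

/-- If `P 1 = 0`, then `mat d P β = D P D`. -/
theorem mat_of_rowSum_zero (β : Matrix (lev d P) (lev d P) ℝ) (h0 : ∀ i, rowSum P i = 0) :
    mat d P β = diagonal d * P * diagonal d := by
  have hE : lvec d P = 0 := by
    ext i t
    simp [lvec, h0]
  rw [mat, hE]
  simp

/-- The row sums of `mat d P β`. -/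
theorem Param.rowSum_mat (h : Param d P) (β : Matrix (lev d P) (lev d P) ℝ) :
    mat d P β *ᵥ (fun _ => 1) = lvec d P *ᵥ (β *ᵥ fun t : lev d P => wt d P t) := by
  rw [h.mat_eq β, add_mulVec]
  have h1 : (diagonal d * W d P * diagonal d) *ᵥ (fun _ => (1 : ℝ)) = 0 := by
    rw [Matrix.mul_assoc, ← h.DW, ← Matrix.mul_assoc, ← mulVec_mulVec, h.W_one, mulVec_zero]
  rw [h1, zero_add, ← mulVec_mulVec, Et_one, ← mulVec_mulVec]

/-- The row sums of `mat d P β` vanish iff those of `P` do. -/
theorem Param.rowSum_mat_zero_iff (h : Param d P) {β : Matrix (lev d P) (lev d P) ℝ}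
    (hβ : β.PosDef) : (∀ i, rowSum (mat d P β) i = 0) ↔ ∀ i, rowSum P i = 0 := by
  constructor
  · intro h0
    have h1 : mat d P β *ᵥ (fun _ => 1) = 0 := by
      rw [mulVec_one_eq]; funext i; exact h0 i
    have h2 := h.mat_ker hβ (x := fun _ => 1) (by rw [h1]; simp)
    rw [mulVec_one_eq] at h2
    exact fun i => congrFun h2 i
  · intro h0 i
    have hE : lvec d P = 0 := by
      ext i t
      simp [lvec, h0]
    have h1 := h.rowSum_mat β
    rw [hE, zero_mulVec, mulVec_one_eq] at h1
    exact congrFun h1 i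

/-- With one coupled level `t` the core equation has an explicit solution. -/
theorem Param.mat_of_one_level (h : Param d P) {β : Matrix (lev d P) (lev d P) ℝ}
    (hβ : Core d P β) {t : ℝ} (ht : lev d P = {t}) (i j : Fin n) :
    mat d P β i j = d i * d j * P i j + t ^ 2 / (n - wt d P t) * (rowSum P i * rowSum P j) := by
  have hmem : t ∈ lev d P := by rw [ht]; exact Finset.mem_singleton_self t
  have hall : ∀ x, x ∈ lev d P → x = t := by
    intro x hx
    rw [ht] at hx
    exact Finset.mem_singleton.1 hx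
  have huniq : ∀ r : lev d P, r = ⟨t, hmem⟩ := fun r => Subtype.ext (hall r r.2)
  have hs := h.wt_pos ⟨t, hmem⟩
  have htpos := h.lev_pos ⟨t, hmem⟩
  have hsum : ∀ f : lev d P → ℝ, ∑ r, f r = f ⟨t, hmem⟩ := fun f =>
    Fintype.sum_eq_single _ fun r hr => absurd (huniq r) hr
  have hn : (0 : ℝ) < n := by exact_mod_cast h.npos
  have hlt := h.sum_wt_lt
  rw [hsum] at hlt
  simp only at hs htpos hlt
  have hc := hβ.2 ⟨t, hmem⟩ ⟨t, hmem⟩
  rw [hsum, hsum, hsum] at hc
  simp only at hc
  set b := β ⟨t, hmem⟩ ⟨t, hmem⟩ with hb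
  set s := wt d P t with hsdef
  have hbpos : 0 < b := hβ.1.diag_pos
  have hns : (n : ℝ) - s ≠ 0 := by linarith
  have hbval : b - t ^ 2 / s = t ^ 2 / (n - s) := by
    have h1 : b * (s * (n - s)) = t ^ 2 * n := by
      have h2 : b * (b * (s * (n - s))) = b * (t ^ 2 * n) := by
        have h3 : (s * b * b - s * b * (s * b) / n) * n = t * t * b * n := by rw [hc]
        rw [sub_mul, div_mul_cancel₀ _ hn.ne'] at h3
        linarith
      exact mul_left_cancel₀ hbpos.ne' h2
    field_simp
    nlinarith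
  have hEi : ∀ i, lvec d P i ⟨t, hmem⟩ = rowSum P i := by
    intro i
    have h1 := congrFun h.E_one i
    simp only [mulVec, dotProduct, mul_one] at h1
    rw [hsum] at h1
    exact h1
  rw [mat, Matrix.add_apply, mul_diagonal, diagonal_mul, mul_apply, hsum, transpose_apply,
    mul_apply, hsum, hEi, hEi, Matrix.sub_apply, diagonal_apply_eq, ← hb, ← hsdef, hbval]
  ring

end Pool.Agent.MPf2d8fc
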